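import Mathlib

set_option autoImplicit false
set_option linter.all false

open Set

namespace Pool.Agent.Helper220.StrongColor

universe u

/-- the first uncountable ordinal as a type -/
def Om : Type := (Cardinal.aleph 1).ord.ToType

/-- the second uncountable initial ordinal as a type -/
def Th : Type := (Cardinal.aleph 2).ord.ToType

noncomputable instance : LinearOrder Om :=
  inferInstanceAs (LinearOrder (Cardinal.aleph 1).ord.ToType)

noncomputable instance : LinearOrder Th :=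
  inferInstanceAs (LinearOrder (Cardinal.aleph 2).ord.ToType)

instance : WellFoundedLT Om := inferInstanceAs (WellFoundedLT (Cardinal.aleph 1).ord.ToType)

instance : WellFoundedLT Th := inferInstanceAs (WellFoundedLT (Cardinal.aleph 2).ord.ToType)

lemma mk_Om : Cardinal.mk Om = Cardinal.aleph 1 := Cardinal.mk_ord_toType _

lemma mk_Th : Cardinal.mk Th = Cardinal.aleph 2 := Cardinal.mk_ord_toType _

lemma aleph2_eq : Cardinal.aleph 2 = Order.succ (Cardinal.aleph 1) := by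
  rw [← Cardinal.aleph_succ]
  congr 1
  rw [Order.succ_eq_add_one]
  norm_num

lemma mk_Iio_Om (a : Om) : (Iio a).Countable := by
  have h : Cardinal.mk (Iio a) < Cardinal.mk Om :=
    Cardinal.mk_Iio_lt (α := (Cardinal.aleph 1).ord.ToType) a (by simp)
  rw [mk_Om] at h
  rwa [← Cardinal.le_aleph0_iff_set_countable, ← Order.lt_succ_iff, Cardinal.succ_aleph0]

lemma mk_Iio_Th (a : Th) : Cardinal.mk (Iio a) ≤ Cardinal.aleph 1 := by
  have h : Cardinal.mk (Iio a) < Cardinal.mk Th :=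
    Cardinal.mk_Iio_lt (α := (Cardinal.aleph 2).ord.ToType) a (by simp)
  rw [mk_Th, aleph2_eq] at h
  exact Order.lt_succ_iff.1 h

instance : Uncountable Om := by
  rw [← not_countable_iff, ← Cardinal.mk_le_aleph0_iff, mk_Om, not_le]
  exact Cardinal.aleph0_lt_aleph_one

/-- sets of size at most `ℵ₁` -/
def Small {α : Type} (A : Set α) : Prop := Cardinal.mk A ≤ Cardinal.aleph 1

lemma aleph0_le_aleph1 : Cardinal.aleph0 ≤ Cardinal.aleph 1 := Cardinal.aleph0_lt_aleph_one.le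

lemma Small.mono {α : Type} {A B : Set α} (h : A ⊆ B) (hB : Small B) : Small A :=
  (Cardinal.mk_le_mk_of_subset h).trans hB

lemma Small.of_countable {α : Type} {A : Set α} (h : A.Countable) : Small A :=
  (Cardinal.le_aleph0_iff_set_countable.2 h).trans aleph0_le_aleph1

lemma Small.image {α β : Type} {A : Set α} (h : Small A) (f : α → β) : Small (f '' A) :=
  Cardinal.mk_image_le.trans h

lemma Small.iUnion {α ι : Type} (hι : Cardinal.mk ι ≤ Cardinal.aleph 1) {A : ι → Set α}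
    (h : ∀ i, Small (A i)) : Small (⋃ i, A i) := by
  unfold Small
  calc Cardinal.mk (⋃ i, A i) ≤ Cardinal.mk ι * ⨆ i, Cardinal.mk (A i) := Cardinal.mk_iUnion_le _
    _ ≤ Cardinal.aleph 1 * Cardinal.aleph 1 := by
        apply mul_le_mul' hι
        exact ciSup_le' h
    _ = Cardinal.aleph 1 := Cardinal.mul_eq_self aleph0_le_aleph1

lemma Small.union {α : Type} {A B : Set α} (hA : Small A) (hB : Small B) : Small (A ∪ B) := by
  rw [union_eq_iUnion]
  apply Small.iUnion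
  · exact (Cardinal.mk_le_aleph0).trans aleph0_le_aleph1
  · rintro (_ | _)
    · exact hB
    · exact hA

lemma Small.biUnion {α ι : Type} {I : Set ι} (hι : Small I) {A : ι → Set α}
    (h : ∀ i ∈ I, Small (A i)) : Small (⋃ i ∈ I, A i) := by
  rw [biUnion_eq_iUnion]
  exact Small.iUnion hι fun i => h i.1 i.2

lemma not_small_univ_Th : ¬ Small (univ : Set Th) := by
  unfold Small
  rw [Cardinal.mk_univ, mk_Th, not_le, aleph2_eq]
  exact Order.lt_succ _

lemma small_Iio (a : Th) : Small (Iio a) := mk_Iio_Th a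

lemma small_Iic (a : Th) : Small (Iic a) := by
  have : Iic a = insert a (Iio a) := by
    ext b; simp [le_iff_eq_or_lt]
  rw [this, Set.insert_eq]
  exact (Small.of_countable (countable_singleton a)).union (small_Iio a)

lemma Small.bdd {A : Set Th} (h : Small A) : ∃ b, ∀ a ∈ A, a < b := by
  by_contra hcon
  push Not at hcon
  apply not_small_univ_Th
  refine Small.mono (B := ⋃ a ∈ A, Iic a) ?_ (h.biUnion fun a _ => small_Iic a)
  intro b _
  obtain ⟨a, ha, hab⟩ := hcon b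
  exact mem_biUnion ha hab

lemma countable_Iic_Om (a : Om) : (Iic a).Countable := by
  have : Iic a = insert a (Iio a) := by
    ext b; simp [le_iff_eq_or_lt]
  rw [this]
  exact (mk_Iio_Om a).insert a

lemma bdd_Om {A : Set Om} (h : A.Countable) : ∃ b, ∀ a ∈ A, a < b := by
  by_contra hcon
  push Not at hcon
  have : (univ : Set Om) ⊆ ⋃ a ∈ A, Iic a := by
    intro b _
    obtain ⟨a, ha, hab⟩ := hcon b
    exact mem_biUnion ha hab
  exact not_countable_univ ((h.biUnion fun a _ => countable_Iic_Om a).mono this)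

instance : NoMaxOrder Om := ⟨fun a => by
  obtain ⟨b, hb⟩ := bdd_Om (countable_singleton a)
  exact ⟨b, hb a rfl⟩⟩

instance : NoMaxOrder Th := ⟨fun a => by
  obtain ⟨b, hb⟩ := (Small.of_countable (countable_singleton a)).bdd
  exact ⟨b, hb a rfl⟩⟩

instance : Nonempty Om := inferInstance

instance : Nonempty Th := by
  rw [← Cardinal.mk_ne_zero_iff, mk_Th]
  exact (Cardinal.aleph_pos 2).ne'

/-- pigeonhole -/
lemma pigeon {ι : Type} (hι : Cardinal.mk ι ≤ Cardinal.aleph 1) {L : Set Th} (hL : ¬ Small L)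
    (F : Th → ι) : ∃ i, ¬ Small {x ∈ L | F x = i} := by
  by_contra hcon
  push Not at hcon
  apply hL
  refine Small.mono (B := ⋃ i, {x ∈ L | F x = i}) ?_ (Small.iUnion hι hcon)
  intro x hx
  exact mem_iUnion.2 ⟨F x, hx, rfl⟩

lemma exists_above {L : Set Th} (hL : ¬ Small L) (b : Th) : ∃ x ∈ L, b < x := by
  by_contra hcon
  push Not at hcon
  exact hL (Small.mono (fun x hx => hcon x hx) (small_Iic b))

/-- ordinals of cofinality `ω₁` below `ω₂` -/
def SS : Set Th := {δ | (∀ ζ, ζ < δ → ∃ ζ', ζ < ζ' ∧ ζ' < δ) ∧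
  ∀ A : Set Th, A.Countable → (∀ a ∈ A, a < δ) → ∃ ε, ε < δ ∧ ∀ a ∈ A, a ≤ ε}

lemma SS.exists_lt {δ : Th} (h : δ ∈ SS) : ∃ ε, ε < δ := by
  obtain ⟨ε, hε, -⟩ := h.2 ∅ countable_empty (by simp)
  exact ⟨ε, hε⟩

lemma exists_SS (G : Th → Th) (b : Th) : ∃ δ ∈ SS, b < δ ∧ ∀ ζ, ζ < δ → G ζ < δ := by
  have step : ∀ (i : Om) (ih : ∀ j, j < i → Th), ∃ c, b < c ∧
      ∀ j (hj : j < i), ih j hj < c ∧ ∀ ζ, ζ ≤ ih j hj → G ζ < c := by
    intro i ih
    have hsm : Small ({b} ∪ ⋃ j : {j // j < i}, ({ih j.1 j.2} ∪ G '' Iic (ih j.1 j.2))) := by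
      refine (Small.of_countable (countable_singleton b)).union (Small.iUnion ?_ fun j =>
        (Small.of_countable (countable_singleton _)).union ((small_Iic _).image G))
      have : Cardinal.mk {j // j < i} ≤ Cardinal.mk Om := Cardinal.mk_subtype_le _
      rwa [mk_Om] at this
    obtain ⟨c, hc⟩ := hsm.bdd
    refine ⟨c, hc b (Or.inl rfl), fun j hj => ⟨hc _ (Or.inr ?_), fun ζ hζ => hc _ (Or.inr ?_)⟩⟩
    · exact mem_iUnion.2 ⟨⟨j, hj⟩, Or.inl rfl⟩
    · exact mem_iUnion.2 ⟨⟨j, hj⟩, Or.inr ⟨ζ, hζ, rfl⟩⟩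
  choose st hst using step
  let y : Om → Th := (wellFounded_lt (α := Om)).fix st
  have hy : ∀ i, y i = st i (fun j _ => y j) := fun i => WellFounded.fix_eq _ _ _
  have hyb : ∀ i, b < y i := by
    intro i
    rw [hy]
    exact (hst _ _).1
  have hylt : ∀ i j, j < i → y j < y i ∧ ∀ ζ, ζ ≤ y j → G ζ < y i := by
    intro i j hj
    rw [hy i]
    exact (hst i (fun j _ => y j)).2 j hj
  have hne : {c | ∀ i, y i < c}.Nonempty := by
    have : Small (range y) := by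
      refine Cardinal.mk_range_le.trans ?_
      rw [mk_Om]
    obtain ⟨c, hc⟩ := this.bdd
    exact ⟨c, fun i => hc _ (mem_range_self i)⟩
  have hwf : WellFounded ((· < ·) : Th → Th → Prop) := wellFounded_lt
  set δ := hwf.min {c | ∀ i, y i < c} hne with hδ
  have hδ1 : ∀ i, y i < δ := hwf.min_mem _ hne
  have hδ2 : ∀ ζ, ζ < δ → ∃ i, ζ ≤ y i := by
    intro ζ hζ
    by_contra hcon
    push Not at hcon
    exact hwf.not_lt_min {c | ∀ i, y i < c} hcon hζ
  refine ⟨δ, ⟨fun ζ hζ => ?_, fun A hA hAδ => ?_⟩, ?_, fun ζ hζ => ?_⟩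
  · obtain ⟨i, hi⟩ := hδ2 ζ hζ
    obtain ⟨i', hi'⟩ := exists_gt i
    exact ⟨y i', hi.trans_lt (hylt _ _ hi').1, hδ1 _⟩
  · have : ∀ a, ∃ i, a ∈ A → a ≤ y i := by
      intro a
      by_cases ha : a ∈ A
      · obtain ⟨i, hi⟩ := hδ2 a (hAδ a ha)
        exact ⟨i, fun _ => hi⟩
      · exact ⟨Classical.arbitrary Om, fun h => absurd h ha⟩
    choose I hI using this
    obtain ⟨i', hi'⟩ := bdd_Om (hA.image I)
    refine ⟨y i', hδ1 _, fun a ha => ?_⟩
    exact (hI a ha).trans (hylt _ _ (hi' _ ⟨a, ha, rfl⟩)).1.le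
  · exact (hyb (Classical.arbitrary Om)).trans (hδ1 _)
  · obtain ⟨i, hi⟩ := hδ2 ζ hζ
    obtain ⟨i', hi'⟩ := exists_gt i
    exact ((hylt _ _ hi').2 ζ hi).trans (hδ1 _)

/-- C-sequences: `C β` is cofinal in `β` and its proper initial segments are countable -/
structure IsC (C : Th → Set Th) : Prop where
  lt : ∀ β γ, γ ∈ C β → γ < β
  cof : ∀ β α, α < β → ∃ γ ∈ C β, α ≤ γ
  cnt : ∀ β α, α < β → {γ ∈ C β | γ < α}.Countable

lemma exists_IsC : ∃ C, IsC C := by
  have key : ∀ β : Th, ∃ D : Set Th, (∀ γ ∈ D, γ < β) ∧ (∀ α, α < β → ∃ γ ∈ D, α ≤ γ) ∧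
      ∀ α, α < β → {γ ∈ D | γ < α}.Countable := by
    intro β
    rcases (Iio β).eq_empty_or_nonempty with he | hne
    · refine ⟨∅, by simp, fun α hα => ?_, fun α hα => by simp⟩
      have : α ∈ Iio β := hα
      rw [he] at this
      exact absurd this (notMem_empty α)
    · have h1 : Cardinal.mk (Iio β) ≤ Cardinal.mk Om := by
        rw [mk_Om]; exact mk_Iio_Th β
      obtain ⟨φ⟩ := h1
      haveI : Nonempty (Iio β) := hne.to_subtype
      let e : Om → Iio β := Function.invFun φ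
      have he : Function.Surjective e := Function.invFun_surjective φ.injective
      have hwf : WellFounded ((· < ·) : Om → Om → Prop) := wellFounded_lt
      refine ⟨{γ | ∃ i, (e i : Th) = γ ∧ ∀ j, j < i → e j < e i}, ?_, ?_, ?_⟩
      · rintro _ ⟨i, rfl, -⟩
        exact (e i).2
      · intro α hα
        have hne' : {i | α ≤ (e i : Th)}.Nonempty := by
          obtain ⟨i, hi⟩ := he ⟨α, hα⟩
          exact ⟨i, by show α ≤ (e i : Th); rw [hi]⟩
        have hm : α ≤ (e (hwf.min {i | α ≤ (e i : Th)} hne') : Th) :=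
          hwf.min_mem {i | α ≤ (e i : Th)} hne'
        refine ⟨e (hwf.min {i | α ≤ (e i : Th)} hne'), ⟨_, rfl, fun j hj => ?_⟩, hm⟩
        have h2 : ¬ α ≤ (e j : Th) := fun h => hwf.not_lt_min {i | α ≤ (e i : Th)} h hj
        exact (not_le.1 h2).trans_le hm
      · intro α hα
        obtain ⟨i0, hi0⟩ := he ⟨α, hα⟩
        refine ((countable_Iic_Om i0).image fun i => (e i : Th)).mono ?_
        rintro _ ⟨⟨i, rfl, hi⟩, hlt⟩
        refine ⟨i, ?_, rfl⟩
        by_contra hcon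
        have h3 := hi i0 (not_le.1 hcon)
        rw [hi0] at h3
        exact absurd hlt (not_lt.2 (le_of_lt h3))
  choose C h1 h2 h3 using key
  exact ⟨C, ⟨h1, h2, h3⟩⟩

/-- the least element of `C β` above `α` -/
noncomputable def nx (C : Th → Set Th) (β α : Th) : Th :=
  open Classical in
  if h : {γ | γ ∈ C β ∧ α ≤ γ}.Nonempty then (wellFounded_lt (α := Th)).min _ h else β

section nx

variable {C : Th → Set Th} (hC : IsC C)

include hC

lemma nx_spec {β α : Th} (h : α < β) : nx C β α ∈ C β ∧ α ≤ nx C β α ∧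
    ∀ γ ∈ C β, α ≤ γ → nx C β α ≤ γ := by
  have hne : {γ | γ ∈ C β ∧ α ≤ γ}.Nonempty := by
    obtain ⟨γ, h1, h2⟩ := hC.cof β α h
    exact ⟨γ, h1, h2⟩
  have hwf : WellFounded ((· < ·) : Th → Th → Prop) := wellFounded_lt
  have hm : nx C β α = hwf.min {γ | γ ∈ C β ∧ α ≤ γ} hne := dif_pos hne
  have h1 := hwf.min_mem {γ | γ ∈ C β ∧ α ≤ γ} hne
  rw [hm]
  refine ⟨h1.1, h1.2, fun γ hγ hαγ => ?_⟩
  exact not_lt.1 (hwf.not_lt_min {γ | γ ∈ C β ∧ α ≤ γ} ⟨hγ, hαγ⟩)

lemma nx_mem {β α : Th} (h : α < β) : nx C β α ∈ C β := (nx_spec hC h).1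

lemma le_nx {β α : Th} (h : α < β) : α ≤ nx C β α := (nx_spec hC h).2.1

lemma nx_le {β α γ : Th} (h : α < β) (hγ : γ ∈ C β) (hαγ : α ≤ γ) : nx C β α ≤ γ :=
  (nx_spec hC h).2.2 γ hγ hαγ

lemma nx_lt {β α : Th} (h : α < β) : nx C β α < β := hC.lt _ _ (nx_mem hC h)

lemma nx_eq {β α α' : Th} (h : α < β) (h1 : α ≤ α') (h2 : α' ≤ nx C β α) :
    nx C β α' = nx C β α := by
  have h' : α' < β := h2.trans_lt (nx_lt hC h)
  apply le_antisymm
  · exact nx_le hC h' (nx_mem hC h) h2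
  · exact nx_le hC h (nx_mem hC h') (h1.trans (le_nx hC h'))

/-- for `δ` of cofinality `ω₁`, `C β` is bounded below `δ` -/
lemma bdd_below {δ β : Th} (hδ : δ ∈ SS) (h : δ < β) :
    ∃ ε, ε < δ ∧ ∀ γ ∈ C β, γ < δ → γ ≤ ε := by
  obtain ⟨ε, h1, h2⟩ := hδ.2 _ (hC.cnt β δ h) (fun a ha => ha.2)
  exact ⟨ε, h1, fun γ hγ hγδ => h2 γ ⟨hγ, hγδ⟩⟩

end nx

/-- non-guessing sets -/
def Non (C : Th → Set Th) (A : Set Th) : Prop :=
  ∃ g : Th → Th, ∀ δ ∈ A, ∃ ε, ε < δ ∧ ∀ ζ, ε < ζ → ζ < δ → nx C δ ζ < g ζ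

lemma Non.mono {C : Th → Set Th} {A B : Set Th} (h : A ⊆ B) (hB : Non C B) : Non C A := by
  obtain ⟨g, hg⟩ := hB
  exact ⟨g, fun δ hδ => hg δ (h hδ)⟩

lemma sup_fun {ι : Type} (hι : Cardinal.mk ι ≤ Cardinal.aleph 1) (g : ι → Th → Th) :
    ∃ G : Th → Th, ∀ i ζ, g i ζ < G ζ := by
  have : ∀ ζ, ∃ b, ∀ i, g i ζ < b := by
    intro ζ
    have hs : Small (range fun i => g i ζ) := Cardinal.mk_range_le.trans hι
    obtain ⟨b, hb⟩ := hs.bdd
    exact ⟨b, fun i => hb _ ⟨i, rfl⟩⟩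
  choose G hG using this
  exact ⟨G, fun i ζ => hG ζ i⟩

lemma Non.iUnion {C : Th → Set Th} {ι : Type} (hι : Cardinal.mk ι ≤ Cardinal.aleph 1)
    {A : ι → Set Th} (h : ∀ i, Non C (A i)) : Non C (⋃ i, A i) := by
  choose g hg using h
  obtain ⟨G, hG⟩ := sup_fun hι g
  refine ⟨G, fun δ hδ => ?_⟩
  obtain ⟨i, hi⟩ := mem_iUnion.1 hδ
  obtain ⟨ε, hε, h2⟩ := hg i δ hi
  exact ⟨ε, hε, fun ζ h3 h4 => (h2 ζ h3 h4).trans (hG i ζ)⟩

/-- closed unbounded sets given by closure points of a function -/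
def Clo (g : Th → Th) : Set Th := {x | ∀ ζ, ζ < x → g ζ < x}

/-- closed sets -/
def IsCl (E : Set Th) : Prop := ∀ γ, (∃ x ∈ E, x ≤ γ) → ∃ m ∈ E, m ≤ γ ∧ ∀ x ∈ E, x ≤ γ → x ≤ m

lemma isCl_iInter_Clo {ι : Type} (g : ι → Th → Th) : IsCl (⋂ i, Clo (g i)) := by
  intro γ hγ
  have hwf : WellFounded ((· < ·) : Th → Th → Prop) := wellFounded_lt
  let E : Set Th := ⋂ i, Clo (g i)
  have hne : {m | ∀ x ∈ E, x ≤ γ → x ≤ m}.Nonempty := ⟨γ, fun x _ h => h⟩
  have h1 := hwf.min_mem _ hne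
  have h2 : ∀ ζ, ζ < hwf.min _ hne → ∃ x ∈ E, x ≤ γ ∧ ζ < x := by
    intro ζ hζ
    by_contra hcon
    push Not at hcon
    exact hwf.not_lt_min {m | ∀ x ∈ E, x ≤ γ → x ≤ m} hcon hζ
  refine ⟨hwf.min _ hne, ?_, ?_, h1⟩
  · rw [mem_iInter]
    intro i ζ hζ
    obtain ⟨x, hx, hxγ, hζx⟩ := h2 ζ hζ
    exact (mem_iInter.1 hx i ζ hζx).trans_le (h1 x hx hxγ)
  · exact not_lt.1 (hwf.not_lt_min {m | ∀ x ∈ E, x ≤ γ → x ≤ m} (fun x _ h => h))

/-- largest element of `E` up to `γ` -/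
noncomputable def top (E : Set Th) (γ : Th) : Th :=
  open Classical in
  if h : ∃ m ∈ E, m ≤ γ ∧ ∀ x ∈ E, x ≤ γ → x ≤ m then h.choose else γ

lemma top_spec {E : Set Th} (hE : IsCl E) {γ : Th} (h : ∃ x ∈ E, x ≤ γ) :
    top E γ ∈ E ∧ top E γ ≤ γ ∧ ∀ x ∈ E, x ≤ γ → x ≤ top E γ := by
  have h' := hE γ h
  have : top E γ = h'.choose := dif_pos h'
  rw [this]
  exact h'.choose_spec

open Classical in
/-- the modified C-sequence -/
noncomputable def modC (C : Th → Set Th) (E : Set Th) (δ : Th) : Set Th :=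
  if ∀ ζ, ζ < δ → ∃ x ∈ E, ζ < x ∧ x < δ then
    {m | ∃ γ ∈ C δ, (∃ x ∈ E, x ≤ γ) ∧ m = top E γ} else C δ

lemma isC_modC {C : Th → Set Th} (hC : IsC C) {E : Set Th} (hE : IsCl E) : IsC (modC C E) := by
  refine ⟨fun β γ hγ => ?_, fun β α h => ?_, fun β α h => ?_⟩
  · unfold modC at hγ
    split_ifs at hγ with hcase
    · obtain ⟨γ', h1, h2, rfl⟩ := hγ
      exact (top_spec hE h2).2.1.trans_lt (hC.lt _ _ h1)
    · exact hC.lt _ _ hγ
  · unfold modC
    split_ifs with hcase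
    · obtain ⟨x, hx, hαx, hxβ⟩ := hcase α h
      obtain ⟨γ, hγ, hxγ⟩ := hC.cof β x hxβ
      have := top_spec hE ⟨x, hx, hxγ⟩
      exact ⟨top E γ, ⟨γ, hγ, ⟨x, hx, hxγ⟩, rfl⟩, hαx.le.trans (this.2.2 x hx hxγ)⟩
    · exact hC.cof β α h
  · unfold modC
    split_ifs with hcase
    · obtain ⟨x, hx, hαx, hxβ⟩ := hcase α h
      refine ((hC.cnt β x hxβ).image (top E)).mono ?_
      rintro _ ⟨⟨γ, hγ, hex, rfl⟩, hlt⟩
      refine ⟨γ, ⟨hγ, ?_⟩, rfl⟩
      by_contra hcon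
      have := (top_spec hE hex).2.2 x hx (not_lt.1 hcon)
      exact absurd (this.trans_lt hlt) (not_lt.2 hαx.le)
    · exact hC.cnt β α h

/-- club guessing -/
theorem exists_guess : ∃ C, IsC C ∧ ¬ Non C SS := by
  by_contra hcon
  push Not at hcon
  obtain ⟨C0, hC0⟩ := exists_IsC
  -- choose a counterexample for every C-sequence
  have hex : ∀ C : Th → Set Th, ∃ g : Th → Th, IsC C →
      ∀ δ ∈ SS, ∃ ε, ε < δ ∧ ∀ ζ, ε < ζ → ζ < δ → nx C δ ζ < g ζ := by
    intro C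
    by_cases h : IsC C
    · obtain ⟨g, hg⟩ := hcon C h
      exact ⟨g, fun _ => hg⟩
    · exact ⟨id, fun h' => absurd h' h⟩
  choose bad hbad using hex
  -- decreasing closed sets
  let next : Set Th → Set Th := fun E => E ∩ Clo (bad (modC C0 E))
  let E : ℕ → Set Th := fun n => Nat.rec univ (fun _ X => next X) n
  have hE0 : E 0 = univ := rfl
  have hEs : ∀ n, E (n + 1) = E n ∩ Clo (bad (modC C0 (E n))) := fun n => rfl
  have hEform : ∀ n, E n = ⋂ i : Fin n, Clo (bad (modC C0 (E i))) := by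
    intro n
    induction n with
    | zero => rw [hE0]; simp
    | succ n ih =>
      rw [hEs]
      ext x
      simp only [mem_inter_iff, mem_iInter]
      constructor
      · rintro ⟨h1, h2⟩ ⟨i, hi⟩
        rcases Nat.lt_succ_iff_lt_or_eq.1 hi with h | h
        · rw [ih] at h1
          exact mem_iInter.1 h1 ⟨i, h⟩
        · subst h
          exact h2
      · intro h
        refine ⟨?_, h ⟨n, Nat.lt_succ_self n⟩⟩
        rw [ih]
        exact mem_iInter.2 fun i => h ⟨i.1, i.2.trans (Nat.lt_succ_self n)⟩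
  have hEcl : ∀ n, IsCl (E n) := by
    intro n
    rw [hEform]
    exact isCl_iInter_Clo _
  have hEanti : ∀ n, E (n + 1) ⊆ E n := fun n => by rw [hEs]; exact inter_subset_left
  have hEanti' : ∀ m n, m ≤ n → E n ⊆ E m := fun m n h => antitone_nat_of_succ_le hEanti h
  obtain ⟨G, hG⟩ := sup_fun (ι := ℕ) (by simpa using aleph0_le_aleph1)
    (fun n => bad (modC C0 (E n)))
  -- closure points of `G` belong to all `E n`
  have hGE : ∀ x, (∀ ζ, ζ < x → G ζ < x) → ∀ n, x ∈ E n := by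
    intro x hx n
    rw [hEform]
    exact mem_iInter.2 fun i ζ hζ => (hG i.1 ζ).trans (hx ζ hζ)
  have hG' : ∀ y : Th, ∃ x, x ∈ SS ∧ y < x ∧ ∀ ζ, ζ < x → G ζ < x := by
    intro y
    obtain ⟨x, h1, h2, h3⟩ := exists_SS G y
    exact ⟨x, h1, h2, h3⟩
  choose X hX1 hX2 hX3 using hG'
  obtain ⟨δ, hδ, -, hδX⟩ := exists_SS X (Classical.arbitrary Th)
  have hδacc : ∀ n, ∀ ζ, ζ < δ → ∃ x ∈ E n, ζ < x ∧ x < δ := fun n ζ hζ =>
    ⟨X ζ, hGE _ (hX3 ζ) n, hX2 ζ, hδX ζ hζ⟩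
  have hmem : ∀ n, modC C0 (E n) δ =
      {m | ∃ γ ∈ C0 δ, (∃ x ∈ E n, x ≤ γ) ∧ m = top (E n) γ} := fun n => if_pos (hδacc n)
  have hbd : ∀ n, ∃ ε, ε < δ ∧ ∀ ζ, ε < ζ → ζ < δ →
      nx (modC C0 (E n)) δ ζ < bad (modC C0 (E n)) ζ :=
    fun n => hbad _ (isC_modC hC0 (hEcl n)) δ hδ
  choose ε hε1 hε2 using hbd
  obtain ⟨ε', hε', hεε⟩ := hδ.2 (range ε) (countable_range ε) (by rintro _ ⟨n, rfl⟩; exact hε1 n)
  -- the point `x`
  set x := X ε' with hx
  have hxδ : x < δ := hδX _ hε'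
  have hεx : ε' < x := hX2 ε'
  have hxS : x ∈ SS := hX1 _
  have hxE : ∀ n, x ∈ E n := hGE _ (hX3 _)
  obtain ⟨γ0, hγ0x, hγ0⟩ := hxS.2 _ (hC0.cnt δ x hxδ) (fun a ha => ha.2)
  set γ := nx C0 δ x with hγ
  have hγC : γ ∈ C0 δ := nx_mem hC0 hxδ
  have hxγ : x ≤ γ := le_nx hC0 hxδ
  have htop : ∀ n, top (E n) γ ∈ E n ∧ top (E n) γ ≤ γ ∧ ∀ z ∈ E n, z ≤ γ → z ≤ top (E n) γ :=
    fun n => top_spec (hEcl n) ⟨x, hxE n, hxγ⟩
  have hxtop : ∀ n, x ≤ top (E n) γ := fun n => (htop n).2.2 x (hxE n) hxγ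
  have hanti : ∀ n, top (E (n + 1)) γ ≤ top (E n) γ := fun n =>
    (htop n).2.2 _ (hEanti n (htop (n + 1)).1) (htop (n + 1)).2.1
  -- eventually constant
  obtain ⟨n, hn⟩ : ∃ n, top (E (n + 1)) γ = top (E n) γ := by
    by_contra hne
    push Not at hne
    have hlt : ∀ n, top (E (n + 1)) γ < top (E n) γ := fun n => lt_of_le_of_ne (hanti n) (hne n)
    have hwf : WellFounded ((· < ·) : Th → Th → Prop) := wellFounded_lt
    have hne' : (range fun n => top (E n) γ).Nonempty := range_nonempty _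
    obtain ⟨m, hm⟩ := hwf.min_mem _ hne'
    have := hwf.not_lt_min (range fun n => top (E n) γ) (mem_range_self (m + 1))
    rw [← hm] at this
    exact this (hlt m)
  -- choose `ζ`
  have hmax : max ε' γ0 < x := max_lt hεx hγ0x
  obtain ⟨ζ, hζ1, hζ2⟩ := hxS.1 _ hmax
  have hζδ : ζ < δ := hζ2.trans hxδ
  have h1 := hε2 n ζ ((hεε _ (mem_range_self n)).trans_lt ((le_max_left _ _).trans_lt hζ1)) hζδ
  have hCn := isC_modC hC0 (hEcl n)
  have h2 : nx (modC C0 (E n)) δ ζ = top (E n) γ := by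
    apply le_antisymm
    · apply nx_le hCn hζδ
      · rw [hmem]
        exact ⟨γ, hγC, ⟨x, hxE n, hxγ⟩, rfl⟩
      · exact hζ2.le.trans (hxtop n)
    · have h3 := nx_mem hCn hζδ
      have h4 := le_nx hCn hζδ
      rw [hmem] at h3
      obtain ⟨γ', hγ', hex', heq⟩ := h3
      rw [heq] at h4 ⊢
      have h5 : x ≤ γ' := by
        by_contra hlt
        have h6 := hγ0 γ' ⟨hγ', not_le.1 hlt⟩
        have h7 := (top_spec (hEcl n) hex').2.1
        exact absurd ((le_max_right ε' γ0).trans_lt hζ1) (not_lt.2 (h4.trans (h7.trans h6)))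
      have h8 : γ ≤ γ' := nx_le hC0 hxδ hγ' h5
      exact (top_spec (hEcl n) hex').2.2 _ (htop n).1 ((htop n).2.1.trans h8)
  rw [h2] at h1
  have h3 : top (E n) γ ∈ Clo (bad (modC C0 (E n))) := by
    have := (htop (n + 1)).1
    rw [hn, hEs] at this
    exact this.2
  exact absurd h1 (not_lt.2 (h3 ζ (hζ2.trans_le (hxtop n))).le)

lemma small_Non (C : Th → Set Th) (hC : IsC C) (b : Th) : Non C (SS ∩ Iic b) := by
  obtain ⟨b', hb'⟩ := exists_gt b
  refine ⟨fun _ => b', fun δ hδ => ?_⟩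
  obtain ⟨ε, hε⟩ := SS.exists_lt hδ.1
  refine ⟨ε, hε, fun ζ _ hζ => ?_⟩
  exact (nx_lt hC hζ).trans ((mem_Iic.1 hδ.2).trans_lt hb')

lemma exists_inj_Om : ∃ f : Th → Th → Om, ∀ δ, InjOn (f δ) (Iio δ) := by
  have : ∀ δ : Th, ∃ f : Th → Om, InjOn f (Iio δ) := by
    intro δ
    have h1 : Cardinal.mk (Iio δ) ≤ Cardinal.mk Om := by
      rw [mk_Om]; exact mk_Iio_Th δ
    obtain ⟨φ⟩ := h1
    classical
    refine ⟨fun x => if h : x < δ then φ ⟨x, h⟩ else Classical.arbitrary Om, ?_⟩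
    intro x hx y hy hxy
    have hx : x < δ := hx
    have hy : y < δ := hy
    simp only [dif_pos hx, dif_pos hy] at hxy
    exact congrArg Subtype.val (φ.injective hxy)
  choose f hf using this
  exact ⟨f, hf⟩

lemma exists_inj_nat : ∃ e : Om → Om → ℕ, ∀ y, InjOn (fun x => e x y) (Iio y) := by
  have : ∀ y : Om, ∃ e : Om → ℕ, InjOn e (Iio y) := fun y =>
    countable_iff_exists_injOn.1 (mk_Iio_Om y)
  choose e he using this
  exact ⟨fun x y => e y x, fun y => he y⟩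

/-- splitting into guessing sets (Ulam matrix) -/
theorem exists_split {C : Th → Set Th} (hC : IsC C) (hS : ¬ Non C SS) (K : Type) [Nonempty K]
    (hK : Cardinal.mk K ≤ Cardinal.aleph 1) :
    ∃ h : Th → K, ∀ k, ¬ Non C {δ ∈ SS | h δ = k} := by
  classical
  obtain ⟨f, hf⟩ := exists_inj_Om
  let U : Om → Th → Set Th := fun i ξ => {δ ∈ SS | ξ < δ ∧ f δ ξ = i}
  have h1 : ∀ ξ : Th, ∃ i, ¬ Non C (U i ξ) := by
    intro ξ
    by_contra hcon
    push Not at hcon
    apply hS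
    have hsub : SS ⊆ ⋃ o : Option Om, (match o with
        | none => SS ∩ Iic ξ
        | some i => U i ξ) := by
      intro δ hδ
      by_cases h : δ ≤ ξ
      · exact mem_iUnion.2 ⟨none, hδ, h⟩
      · exact mem_iUnion.2 ⟨some (f δ ξ), hδ, not_le.1 h, rfl⟩
    refine Non.mono hsub (Non.iUnion ?_ ?_)
    · rw [Cardinal.mk_option, mk_Om]
      exact (Cardinal.add_one_eq aleph0_le_aleph1).le
    · rintro (_ | i)
      · exact small_Non C hC ξ
      · exact hcon i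
  choose i hi using h1
  obtain ⟨i0, hi0⟩ := pigeon (ι := Om) (le_of_eq mk_Om) not_small_univ_Th i
  have hle : Cardinal.mk K ≤ Cardinal.mk {ξ ∈ (univ : Set Th) | i ξ = i0} :=
    hK.trans (le_of_lt (not_le.1 hi0))
  obtain ⟨φ⟩ := hle
  let h : Th → K := fun δ => if hh : ∃ k, δ ∈ U i0 (φ k).1 then hh.choose else Classical.arbitrary K
  refine ⟨h, fun k hk => hi (φ k).1 ?_⟩
  refine Non.mono ?_ hk
  have hik : i (φ k).1 = i0 := (φ k).2.2
  rw [hik]
  intro δ hδ
  refine ⟨hδ.1, ?_⟩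
  have hh : ∃ k, δ ∈ U i0 (φ k).1 := ⟨k, hδ⟩
  have h2 : h δ = hh.choose := dif_pos hh
  rw [h2]
  have h3 := hh.choose_spec
  have h4 : (φ hh.choose).1 = (φ k).1 := by
    apply hf δ
    · exact h3.2.1
    · exact hδ.2.1
    · rw [h3.2.2, hδ.2.2]
  exact φ.injective (Subtype.ext h4)

/-- state of the scanning process along the walk: record weight, best value, best ordinal -/
abbrev St : Type := Om × ℕ × Th

open Classical in
/-- update of the state -/
noncomputable def upd (e : Om → Om → ℕ) (s : St) (τ : Th) (w : Om) : St :=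
  if s.1 < w then (if s.2.1 < e s.1 w then (w, e s.1 w, τ) else (w, s.2.1, s.2.2)) else s

section scan

variable (C : Th → Set Th) (f : Th → Th → Om) (e : Om → Om → ℕ)

open Classical in
/-- recursion step of the scanning process -/
noncomputable def scF (β : Th) (ih : ∀ γ, γ < β → St → Th → St) (s : St) (α : Th) : St :=
  if h : α < β ∧ nx C β α < β then ih (nx C β α) h.2 (upd e s β (f β (nx C β α))) α else s

/-- the scanning process -/
noncomputable def sc : Th → St → Th → St := (wellFounded_lt (α := Th)).fix (scF C f e)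

lemma sc_unfold (β : Th) (s : St) (α : Th) :
    sc C f e β s α = scF C f e β (fun γ _ => sc C f e γ) s α := by
  unfold sc
  rw [WellFounded.fix_eq]

lemma sc_of_not_lt {β : Th} {s : St} {α : Th} (h : ¬ α < β) : sc C f e β s α = s := by
  rw [sc_unfold, scF, dif_neg (fun h' => h h'.1)]

variable {C} (hC : IsC C)

include hC

lemma sc_of_lt {β : Th} {s : St} {α : Th} (h : α < β) :
    sc C f e β s α = sc C f e (nx C β α) (upd e s β (f β (nx C β α))) α := by
  rw [sc_unfold, scF, dif_pos ⟨h, nx_lt hC h⟩]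

omit hC in
lemma upd_fst (s : St) (τ : Th) (w : Om) : (upd e s τ w).1 = max s.1 w := by
  unfold upd
  split_ifs with h1 h2
  · exact (max_eq_right h1.le).symm
  · exact (max_eq_right h1.le).symm
  · exact (max_eq_left (not_lt.1 h1)).symm

omit hC in
lemma le_upd (s : St) (τ : Th) (w : Om) : s.2.1 ≤ (upd e s τ w).2.1 := by
  unfold upd
  split_ifs with h1 h2
  · exact h2.le
  · exact le_rfl
  · exact le_rfl

lemma le_sc_fst (β : Th) : ∀ (s : St) (α : Th), s.1 ≤ (sc C f e β s α).1 := by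
  induction β using WellFoundedLT.induction with
  | ind β ih =>
    intro s α
    by_cases h : α < β
    · rw [sc_of_lt f e hC h]
      refine le_trans ?_ (ih _ (nx_lt hC h) _ _)
      rw [upd_fst]
      exact le_max_left _ _
    · rw [sc_of_not_lt C f e h]

lemma le_sc_snd (β : Th) : ∀ (s : St) (α : Th), s.2.1 ≤ (sc C f e β s α).2.1 := by
  induction β using WellFoundedLT.induction with
  | ind β ih =>
    intro s α
    by_cases h : α < β
    · rw [sc_of_lt f e hC h]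
      exact (le_upd e s β _).trans (ih _ (nx_lt hC h) _ _)
    · rw [sc_of_not_lt C f e h]

/-- fineness -/
lemma fine (hf : ∀ δ, InjOn (f δ) (Iio δ)) (w : Om) (β : Th) : ∀ s : St,
    {δ | δ < β ∧ (sc C f e β s δ).1 ≤ w}.Countable := by
  induction β using WellFoundedLT.induction with
  | ind β ih =>
    intro s
    have hG : {γ | γ < β ∧ f β γ ≤ w}.Countable := by
      have h1 : InjOn (f β) {γ | γ < β ∧ f β γ ≤ w} := (hf β).mono fun γ hγ => hγ.1
      refine Set.countable_of_injective_of_countable_image h1 ((countable_Iic_Om w).mono ?_)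
      rintro _ ⟨γ, hγ, rfl⟩
      exact hγ.2
    have hsub : {δ | δ < β ∧ (sc C f e β s δ).1 ≤ w} ⊆
        ⋃ γ ∈ {γ | γ < β ∧ f β γ ≤ w},
          ({γ} ∪ {δ | δ < γ ∧ (sc C f e γ (upd e s β (f β γ)) δ).1 ≤ w}) := by
      rintro δ ⟨hδ, hle⟩
      rw [sc_of_lt f e hC hδ] at hle
      have h1 := le_sc_fst f e hC (nx C β δ) (upd e s β (f β (nx C β δ))) δ
      have h2 : f β (nx C β δ) ≤ w := by
        refine le_trans ?_ (h1.trans hle)
        rw [upd_fst]
        exact le_max_right _ _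
      refine mem_biUnion (x := nx C β δ) ⟨nx_lt hC hδ, h2⟩ ?_
      rcases (le_nx hC hδ).lt_or_eq with h | h
      · exact Or.inr ⟨h, hle⟩
      · exact Or.inl h
    refine Countable.mono hsub (hG.biUnion fun γ hγ => ?_)
    exact (countable_singleton γ).union (ih γ hγ.1 _)

/-- walks pass through points of cofinality `ω₁` -/
lemma passing {δ : Th} (hδ : δ ∈ SS) (β : Th) : δ ≤ β → ∃ lam, lam < δ ∧
    ∀ α, lam < α → α ≤ δ → ∀ s : St, sc C f e β s α = sc C f e δ (sc C f e β s δ) α := by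
  induction β using WellFoundedLT.induction with
  | ind β ih =>
    intro hle
    rcases hle.lt_or_eq with h | h
    · obtain ⟨l1, hl1, h1⟩ := bdd_below hC hδ h
      obtain ⟨l2, hl2, h2⟩ := ih _ (nx_lt hC h) (le_nx hC h)
      refine ⟨max l1 l2, max_lt hl1 hl2, fun α hα hαδ s => ?_⟩
      have hαβ : α < β := hαδ.trans_lt h
      have hn : nx C β α = nx C β δ := by
        apply le_antisymm
        · exact nx_le hC hαβ (nx_mem hC h) (hαδ.trans (le_nx hC h))
        · apply nx_le hC h (nx_mem hC hαβ)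
          by_contra hcon
          have h3 := h1 _ (nx_mem hC hαβ) (not_le.1 hcon)
          exact absurd ((le_max_left l1 l2).trans_lt hα) (not_lt.2 ((le_nx hC hαβ).trans h3))
      rw [sc_of_lt f e hC hαβ, sc_of_lt f e hC h, hn]
      exact h2 α ((le_max_right _ _).trans_lt hα) hαδ _
    · subst h
      obtain ⟨ε, hε⟩ := SS.exists_lt hδ
      refine ⟨ε, hε, fun α _ _ s => ?_⟩
      rw [sc_of_not_lt C f e (lt_irrefl δ) (s := s)]

lemma tail_aux (β : Th) : ∀ (r : Om) (E E' : ℕ) (D D' : Th) (α : Th), E' ≤ E →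
    (sc C f e β (r, E', D') α).2.1 ≤ E → (sc C f e β (r, E, D) α).2 = (E, D) := by
  induction β using WellFoundedLT.induction with
  | ind β ih =>
    intro r E E' D D' α hE hle
    by_cases h : α < β
    · rw [sc_of_lt f e hC h] at hle ⊢
      set w := f β (nx C β α)
      unfold upd at hle ⊢
      dsimp only at hle ⊢
      by_cases h1 : r < w
      · rw [if_pos h1] at hle ⊢
        by_cases h2 : E' < e r w
        · rw [if_pos h2] at hle
          have h3 := (le_sc_snd f e hC (nx C β α) (w, e r w, β) α).trans hle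
          have h3 : e r w ≤ E := h3
          rw [if_neg (not_lt.2 h3)]
          exact ih _ (nx_lt hC h) w E (e r w) D β α h3 hle
        · rw [if_neg h2] at hle
          rw [if_neg (not_lt.2 ((not_lt.1 h2).trans hE))]
          exact ih _ (nx_lt hC h) w E E' D D' α hE hle
      · rw [if_neg h1] at hle ⊢
        exact ih _ (nx_lt hC h) r E E' D D' α hE hle
    · rw [sc_of_not_lt C f e h]

end scan

/-- The strong colouring theorem: there is a colouring of pairs from `ω₂` with `ℵ₁` colours such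
that for any family of `ℵ₂` finite sets going to infinity and any colour `k` there are two of them,
one above the other, such that all cross pairs have colour `k`. -/
theorem exists_pr1 (K : Type) [Nonempty K] (hK : Cardinal.mk K ≤ Cardinal.aleph 1) :
    ∃ c : Th → Th → K, ∀ a : Th → Finset Th, (∀ ξ, ∀ x ∈ a ξ, ξ ≤ x) → ∀ k : K,
      ∃ ξ η, (∀ x ∈ a ξ, x < η) ∧ ∀ x ∈ a ξ, ∀ y ∈ a η, c x y = k := by
  classical
  obtain ⟨C, hC, hguess⟩ := exists_guess
  obtain ⟨h, hh⟩ := exists_split hC hguess K hK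
  obtain ⟨f, hf⟩ := exists_inj_Om
  obtain ⟨e, he⟩ := exists_inj_nat
  let r0 : Om := Classical.arbitrary Om
  let s0 : Th → St := fun β => (r0, 0, β)
  let T : Th → Th → St := fun β α => sc C f e β (s0 β) α
  refine ⟨fun α β => h (T β α).2.2, fun a ha k => ?_⟩
  -- the bounding function
  have hmax : ∀ ξ, ∃ b, ξ ≤ b ∧ ∀ x ∈ a ξ, x ≤ b := by
    intro ξ
    obtain ⟨b, hb⟩ := (Small.of_countable ((a ξ : Set Th).toFinite.countable)).bdd
    exact ⟨max ξ b, le_max_left _ _, fun x hx => (hb x hx).le.trans (le_max_right _ _)⟩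
  choose g hg1 hg2 using hmax
  -- bad points
  have hbad : ∀ i : Om, Small {δ | ∀ ξ, δ < ξ → ∃ β ∈ a ξ, (T β δ).1 ≤ i} := by
    intro i
    by_contra hns
    unfold Small at hns
    rw [not_le] at hns
    obtain ⟨B, hB1, hB2⟩ := Cardinal.le_mk_iff_exists_subset.1 hns.le
    have hBs : Small B := hB2.le
    obtain ⟨ξ, hξ⟩ := hBs.bdd
    have hsub : B ⊆ ⋃ β ∈ a ξ, {δ | δ < β ∧ (sc C f e β (s0 β) δ).1 ≤ i} := by
      intro δ hδ
      obtain ⟨β, hβ, hle⟩ := hB1 hδ ξ (hξ δ hδ)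
      exact mem_biUnion (x := β) hβ ⟨(hξ δ hδ).trans_le (ha ξ β hβ), hle⟩
    have hcount : B.Countable := by
      refine Countable.mono hsub ?_
      exact (a ξ).countable_toSet.biUnion fun β _ => fine f e hC hf i β (s0 β)
    have := Cardinal.le_aleph0_iff_set_countable.2 hcount
    rw [hB2] at this
    exact absurd this (not_le.2 Cardinal.aleph0_lt_aleph_one)
  have hbad' : Small (⋃ i : Om, {δ | ∀ ξ, δ < ξ → ∃ β ∈ a ξ, (T β δ).1 ≤ i}) :=
    Small.iUnion (le_of_eq mk_Om) hbad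
  obtain ⟨b0, hb0⟩ := hbad'.bdd
  have hup : ∀ δ, b0 ≤ δ → ∀ i : Om, ∃ ξ, δ < ξ ∧ ∀ β ∈ a ξ, i < (T β δ).1 := by
    intro δ hδ i
    by_contra hcon
    push Not at hcon
    exact absurd (hb0 δ (mem_iUnion.2 ⟨i, hcon⟩)) (not_lt.2 hδ)
  -- the guessing point
  obtain ⟨δ, hδ⟩ : ∃ δ, δ ∈ SS ∧ h δ = k ∧ ∀ ε, ε < δ → ∃ ζ, ε < ζ ∧ ζ < δ ∧
      max (g ζ) b0 ≤ nx C δ ζ := by
    by_contra hcon
    push Not at hcon
    apply hh k
    refine ⟨fun ζ => max (g ζ) b0, fun δ hδ => ?_⟩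
    obtain ⟨ε, hε, h2⟩ := hcon δ hδ.1 hδ.2
    exact ⟨ε, hε, fun ζ h3 h4 => h2 ζ h3 h4⟩
  obtain ⟨hδS, hδk, hδg⟩ := hδ
  obtain ⟨ε00, hε00⟩ := SS.exists_lt hδS
  have hb0δ : b0 ≤ δ := by
    obtain ⟨ζ, h1, h2, h3⟩ := hδg ε00 hε00
    exact ((le_max_right _ _).trans h3).trans (nx_lt hC h2).le
  -- upper blocks
  choose X hX1 hX2 using hup δ hb0δ
  have hlam : ∀ i : Om, ∃ lam, lam < δ ∧ ∀ β ∈ a (X i), ∀ α, lam < α → α ≤ δ →
      ∀ s : St, sc C f e β s α = sc C f e δ (sc C f e β s δ) α := by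
    intro i
    have h1 : ∀ β, ∃ lam, β ∈ a (X i) → lam < δ ∧ ∀ α, lam < α → α ≤ δ →
        ∀ s : St, sc C f e β s α = sc C f e δ (sc C f e β s δ) α := by
      intro β
      by_cases hβ : β ∈ a (X i)
      · obtain ⟨lam, hl⟩ := passing f e hC hδS β ((hX1 i).le.trans (ha _ β hβ))
        exact ⟨lam, fun _ => hl⟩
      · exact ⟨β, fun h => absurd h hβ⟩
    choose lam hl using h1
    obtain ⟨ε, hε, h2⟩ := hδS.2 (lam '' (a (X i) : Set Th))
      (((a (X i)).countable_toSet).image _) (by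
        rintro _ ⟨β, hβ, rfl⟩
        exact (hl β hβ).1)
    refine ⟨ε, hε, fun β hβ α h3 h4 s => ?_⟩
    exact (hl β hβ).2 α ((h2 _ ⟨β, hβ, rfl⟩).trans_lt h3) h4 s
  choose lam hlam1 hlam2 using hlam
  -- pigeonhole for the upper blocks
  obtain ⟨N0, hN0⟩ : ∃ N : ℕ, ¬ {i : Om | ∀ β ∈ a (X i), (T β δ).2.1 ≤ N}.Countable := by
    by_contra hcon
    push Not at hcon
    have : (univ : Set Om) ⊆ ⋃ N : ℕ, {i : Om | ∀ β ∈ a (X i), (T β δ).2.1 ≤ N} := by
      intro i _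
      refine mem_iUnion.2 ⟨(a (X i)).sup fun β => (T β δ).2.1, fun β hβ => ?_⟩
      exact Finset.le_sup (f := fun β => (T β δ).2.1) hβ
    exact not_countable_univ ((countable_iUnion hcon).mono this)
  -- lower blocks
  let w : Th → Om := fun ζ => f δ (nx C δ ζ)
  let Z : ℕ → Set Th := fun N => {ζ | ζ < δ ∧ g ζ ≤ nx C δ ζ ∧
    ∀ α ∈ a ζ, (sc C f e (nx C δ ζ) (w ζ, 0, δ) α).2.1 ≤ N}
  obtain ⟨N1, hN1⟩ : ∃ N : ℕ, ∀ ε, ε < δ → ∃ ζ ∈ Z N, ε < ζ := by
    by_contra hcon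
    push Not at hcon
    choose ε hε1 hε2 using hcon
    obtain ⟨ε', hε', h1⟩ := hδS.2 (range ε) (countable_range ε) (by
      rintro _ ⟨n, rfl⟩
      exact hε1 n)
    obtain ⟨ζ, h2, h3, h4⟩ := hδg ε' hε'
    have h5 : ζ ∈ Z ((a ζ).sup fun α => (sc C f e (nx C δ ζ) (w ζ, 0, δ) α).2.1) := by
      refine ⟨h3, (le_max_left _ _).trans h4, fun α hα => ?_⟩
      exact Finset.le_sup (f := fun α => (sc C f e (nx C δ ζ) (w ζ, 0, δ) α).2.1) hα
    exact absurd (h2.trans_le (hε2 _ ζ h5)) (not_lt.2 (h1 _ (mem_range_self _)))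
  -- sequence of upper blocks with disjoint sets of records
  let R : Om → Set Om := fun i => (fun β => (T β δ).1) '' (a (X i) : Set Th)
  have hRc : ∀ i, (R i).Countable := fun i => ((a (X i)).countable_toSet).image _
  have hRgt : ∀ i, ∀ x ∈ R i, i < x := by
    rintro i _ ⟨β, hβ, rfl⟩
    exact hX2 i β hβ
  have hI : ∀ b : Om, ∃ i, b < i ∧ ∀ β ∈ a (X i), (T β δ).2.1 ≤ N0 := by
    intro b
    by_contra hcon
    push Not at hcon
    apply hN0
    refine (countable_Iic_Om b).mono fun i hi => ?_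
    by_contra hlt
    obtain ⟨β, hβ, h1⟩ := hcon i (not_le.1 hlt)
    exact absurd (hi β hβ) (not_le.2 h1)
  choose J hJ1 hJ2 using hI
  have hB : ∀ i : Om, ∃ b, i < b ∧ ∀ x ∈ R i, x < b := by
    intro i
    obtain ⟨b, hb⟩ := bdd_Om ((hRc i).insert i)
    exact ⟨b, hb i (mem_insert _ _), fun x hx => hb x (mem_insert_of_mem _ hx)⟩
  choose Bd hBd1 hBd2 using hB
  let I : ℕ → Om := fun n => Nat.rec (J r0) (fun _ x => J (Bd x)) n
  have hI0 : I 0 = J r0 := rfl
  have hIs : ∀ n, I (n + 1) = J (Bd (I n)) := fun n => rfl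
  have hIgood : ∀ n, ∀ β ∈ a (X (I n)), (T β δ).2.1 ≤ N0 := by
    intro n
    cases n with
    | zero => exact hJ2 _
    | succ n => exact hJ2 _
  have hIlt : ∀ n, Bd (I n) < I (n + 1) := fun n => by rw [hIs]; exact hJ1 _
  have hImono : StrictMono I := strictMono_nat_of_lt_succ fun n => (hBd1 _).trans (hIlt n)
  have hRdisj : ∀ m n, m < n → ∀ x ∈ R (I m), ∀ y ∈ R (I n), x < y := by
    intro m n hmn x hx y hy
    calc x < Bd (I m) := hBd2 _ x hx
      _ < I (m + 1) := hIlt m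
      _ ≤ I n := hImono.monotone hmn
      _ < y := hRgt _ y hy
  -- bounds
  obtain ⟨lam', hlam', hlamle⟩ := hδS.2 (range fun n => lam (I n)) (countable_range _) (by
    rintro _ ⟨n, rfl⟩
    exact hlam1 _)
  obtain ⟨rr, hrr⟩ := bdd_Om (countable_iUnion fun n => hRc (I n))
  have hG : {γ | γ < δ ∧ f δ γ ≤ rr}.Countable := by
    have h1 : InjOn (f δ) {γ | γ < δ ∧ f δ γ ≤ rr} := (hf δ).mono fun γ hγ => hγ.1
    refine Set.countable_of_injective_of_countable_image h1 ((countable_Iic_Om rr).mono ?_)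
    rintro _ ⟨γ, hγ, rfl⟩
    exact hγ.2
  obtain ⟨ε1, hε1, hε1le⟩ := hδS.2 _ hG fun γ hγ => hγ.1
  obtain ⟨ζ, hζZ, hζ⟩ := hN1 (max lam' ε1) (max_lt hlam' hε1)
  obtain ⟨hζδ, hζg, hζN⟩ := hζZ
  have hwbig : rr < w ζ := by
    by_contra hcon
    have h1 := hε1le (nx C δ ζ) ⟨nx_lt hC hζδ, not_lt.1 hcon⟩
    exact absurd ((le_max_right lam' ε1).trans_lt hζ) (not_lt.2 ((le_nx hC hζδ).trans h1))
  -- choose the upper block
  obtain ⟨n, hn⟩ : ∃ n, ∀ x ∈ R (I n), max N0 N1 < e x (w ζ) := by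
    by_contra hcon
    push Not at hcon
    choose x hx1 hx2 using hcon
    have hxinj : Function.Injective x := by
      intro m n hmn
      rcases lt_trichotomy m n with h1 | h1 | h1
      · exact absurd hmn (hRdisj m n h1 _ (hx1 m) _ (hx1 n)).ne
      · exact h1
      · exact absurd hmn.symm (hRdisj n m h1 _ (hx1 n) _ (hx1 m)).ne
    have hxw : ∀ n, x n < w ζ := fun n => (hrr _ (mem_iUnion.2 ⟨n, hx1 n⟩)).trans hwbig
    have hcomp : Function.Injective fun n => e (x n) (w ζ) := by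
      intro m n hmn
      exact hxinj (he (w ζ) (hxw m) (hxw n) hmn)
    have hfin : (range fun n => e (x n) (w ζ)).Finite :=
      (Set.finite_Iic (max N0 N1)).subset (by rintro _ ⟨n, rfl⟩; exact hx2 n)
    exact (infinite_range_of_injective hcomp) hfin
  refine ⟨ζ, X (I n), fun x hx => ?_, fun x hx y hy => ?_⟩
  · exact ((hg2 ζ x hx).trans hζg).trans_lt ((nx_lt hC hζδ).trans (hX1 _))
  · have hxδ : x < δ := ((hg2 ζ x hx).trans hζg).trans_lt (nx_lt hC hζδ)
    have hlx : lam (I n) < x :=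
      (hlamle _ (mem_range_self n)).trans_lt
        (((le_max_left lam' ε1).trans_lt hζ).trans_le (ha ζ x hx))
    have h1 : T y x = sc C f e δ (T y δ) x := hlam2 (I n) y hy x hlx hxδ.le (s0 y)
    have h2 : nx C δ x = nx C δ ζ := nx_eq hC hζδ (ha ζ x hx) ((hg2 ζ x hx).trans hζg)
    have hrR : (T y δ).1 ∈ R (I n) := ⟨y, hy, rfl⟩
    have hr1 : (T y δ).1 < w ζ := (hrr _ (mem_iUnion.2 ⟨n, hrR⟩)).trans hwbig
    have hr2 : (T y δ).2.1 < e (T y δ).1 (w ζ) :=
      ((hIgood n y hy).trans (le_max_left N0 N1)).trans_lt (hn _ hrR)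
    have h3 : upd e (T y δ) δ (w ζ) = (w ζ, e (T y δ).1 (w ζ), δ) := by
      unfold upd
      rw [if_pos hr1, if_pos hr2]
    have h4 : T y x = sc C f e (nx C δ ζ) (w ζ, e (T y δ).1 (w ζ), δ) x := by
      rw [h1, sc_of_lt f e hC hxδ, h2]
      exact congrArg (fun s => sc C f e (nx C δ ζ) s x) h3
    have h5 := tail_aux f e hC (nx C δ ζ) (w ζ) (e (T y δ).1 (w ζ)) 0 δ δ x (Nat.zero_le _)
      ((hζN x hx).trans ((le_max_right N0 N1).trans (hn _ hrR).le))
    show h (T y x).2.2 = k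
    rw [h4, h5]
    exact hδk

lemma mk_Finset_Om : Cardinal.mk (Finset Om) ≤ Cardinal.aleph 1 := by
  haveI : Infinite Om := by
    rw [Cardinal.infinite_iff, mk_Om]
    exact aleph0_le_aleph1
  rw [Cardinal.mk_finset_of_infinite, mk_Om]

lemma mk_pi_fin (n : ℕ) (A : Type) (hA : Cardinal.mk A ≤ Cardinal.aleph 1) :
    Cardinal.mk (Fin n → A) ≤ Cardinal.aleph 1 := by
  rw [← Cardinal.power_def, Cardinal.mk_fin]
  calc Cardinal.mk A ^ (n : Cardinal) ≤ (Cardinal.aleph 1) ^ (n : Cardinal) :=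
        Cardinal.power_le_power_right hA
    _ ≤ Cardinal.aleph 1 := Cardinal.power_nat_le aleph0_le_aleph1

lemma mk_prod_le (A B : Type) (hA : Cardinal.mk A ≤ Cardinal.aleph 1)
    (hB : Cardinal.mk B ≤ Cardinal.aleph 1) : Cardinal.mk (A × B) ≤ Cardinal.aleph 1 := by
  rw [Cardinal.mk_prod, Cardinal.lift_id, Cardinal.lift_id]
  calc Cardinal.mk A * Cardinal.mk B ≤ Cardinal.aleph 1 * Cardinal.aleph 1 := mul_le_mul' hA hB
    _ = Cardinal.aleph 1 := Cardinal.mul_eq_self aleph0_le_aleph1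

/-- codes -/
abbrev Code (Q : Type) : Type :=
  Σ n : ℕ, Finset Om × (Fin n → Finset Om) × (Fin n → Fin n → Q)

lemma mk_Code (Q : Type) [Countable Q] : Cardinal.mk (Code Q) ≤ Cardinal.aleph 1 := by
  have hQ : Cardinal.mk Q ≤ Cardinal.aleph 1 := (Cardinal.mk_le_aleph0).trans aleph0_le_aleph1
  rw [Cardinal.mk_sigma]
  refine (Cardinal.sum_le_mk_mul_iSup _).trans ?_
  calc _ ≤ Cardinal.aleph 1 * Cardinal.aleph 1 := by
        apply mul_le_mul'
        · exact (Cardinal.mk_le_aleph0).trans aleph0_le_aleph1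
        · apply ciSup_le'
          intro n
          exact mk_prod_le _ _ mk_Finset_Om (mk_prod_le _ _ (mk_pi_fin n _ mk_Finset_Om)
            (mk_pi_fin n _ (mk_pi_fin n _ hQ)))
    _ = Cardinal.aleph 1 := Cardinal.mul_eq_self aleph0_le_aleph1

lemma exists_inj_set : ∃ E : Th → Set Om, Function.Injective E := by
  have : Cardinal.mk Th ≤ Cardinal.mk (Set Om) := by
    rw [Cardinal.mk_set, mk_Th, mk_Om, aleph2_eq]
    exact Order.succ_le_of_lt (Cardinal.cantor _)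
  obtain ⟨φ⟩ := this
  exact ⟨φ, φ.injective⟩

open Classical in
/-- trace of a set on a finite set -/
noncomputable def tr (u : Finset Om) (A : Set Om) : Finset Om := u.filter (· ∈ A)

open Classical in
/-- reading a code -/
noncomputable def look {Q : Type} [Nonempty Q] (E : Th → Set Om) (κ : Code Q) (α β : Th) : Q :=
  if h : ∃ p : Fin κ.1 × Fin κ.1, tr κ.2.1 (E α) = κ.2.2.1 p.2 ∧ tr κ.2.1 (E β) = κ.2.2.1 p.1
    then κ.2.2.2 h.choose.1 h.choose.2 else Classical.arbitrary Q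

lemma look_eq {Q : Type} [Nonempty Q] (E : Th → Set Om) (n : ℕ) (u : Finset Om)
    (σ : Fin n → Finset Om) (M : Fin n → Fin n → Q) (hσ : Function.Injective σ) (α β : Th)
    (k l : Fin n) (hα : tr u (E α) = σ l) (hβ : tr u (E β) = σ k) :
    look E (⟨n, u, σ, M⟩ : Code Q) α β = M k l := by
  have h : ∃ p : Fin n × Fin n, tr u (E α) = σ p.2 ∧ tr u (E β) = σ p.1 := ⟨(k, l), hα, hβ⟩
  have h1 : look E (⟨n, u, σ, M⟩ : Code Q) α β = M h.choose.1 h.choose.2 := dif_pos h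
  rw [h1]
  have h2 := h.choose_spec
  have h3 : h.choose.2 = l := hσ (h2.1.symm.trans hα)
  have h4 : h.choose.1 = k := hσ (h2.2.symm.trans hβ)
  rw [h3, h4]

/-- matrix form of the strong colouring theorem, with roots -/
theorem exists_pr0 (Q : Type) [Countable Q] [Nonempty Q] :
    ∃ c : Th → Th → Q, ∀ (n : ℕ) (a : Th → Fin n → Th) (τ : Th → ℕ),
      (∀ ξ, StrictMono (a ξ)) → (∀ ξ, ∃ k, ξ ≤ a ξ k) →
      ∃ n0 t : ℕ, n0 < n ∧ ∀ M : Fin n → Fin n → Q, ∃ ξ η, τ ξ = t ∧ τ η = t ∧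
        (∀ k : Fin n, k.1 < n0 → a ξ k = a η k) ∧
        ∀ k l : Fin n, n0 ≤ k.1 → n0 ≤ l.1 → a ξ l < a η k ∧ c (a ξ l) (a η k) = M k l := by
  classical
  obtain ⟨c1, hc1⟩ := exists_pr1 (Code Q) (mk_Code Q)
  obtain ⟨E, hE⟩ := exists_inj_set
  refine ⟨fun α β => look E (c1 α β) α β, fun n a τ ha hunb => ?_⟩
  -- the root
  let P : ℕ → Prop := fun m => ∃ L : Set Th, ¬ Small L ∧
    ∀ ξ ∈ L, ∀ ξ' ∈ L, ∀ k : Fin n, k.1 < m → a ξ k = a ξ' k
  have hP0 : P 0 := ⟨univ, not_small_univ_Th, fun _ _ _ _ k hk => absurd hk (Nat.not_lt_zero _)⟩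
  have hPn : ∀ m, P m → m < n := by
    rintro m ⟨L, hL, hconst⟩
    by_contra hmn
    obtain ⟨ξ, hξ⟩ : L.Nonempty := by
      rw [Set.nonempty_iff_ne_empty]
      rintro rfl
      exact hL (Small.of_countable countable_empty)
    obtain ⟨b, hb⟩ := (Small.of_countable (countable_range (a ξ))).bdd
    obtain ⟨ξ', hξ', hlt⟩ := exists_above hL b
    obtain ⟨k, hk⟩ := hunb ξ'
    have h1 := hconst ξ hξ ξ' hξ' k (k.2.trans_le (not_lt.1 hmn))
    rw [← h1] at hk
    exact absurd (hlt.trans_le hk) (not_lt.2 (hb _ (mem_range_self k)).le)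
  obtain ⟨m, hm, hm'⟩ : ∃ m, P m ∧ ¬ P (m + 1) := by
    by_contra hcon
    push Not at hcon
    have : ∀ m, P m := fun m => Nat.rec hP0 (fun m hm => hcon m hm) m
    exact absurd (hPn n (this n)) (lt_irrefl _)
  have hmn := hPn m hm
  obtain ⟨L, hL, hconst⟩ := hm
  obtain ⟨t, ht⟩ := pigeon (ι := ℕ) (by simpa using aleph0_le_aleph1) hL τ
  have hpt : ∀ γ : Th, ∃ ξ, ξ ∈ L ∧ τ ξ = t ∧ γ < a ξ ⟨m, hmn⟩ := by
    intro γ
    by_contra hcon
    push Not at hcon
    apply hm'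
    obtain ⟨⟨v, hv⟩, hns⟩ := pigeon (ι := Iic γ) (small_Iic γ) ht
      (fun ξ => if h : a ξ ⟨m, hmn⟩ ≤ γ then ⟨a ξ ⟨m, hmn⟩, h⟩ else ⟨γ, mem_Iic.2 le_rfl⟩)
    refine ⟨_, hns, ?_⟩
    rintro ξ ⟨⟨hξL, hξt⟩, hξ⟩ ξ' ⟨⟨hξL', hξt'⟩, hξ'⟩ k hk
    rcases Nat.lt_succ_iff_lt_or_eq.1 hk with h | h
    · exact hconst ξ hξL ξ' hξL' k h
    · have hk' : k = ⟨m, hmn⟩ := Fin.ext h
      subst hk'
      rw [dif_pos (hcon ξ hξL hξt)] at hξ
      rw [dif_pos (hcon ξ' hξL' hξt')] at hξ'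
      exact congrArg Subtype.val (hξ.trans hξ'.symm)
  choose φ hφL hφt hφ using hpt
  -- separating sets
  have hsep : ∀ γ : Th, ∃ u : Finset Om, Function.Injective fun k => tr u (E (a (φ γ) k)) := by
    intro γ
    have h1 : ∀ p : Fin n × Fin n, ∃ x : Om, p.1 ≠ p.2 →
        ¬ (x ∈ E (a (φ γ) p.1) ↔ x ∈ E (a (φ γ) p.2)) := by
      intro p
      by_cases hp : p.1 = p.2
      · exact ⟨Classical.arbitrary Om, fun h => absurd hp h⟩
      · have : E (a (φ γ) p.1) ≠ E (a (φ γ) p.2) := fun h => hp ((ha (φ γ)).injective (hE h))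
        by_contra hcon
        push Not at hcon
        apply this
        ext x
        exact (hcon x).2
    choose x hx using h1
    refine ⟨Finset.univ.image x, fun k l hkl => ?_⟩
    by_contra hne
    have h2 := hx (k, l) hne
    apply h2
    have h3 : x (k, l) ∈ Finset.univ.image x := Finset.mem_image_of_mem x (Finset.mem_univ _)
    constructor
    · intro h4
      have h5 : x (k, l) ∈ tr (Finset.univ.image x) (E (a (φ γ) k)) :=
        Finset.mem_filter.2 ⟨h3, h4⟩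
      have hkl' : tr (Finset.univ.image x) (E (a (φ γ) k)) =
        tr (Finset.univ.image x) (E (a (φ γ) l)) := hkl
      rw [hkl'] at h5
      exact (Finset.mem_filter.1 h5).2
    · intro h4
      have h5 : x (k, l) ∈ tr (Finset.univ.image x) (E (a (φ γ) l)) :=
        Finset.mem_filter.2 ⟨h3, h4⟩
      have hkl' : tr (Finset.univ.image x) (E (a (φ γ) k)) =
        tr (Finset.univ.image x) (E (a (φ γ) l)) := hkl
      rw [← hkl'] at h5
      exact (Finset.mem_filter.1 h5).2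
  choose u hu using hsep
  obtain ⟨⟨u0, σ⟩, hns⟩ := pigeon (ι := Finset Om × (Fin n → Finset Om))
    (mk_prod_le _ _ mk_Finset_Om (mk_pi_fin n _ mk_Finset_Om)) not_small_univ_Th
    (fun γ => (u γ, fun k => tr (u γ) (E (a (φ γ) k))))
  have hψ : ∀ γ : Th, ∃ γ', γ < γ' ∧ u γ' = u0 ∧ ∀ k, tr u0 (E (a (φ γ') k)) = σ k := by
    intro γ
    obtain ⟨γ', ⟨-, h1⟩, h2⟩ := exists_above hns γ
    have h3 : u γ' = u0 := congrArg Prod.fst h1
    have h4 : (fun k => tr (u γ') (E (a (φ γ') k))) = σ := congrArg Prod.snd h1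
    rw [h3] at h4
    exact ⟨γ', h2, h3, fun k => congrFun h4 k⟩
  choose ψ hψ1 hψ2 hψ3 using hψ
  have hσ : Function.Injective σ := by
    have γ : Th := Classical.arbitrary Th
    have h1 := hu (ψ γ)
    rw [hψ2 γ] at h1
    intro k l hkl
    apply h1
    show tr u0 (E (a (φ (ψ γ)) k)) = tr u0 (E (a (φ (ψ γ)) l))
    rw [hψ3, hψ3, hkl]
  refine ⟨m, t, hmn, fun M => ?_⟩
  obtain ⟨γ, γ', h1, h2⟩ := hc1
    (fun γ => (Finset.univ.filter fun k : Fin n => m ≤ k.1).image (a (φ (ψ γ)))) (by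
      intro γ x hx
      obtain ⟨k, hk, rfl⟩ := Finset.mem_image.1 hx
      have hk := (Finset.mem_filter.1 hk).2
      have h3 : a (φ (ψ γ)) ⟨m, hmn⟩ ≤ a (φ (ψ γ)) k := (ha _).monotone hk
      exact ((hψ1 γ).trans ((hφ (ψ γ)).trans_le h3)).le) ⟨n, u0, σ, M⟩
  have hmem : ∀ (γ : Th) (k : Fin n), m ≤ k.1 → a (φ (ψ γ)) k ∈
      (Finset.univ.filter fun k : Fin n => m ≤ k.1).image (a (φ (ψ γ))) := fun γ k hk =>
    Finset.mem_image_of_mem _ (Finset.mem_filter.2 ⟨Finset.mem_univ _, hk⟩)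
  refine ⟨φ (ψ γ), φ (ψ γ'), hφt _, hφt _, fun k hk => hconst _ (hφL _) _ (hφL _) k hk,
    fun k l hk hl => ⟨?_, ?_⟩⟩
  · have h3 : a (φ (ψ γ')) ⟨m, hmn⟩ ≤ a (φ (ψ γ')) k := (ha _).monotone hk
    exact (h1 _ (hmem γ l hl)).trans ((hψ1 γ').trans ((hφ (ψ γ')).trans_le h3))
  · show look E (c1 _ _) _ _ = M k l
    rw [h2 _ (hmem γ l hl) _ (hmem γ' k hk)]
    exact look_eq E n u0 σ M hσ _ _ k l (hψ3 γ l) (hψ3 γ' k)

end Pool.Agent.Helper220.StrongColor
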