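import Mathlib
import Pool.Agent.Helper220.StrongColor

set_option autoImplicit false
set_option linter.all false

open Set

namespace Pool.Agent.Helper220.StrongColorB

open Pool.Agent.Helper220.StrongColor


/-- The strong colouring theorem, with avoidance of countable sets. -/
theorem exists_pr1J (K : Type) [Nonempty K] (hK : Cardinal.mk K ≤ Cardinal.aleph 1) :
    ∃ c : Th → Th → K, ∀ a : Th → Finset Th, (∀ ξ, ∀ x ∈ a ξ, ξ ≤ x) →
      ∀ J : Th → Set Th, (∀ α, (J α).Countable) → ∀ k : K,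
      ∃ ξ η, (∀ x ∈ a ξ, x < η) ∧ ∀ x ∈ a ξ, ∀ y ∈ a η, c x y = k ∧ x ∉ J y := by
  classical
  obtain ⟨C, hC, hguess⟩ := exists_guess
  obtain ⟨h, hh⟩ := exists_split hC hguess K hK
  obtain ⟨f, hf⟩ := exists_inj_Om
  obtain ⟨e, he⟩ := exists_inj_nat
  let r0 : Om := Classical.arbitrary Om
  let s0 : Th → St := fun β => (r0, 0, β)
  let T : Th → Th → St := fun β α => sc C f e β (s0 β) α
  refine ⟨fun α β => h (T β α).2.2, fun a ha JJ hJJ k => ?_⟩
  -- the bounding function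
  have hmax : ∀ ξ, ∃ b, ξ ≤ b ∧ ∀ x ∈ a ξ, x ≤ b := by
    intro ξ
    obtain ⟨b, hb⟩ := (StrongColor.Small.of_countable ((a ξ : Set Th).toFinite.countable)).bdd
    exact ⟨max ξ b, le_max_left _ _, fun x hx => (hb x hx).le.trans (le_max_right _ _)⟩
  choose g hg1 hg2 using hmax
  -- bad points
  have hbad : ∀ i : Om, StrongColor.Small {δ | ∀ ξ, δ < ξ → ∃ β ∈ a ξ, (T β δ).1 ≤ i} := by
    intro i
    by_contra hns
    unfold StrongColor.Small at hns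
    rw [not_le] at hns
    obtain ⟨B, hB1, hB2⟩ := Cardinal.le_mk_iff_exists_subset.1 hns.le
    have hBs : StrongColor.Small B := hB2.le
    obtain ⟨ξ, hξ⟩ := hBs.bdd
    have hsub : B ⊆ ⋃ β ∈ a ξ, {δ | δ < β ∧ (sc C f e β (s0 β) δ).1 ≤ i} := by
      intro δ hδ
      obtain ⟨β, hβ, hle⟩ := hB1 hδ ξ (hξ δ hδ)
      exact mem_biUnion (x := β) hβ ⟨(hξ δ hδ).trans_le (ha ξ β hβ), hle⟩
    have hcount : B.Countable := by
      refine Countable.mono hsub ?_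
      exact (a ξ).countable_toSet.biUnion fun β _ => fine f e hC hf i β (s0 β)
    have := Cardinal.le_aleph0_iff_set_countable.2 hcount
    rw [hB2] at this
    exact absurd this (not_le.2 Cardinal.aleph0_lt_aleph_one)
  have hbad' : StrongColor.Small (⋃ i : Om, {δ | ∀ ξ, δ < ξ → ∃ β ∈ a ξ, (T β δ).1 ≤ i}) :=
    StrongColor.Small.iUnion (le_of_eq mk_Om) hbad
  obtain ⟨b0, hb0⟩ := hbad'.bdd
  have hup : ∀ δ, b0 ≤ δ → ∀ i : Om, ∃ ξ, δ < ξ ∧ ∀ β ∈ a ξ, i < (T β δ).1 := by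
    intro δ hδ i
    by_contra hcon
    push Not at hcon
    exact absurd (hb0 δ (mem_iUnion.2 ⟨i, hcon⟩)) (not_lt.2 hδ)
  -- the guessing point
  obtain ⟨δ, hδ⟩ : ∃ δ, δ ∈ SS ∧ h δ = k ∧ ∀ ε, ε < δ → ∃ ζ, ε < ζ ∧ ζ < δ ∧
      max (g ζ) b0 ≤ nx C δ ζ := by
    by_contra hcon
    push Not at hcon
    apply hh k
    refine ⟨fun ζ => max (g ζ) b0, fun δ hδ => ?_⟩
    obtain ⟨ε, hε, h2⟩ := hcon δ hδ.1 hδ.2
    exact ⟨ε, hε, fun ζ h3 h4 => h2 ζ h3 h4⟩
  obtain ⟨hδS, hδk, hδg⟩ := hδ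
  obtain ⟨ε00, hε00⟩ := SS.exists_lt hδS
  have hb0δ : b0 ≤ δ := by
    obtain ⟨ζ, h1, h2, h3⟩ := hδg ε00 hε00
    exact ((le_max_right _ _).trans h3).trans (nx_lt hC h2).le
  -- upper blocks
  choose X hX1 hX2 using hup δ hb0δ
  have hlam : ∀ i : Om, ∃ lam, lam < δ ∧ ∀ β ∈ a (X i), ∀ α, lam < α → α ≤ δ →
      ∀ s : St, sc C f e β s α = sc C f e δ (sc C f e β s δ) α := by
    intro i
    have h1 : ∀ β, ∃ lam, β ∈ a (X i) → lam < δ ∧ ∀ α, lam < α → α ≤ δ →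
        ∀ s : St, sc C f e β s α = sc C f e δ (sc C f e β s δ) α := by
      intro β
      by_cases hβ : β ∈ a (X i)
      · obtain ⟨lam, hl⟩ := passing f e hC hδS β ((hX1 i).le.trans (ha _ β hβ))
        exact ⟨lam, fun _ => hl⟩
      · exact ⟨β, fun h => absurd h hβ⟩
    choose lam hl using h1
    obtain ⟨ε, hε, h2⟩ := hδS.2 (lam '' (a (X i) : Set Th))
      (((a (X i)).countable_toSet).image _) (by
        rintro _ ⟨β, hβ, rfl⟩
        exact (hl β hβ).1)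
    refine ⟨ε, hε, fun β hβ α h3 h4 s => ?_⟩
    exact (hl β hβ).2 α ((h2 _ ⟨β, hβ, rfl⟩).trans_lt h3) h4 s
  choose lam hlam1 hlam2 using hlam
  -- pigeonhole for the upper blocks
  obtain ⟨N0, hN0⟩ : ∃ N : ℕ, ¬ {i : Om | ∀ β ∈ a (X i), (T β δ).2.1 ≤ N}.Countable := by
    by_contra hcon
    push Not at hcon
    have : (univ : Set Om) ⊆ ⋃ N : ℕ, {i : Om | ∀ β ∈ a (X i), (T β δ).2.1 ≤ N} := by
      intro i _
      refine mem_iUnion.2 ⟨(a (X i)).sup fun β => (T β δ).2.1, fun β hβ => ?_⟩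
      exact Finset.le_sup (f := fun β => (T β δ).2.1) hβ
    exact not_countable_univ ((countable_iUnion hcon).mono this)
  -- lower blocks
  let w : Th → Om := fun ζ => f δ (nx C δ ζ)
  let Z : ℕ → Set Th := fun N => {ζ | ζ < δ ∧ g ζ ≤ nx C δ ζ ∧
    ∀ α ∈ a ζ, (sc C f e (nx C δ ζ) (w ζ, 0, δ) α).2.1 ≤ N}
  obtain ⟨N1, hN1⟩ : ∃ N : ℕ, ∀ ε, ε < δ → ∃ ζ ∈ Z N, ε < ζ := by
    by_contra hcon
    push Not at hcon
    choose ε hε1 hε2 using hcon
    obtain ⟨ε', hε', h1⟩ := hδS.2 (range ε) (countable_range ε) (by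
      rintro _ ⟨n, rfl⟩
      exact hε1 n)
    obtain ⟨ζ, h2, h3, h4⟩ := hδg ε' hε'
    have h5 : ζ ∈ Z ((a ζ).sup fun α => (sc C f e (nx C δ ζ) (w ζ, 0, δ) α).2.1) := by
      refine ⟨h3, (le_max_left _ _).trans h4, fun α hα => ?_⟩
      exact Finset.le_sup (f := fun α => (sc C f e (nx C δ ζ) (w ζ, 0, δ) α).2.1) hα
    exact absurd (h2.trans_le (hε2 _ ζ h5)) (not_lt.2 (h1 _ (mem_range_self _)))
  -- sequence of upper blocks with disjoint sets of records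
  let R : Om → Set Om := fun i => (fun β => (T β δ).1) '' (a (X i) : Set Th)
  have hRc : ∀ i, (R i).Countable := fun i => ((a (X i)).countable_toSet).image _
  have hRgt : ∀ i, ∀ x ∈ R i, i < x := by
    rintro i _ ⟨β, hβ, rfl⟩
    exact hX2 i β hβ
  have hI : ∀ b : Om, ∃ i, b < i ∧ ∀ β ∈ a (X i), (T β δ).2.1 ≤ N0 := by
    intro b
    by_contra hcon
    push Not at hcon
    apply hN0
    refine (countable_Iic_Om b).mono fun i hi => ?_
    by_contra hlt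
    obtain ⟨β, hβ, h1⟩ := hcon i (not_le.1 hlt)
    exact absurd (hi β hβ) (not_le.2 h1)
  choose J hJ1 hJ2 using hI
  have hB : ∀ i : Om, ∃ b, i < b ∧ ∀ x ∈ R i, x < b := by
    intro i
    obtain ⟨b, hb⟩ := bdd_Om ((hRc i).insert i)
    exact ⟨b, hb i (mem_insert _ _), fun x hx => hb x (mem_insert_of_mem _ hx)⟩
  choose Bd hBd1 hBd2 using hB
  let I : ℕ → Om := fun n => Nat.rec (J r0) (fun _ x => J (Bd x)) n
  have hI0 : I 0 = J r0 := rfl
  have hIs : ∀ n, I (n + 1) = J (Bd (I n)) := fun n => rfl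
  have hIgood : ∀ n, ∀ β ∈ a (X (I n)), (T β δ).2.1 ≤ N0 := by
    intro n
    cases n with
    | zero => exact hJ2 _
    | succ n => exact hJ2 _
  have hIlt : ∀ n, Bd (I n) < I (n + 1) := fun n => by rw [hIs]; exact hJ1 _
  have hImono : StrictMono I := strictMono_nat_of_lt_succ fun n => (hBd1 _).trans (hIlt n)
  have hRdisj : ∀ m n, m < n → ∀ x ∈ R (I m), ∀ y ∈ R (I n), x < y := by
    intro m n hmn x hx y hy
    calc x < Bd (I m) := hBd2 _ x hx
      _ < I (m + 1) := hIlt m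
      _ ≤ I n := hImono.monotone hmn
      _ < y := hRgt _ y hy
  -- bounds
  obtain ⟨lam', hlam', hlamle⟩ := hδS.2 (range fun n => lam (I n)) (countable_range _) (by
    rintro _ ⟨n, rfl⟩
    exact hlam1 _)
  obtain ⟨rr, hrr⟩ := bdd_Om (countable_iUnion fun n => hRc (I n))
  have hG : {γ | γ < δ ∧ f δ γ ≤ rr}.Countable := by
    have h1 : InjOn (f δ) {γ | γ < δ ∧ f δ γ ≤ rr} := (hf δ).mono fun γ hγ => hγ.1
    refine Set.countable_of_injective_of_countable_image h1 ((countable_Iic_Om rr).mono ?_)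
    rintro _ ⟨γ, hγ, rfl⟩
    exact hγ.2
  obtain ⟨ε1, hε1, hε1le⟩ := hδS.2 _ hG fun γ hγ => hγ.1
  have hJc : (⋃ n : ℕ, ⋃ y ∈ a (X (I n)), {x | x ∈ JJ y ∧ x < δ}).Countable := by
    refine countable_iUnion fun n => ?_
    exact (a (X (I n))).countable_toSet.biUnion fun y _ => (hJJ y).mono fun x hx => hx.1
  obtain ⟨ε2, hε2, hε2le⟩ := hδS.2 _ hJc (by
    intro x hx
    obtain ⟨n, hn⟩ := mem_iUnion.1 hx
    obtain ⟨y, hy, hxy⟩ := mem_iUnion₂.1 hn
    exact hxy.2)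
  obtain ⟨ζ, hζZ, hζ'⟩ := hN1 (max (max lam' ε1) ε2) (max_lt (max_lt hlam' hε1) hε2)
  have hζ : max lam' ε1 < ζ := (le_max_left _ _).trans_lt hζ'
  have hζε2 : ε2 < ζ := (le_max_right _ _).trans_lt hζ'
  obtain ⟨hζδ, hζg, hζN⟩ := hζZ
  have hwbig : rr < w ζ := by
    by_contra hcon
    have h1 := hε1le (nx C δ ζ) ⟨nx_lt hC hζδ, not_lt.1 hcon⟩
    exact absurd ((le_max_right lam' ε1).trans_lt hζ) (not_lt.2 ((le_nx hC hζδ).trans h1))
  -- choose the upper block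
  obtain ⟨n, hn⟩ : ∃ n, ∀ x ∈ R (I n), max N0 N1 < e x (w ζ) := by
    by_contra hcon
    push Not at hcon
    choose x hx1 hx2 using hcon
    have hxinj : Function.Injective x := by
      intro m n hmn
      rcases lt_trichotomy m n with h1 | h1 | h1
      · exact absurd hmn (hRdisj m n h1 _ (hx1 m) _ (hx1 n)).ne
      · exact h1
      · exact absurd hmn.symm (hRdisj n m h1 _ (hx1 n) _ (hx1 m)).ne
    have hxw : ∀ n, x n < w ζ := fun n => (hrr _ (mem_iUnion.2 ⟨n, hx1 n⟩)).trans hwbig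
    have hcomp : Function.Injective fun n => e (x n) (w ζ) := by
      intro m n hmn
      exact hxinj (he (w ζ) (hxw m) (hxw n) hmn)
    have hfin : (range fun n => e (x n) (w ζ)).Finite :=
      (Set.finite_Iic (max N0 N1)).subset (by rintro _ ⟨n, rfl⟩; exact hx2 n)
    exact (infinite_range_of_injective hcomp) hfin
  refine ⟨ζ, X (I n), fun x hx => ?_, fun x hx y hy => ?_⟩
  · exact ((hg2 ζ x hx).trans hζg).trans_lt ((nx_lt hC hζδ).trans (hX1 _))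
  · have hxδ : x < δ := ((hg2 ζ x hx).trans hζg).trans_lt (nx_lt hC hζδ)
    have hlx : lam (I n) < x :=
      (hlamle _ (mem_range_self n)).trans_lt
        (((le_max_left lam' ε1).trans_lt hζ).trans_le (ha ζ x hx))
    have h1 : T y x = sc C f e δ (T y δ) x := hlam2 (I n) y hy x hlx hxδ.le (s0 y)
    have h2 : nx C δ x = nx C δ ζ := nx_eq hC hζδ (ha ζ x hx) ((hg2 ζ x hx).trans hζg)
    have hrR : (T y δ).1 ∈ R (I n) := ⟨y, hy, rfl⟩
    have hr1 : (T y δ).1 < w ζ := (hrr _ (mem_iUnion.2 ⟨n, hrR⟩)).trans hwbig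
    have hr2 : (T y δ).2.1 < e (T y δ).1 (w ζ) :=
      ((hIgood n y hy).trans (le_max_left N0 N1)).trans_lt (hn _ hrR)
    have h3 : upd e (T y δ) δ (w ζ) = (w ζ, e (T y δ).1 (w ζ), δ) := by
      unfold upd
      rw [if_pos hr1, if_pos hr2]
    have h4 : T y x = sc C f e (nx C δ ζ) (w ζ, e (T y δ).1 (w ζ), δ) x := by
      rw [h1, sc_of_lt f e hC hxδ, h2]
      exact congrArg (fun s => sc C f e (nx C δ ζ) s x) h3
    have h5 := tail_aux f e hC (nx C δ ζ) (w ζ) (e (T y δ).1 (w ζ)) 0 δ δ x (Nat.zero_le _)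
      ((hζN x hx).trans ((le_max_right N0 N1).trans (hn _ hrR).le))
    refine ⟨?_, fun hxJ => ?_⟩
    · show h (T y x).2.2 = k
      rw [h4, h5]
      exact hδk
    · have h6 := hε2le x (mem_iUnion.2 ⟨n, mem_iUnion₂.2 ⟨y, hy, hxJ, hxδ⟩⟩)
      exact absurd (hζε2.trans_le (ha ζ x hx)) (not_lt.2 h6)
lemma mk_CodeQ (Q : Type) (hQ : Cardinal.mk Q ≤ Cardinal.aleph 1) :
    Cardinal.mk (Code Q) ≤ Cardinal.aleph 1 := by
  rw [Cardinal.mk_sigma]
  refine (Cardinal.sum_le_mk_mul_iSup _).trans ?_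
  calc _ ≤ Cardinal.aleph 1 * Cardinal.aleph 1 := by
        apply mul_le_mul'
        · exact (Cardinal.mk_le_aleph0).trans aleph0_le_aleph1
        · apply ciSup_le'
          intro n
          exact mk_prod_le _ _ mk_Finset_Om (mk_prod_le _ _ (mk_pi_fin n _ mk_Finset_Om)
            (mk_pi_fin n _ (mk_pi_fin n _ hQ)))
    _ = Cardinal.aleph 1 := Cardinal.mul_eq_self aleph0_le_aleph1

/-- matrix form of the strong colouring theorem, with roots, bounds and avoidance -/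
theorem exists_pr0J (Q : Type) [Nonempty Q] (hQ : Cardinal.mk Q ≤ Cardinal.aleph 1) :
    ∃ c : Th → Th → Q, ∀ (T : Type), Cardinal.mk T ≤ Cardinal.aleph 1 →
      ∀ (n : ℕ) (a : Th → Fin n → Th) (τ : Th → T),
      (∀ ξ, StrictMono (a ξ)) → (∀ ξ, ∃ k, ξ ≤ a ξ k) →
      ∃ (n0 : ℕ) (t : T) (R : Fin n → Th), n0 < n ∧
      ∀ (bd : Th) (J : Th → Set Th), (∀ α, (J α).Countable) →
      ∀ M : Fin n → Fin n → Q, ∃ ξ η, bd < ξ ∧ bd < η ∧ τ ξ = t ∧ τ η = t ∧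
        (∀ k : Fin n, k.1 < n0 → a ξ k = R k ∧ a η k = R k) ∧
        ∀ k l : Fin n, n0 ≤ k.1 → n0 ≤ l.1 →
          a ξ l < a η k ∧ c (a ξ l) (a η k) = M k l ∧ a ξ l ∉ J (a η k) := by
  classical
  obtain ⟨c1, hc1⟩ := exists_pr1J (Code Q) (mk_CodeQ Q hQ)
  obtain ⟨E, hE⟩ := exists_inj_set
  refine ⟨fun α β => look E (c1 α β) α β, fun T hT n a τ ha hunb => ?_⟩
  -- the root
  let P : ℕ → Prop := fun m => ∃ L : Set Th, ¬ StrongColor.Small L ∧
    ∀ ξ ∈ L, ∀ ξ' ∈ L, ∀ k : Fin n, k.1 < m → a ξ k = a ξ' k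
  have hP0 : P 0 := ⟨univ, not_small_univ_Th, fun _ _ _ _ k hk => absurd hk (Nat.not_lt_zero _)⟩
  have hPn : ∀ m, P m → m < n := by
    rintro m ⟨L, hL, hconst⟩
    by_contra hmn
    obtain ⟨ξ, hξ⟩ : L.Nonempty := by
      rw [Set.nonempty_iff_ne_empty]
      rintro rfl
      exact hL (StrongColor.Small.of_countable countable_empty)
    obtain ⟨b, hb⟩ := (StrongColor.Small.of_countable (countable_range (a ξ))).bdd
    obtain ⟨ξ', hξ', hlt⟩ := exists_above hL b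
    obtain ⟨k, hk⟩ := hunb ξ'
    have h1 := hconst ξ hξ ξ' hξ' k (k.2.trans_le (not_lt.1 hmn))
    rw [← h1] at hk
    exact absurd (hlt.trans_le hk) (not_lt.2 (hb _ (mem_range_self k)).le)
  obtain ⟨m, hm, hm'⟩ : ∃ m, P m ∧ ¬ P (m + 1) := by
    by_contra hcon
    push Not at hcon
    have : ∀ m, P m := fun m => Nat.rec hP0 (fun m hm => hcon m hm) m
    exact absurd (hPn n (this n)) (lt_irrefl _)
  have hmn := hPn m hm
  obtain ⟨L, hL, hconst⟩ := hm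
  obtain ⟨t, ht⟩ := pigeon (ι := T) hT hL τ
  have hpt : ∀ γ : Th, ∃ ξ, ξ ∈ L ∧ τ ξ = t ∧ γ < ξ ∧ γ < a ξ ⟨m, hmn⟩ := by
    intro γ
    by_contra hcon'
    push Not at hcon'
    have ht2 : ¬ StrongColor.Small {x ∈ {x ∈ L | τ x = t} | γ < x} := by
      intro hsm
      apply ht
      refine StrongColor.Small.mono ?_ (hsm.union (small_Iic γ))
      intro x hx
      by_cases h : γ < x
      · exact Or.inl ⟨hx, h⟩
      · exact Or.inr (not_lt.1 h)
    have hcon : ∀ ξ, ξ ∈ {x ∈ {x ∈ L | τ x = t} | γ < x} → a ξ ⟨m, hmn⟩ ≤ γ :=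
      fun ξ hξ => hcon' ξ hξ.1.1 hξ.1.2 hξ.2
    apply hm'
    obtain ⟨⟨v, hv⟩, hns⟩ := pigeon (ι := Iic γ) (small_Iic γ) ht2
      (fun ξ => if h : a ξ ⟨m, hmn⟩ ≤ γ then ⟨a ξ ⟨m, hmn⟩, h⟩ else ⟨γ, mem_Iic.2 le_rfl⟩)
    refine ⟨_, hns, ?_⟩
    rintro ξ ⟨hξL, hξ⟩ ξ' ⟨hξL', hξ'⟩ k hk
    rcases Nat.lt_succ_iff_lt_or_eq.1 hk with h | h
    · exact hconst ξ hξL.1.1 ξ' hξL'.1.1 k h
    · have hk' : k = ⟨m, hmn⟩ := Fin.ext h
      subst hk'
      rw [dif_pos (hcon ξ hξL)] at hξ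
      rw [dif_pos (hcon ξ' hξL')] at hξ'
      exact congrArg Subtype.val (hξ.trans hξ'.symm)
  choose φ hφL hφt hφ0 hφ using hpt
  -- separating sets
  have hsep : ∀ γ : Th, ∃ u : Finset Om, Function.Injective fun k => tr u (E (a (φ γ) k)) := by
    intro γ
    have h1 : ∀ p : Fin n × Fin n, ∃ x : Om, p.1 ≠ p.2 →
        ¬ (x ∈ E (a (φ γ) p.1) ↔ x ∈ E (a (φ γ) p.2)) := by
      intro p
      by_cases hp : p.1 = p.2
      · exact ⟨Classical.arbitrary Om, fun h => absurd hp h⟩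
      · have : E (a (φ γ) p.1) ≠ E (a (φ γ) p.2) := fun h => hp ((ha (φ γ)).injective (hE h))
        by_contra hcon
        push Not at hcon
        apply this
        ext x
        exact (hcon x).2
    choose x hx using h1
    refine ⟨Finset.univ.image x, fun k l hkl => ?_⟩
    by_contra hne
    have h2 := hx (k, l) hne
    apply h2
    have h3 : x (k, l) ∈ Finset.univ.image x := Finset.mem_image_of_mem x (Finset.mem_univ _)
    constructor
    · intro h4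
      have h5 : x (k, l) ∈ tr (Finset.univ.image x) (E (a (φ γ) k)) :=
        Finset.mem_filter.2 ⟨h3, h4⟩
      have hkl' : tr (Finset.univ.image x) (E (a (φ γ) k)) =
        tr (Finset.univ.image x) (E (a (φ γ) l)) := hkl
      rw [hkl'] at h5
      exact (Finset.mem_filter.1 h5).2
    · intro h4
      have h5 : x (k, l) ∈ tr (Finset.univ.image x) (E (a (φ γ) l)) :=
        Finset.mem_filter.2 ⟨h3, h4⟩
      have hkl' : tr (Finset.univ.image x) (E (a (φ γ) k)) =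
        tr (Finset.univ.image x) (E (a (φ γ) l)) := hkl
      rw [← hkl'] at h5
      exact (Finset.mem_filter.1 h5).2
  choose u hu using hsep
  obtain ⟨⟨u0, σ⟩, hns⟩ := pigeon (ι := Finset Om × (Fin n → Finset Om))
    (mk_prod_le _ _ mk_Finset_Om (mk_pi_fin n _ mk_Finset_Om)) not_small_univ_Th
    (fun γ => (u γ, fun k => tr (u γ) (E (a (φ γ) k))))
  have hψ : ∀ γ : Th, ∃ γ', γ < γ' ∧ u γ' = u0 ∧ ∀ k, tr u0 (E (a (φ γ') k)) = σ k := by
    intro γ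
    obtain ⟨γ', ⟨-, h1⟩, h2⟩ := exists_above hns γ
    have h3 : u γ' = u0 := congrArg Prod.fst h1
    have h4 : (fun k => tr (u γ') (E (a (φ γ') k))) = σ := congrArg Prod.snd h1
    rw [h3] at h4
    exact ⟨γ', h2, h3, fun k => congrFun h4 k⟩
  choose ψ hψ1 hψ2 hψ3 using hψ
  have hσ : Function.Injective σ := by
    have γ : Th := Classical.arbitrary Th
    have h1 := hu (ψ γ)
    rw [hψ2 γ] at h1
    intro k l hkl
    apply h1
    show tr u0 (E (a (φ (ψ γ)) k)) = tr u0 (E (a (φ (ψ γ)) l))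
    rw [hψ3, hψ3, hkl]
  refine ⟨m, t, a (φ (Classical.arbitrary Th)), hmn, fun bd J hJ M => ?_⟩
  obtain ⟨γ, γ', h1, h2⟩ := hc1
    (fun γ => (Finset.univ.filter fun k : Fin n => m ≤ k.1).image (a (φ (ψ (max γ bd))))) (by
      intro γ x hx
      obtain ⟨k, hk, rfl⟩ := Finset.mem_image.1 hx
      have hk := (Finset.mem_filter.1 hk).2
      have h3 : a (φ (ψ (max γ bd))) ⟨m, hmn⟩ ≤ a (φ (ψ (max γ bd))) k := (ha _).monotone hk
      exact (le_max_left γ bd).trans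
        ((hψ1 (max γ bd)).trans ((hφ (ψ (max γ bd))).trans_le h3)).le) J hJ ⟨n, u0, σ, M⟩
  have hmem : ∀ (γ : Th) (k : Fin n), m ≤ k.1 → a (φ (ψ (max γ bd))) k ∈
      (Finset.univ.filter fun k : Fin n => m ≤ k.1).image (a (φ (ψ (max γ bd)))) := fun γ k hk =>
    Finset.mem_image_of_mem _ (Finset.mem_filter.2 ⟨Finset.mem_univ _, hk⟩)
  have hbd : ∀ γ : Th, bd < φ (ψ (max γ bd)) := fun γ =>
    (le_max_right γ bd).trans_lt ((hψ1 (max γ bd)).trans (hφ0 _))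
  refine ⟨φ (ψ (max γ bd)), φ (ψ (max γ' bd)), hbd γ, hbd γ', hφt _, hφt _,
    fun k hk => ⟨hconst _ (hφL _) _ (hφL _) k hk, hconst _ (hφL _) _ (hφL _) k hk⟩,
    fun k l hk hl => ⟨?_, ?_, (h2 _ (hmem γ l hl) _ (hmem γ' k hk)).2⟩⟩
  · have h3 : a (φ (ψ (max γ' bd))) ⟨m, hmn⟩ ≤ a (φ (ψ (max γ' bd))) k := (ha _).monotone hk
    exact (h1 _ (hmem γ l hl)).trans_le ((le_max_left γ' bd).trans
      ((hψ1 (max γ' bd)).trans ((hφ (ψ (max γ' bd))).trans_le h3)).le)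
  · show look E (c1 _ _) _ _ = M k l
    rw [(h2 _ (hmem γ l hl) _ (hmem γ' k hk)).1]
    exact look_eq E n u0 σ M hσ _ _ k l (hψ3 _ l) (hψ3 _ k)

end Pool.Agent.Helper220.StrongColorB
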