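import Mathlib
import Pool.Agent.Helper220.StrongColor
import Pool.Agent.Helper220.StrongColorB

set_option autoImplicit false
set_option linter.all false

open Set

namespace Pool.Agent.Helper220.ClosureDisc

open Pool.Agent.Helper220.StrongColor
open Pool.Agent.Helper220.StrongColorB

universe u


/-! ## Generalities -/

/-- trace on a finite set -/
noncomputable def trG {I : Type} (u : Finset I) (A : Set I) : Finset I :=
  open Classical in u.filter (· ∈ A)

/-- the Fichtenholz-Kantorovich independent family -/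
noncomputable def ind {I : Type} (A : Set I) (k : Finset I × Finset (Finset I)) : Bool :=
  open Classical in decide (trG k.1 A ∈ k.2)

lemma ind_spec {P I : Type} (E : P → Set I) (hE : Function.Injective E) (v : Finset P)
    (s : P → Bool) : ∃ k : Finset I × Finset (Finset I), ∀ p ∈ v, ind (E p) k = s p := by
  classical
  have h1 : ∀ pq : P × P, ∃ u : Finset I, pq.1 ≠ pq.2 → trG u (E pq.1) ≠ trG u (E pq.2) := by
    intro pq
    by_cases hp : pq.1 = pq.2
    · exact ⟨∅, fun h => absurd hp h⟩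
    · have hne : E pq.1 ≠ E pq.2 := fun h => hp (hE h)
      have : ∃ x, ¬ (x ∈ E pq.1 ↔ x ∈ E pq.2) := by
        by_contra hcon
        push Not at hcon
        exact hne (Set.ext hcon)
      obtain ⟨x, hx⟩ := this
      refine ⟨{x}, fun _ h => hx ?_⟩
      have h2 : x ∈ trG {x} (E pq.1) ↔ x ∈ trG {x} (E pq.2) := by rw [h]
      unfold trG at h2
      simpa using h2
  choose u hu using h1
  let U : Finset I := (v ×ˢ v).biUnion u
  have hsep : ∀ p ∈ v, ∀ q ∈ v, trG U (E p) = trG U (E q) → p = q := by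
    intro p hp q hq h
    by_contra hne
    apply hu (p, q) hne
    ext x
    unfold trG at h ⊢
    simp only [Finset.mem_filter]
    constructor
    · rintro ⟨h2, h3⟩
      have h4 : x ∈ U.filter (· ∈ E p) :=
        Finset.mem_filter.2 ⟨Finset.mem_biUnion.2 ⟨(p, q), Finset.mem_product.2 ⟨hp, hq⟩, h2⟩, h3⟩
      rw [h] at h4
      exact ⟨h2, (Finset.mem_filter.1 h4).2⟩
    · rintro ⟨h2, h3⟩
      have h4 : x ∈ U.filter (· ∈ E q) :=
        Finset.mem_filter.2 ⟨Finset.mem_biUnion.2 ⟨(p, q), Finset.mem_product.2 ⟨hp, hq⟩, h2⟩, h3⟩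
      rw [← h] at h4
      exact ⟨h2, (Finset.mem_filter.1 h4).2⟩
  refine ⟨(U, (v.filter fun p => s p = true).image fun p => trG U (E p)), fun p hp => ?_⟩
  unfold ind
  by_cases hs : s p = true
  · rw [hs]
    exact decide_eq_true (Finset.mem_image.2 ⟨p, Finset.mem_filter.2 ⟨hp, hs⟩, rfl⟩)
  · have hs' : s p = false := by simpa using hs
    rw [hs']
    refine decide_eq_false fun h => ?_
    obtain ⟨q, hq, hqp⟩ := Finset.mem_image.1 h
    obtain ⟨hq1, hq2⟩ := Finset.mem_filter.1 hq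
    have := hsep q hq1 p hp hqp
    rw [this] at hq2
    exact hs hq2

lemma mk_finset_le (A : Type) (hA : Cardinal.mk A ≤ Cardinal.aleph 1) :
    Cardinal.mk (Finset A) ≤ Cardinal.aleph 1 := by
  classical
  refine (Cardinal.mk_le_of_surjective (List.toFinset_surjective (α := A))).trans ?_
  refine (Cardinal.mk_list_le_max A).trans ?_
  exact max_le aleph0_le_aleph1 hA

lemma mk_le_of_countable (A : Type) [Countable A] : Cardinal.mk A ≤ Cardinal.aleph 1 :=
  (Cardinal.mk_le_aleph0).trans aleph0_le_aleph1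

/-- points of the index of coordinates -/
abbrev Co : Type := Th × Om

lemma mk_Co : Cardinal.mk Co ≤ Cardinal.mk (Set Om) := by
  rw [Cardinal.mk_prod, Cardinal.lift_id, Cardinal.lift_id, Cardinal.mk_set, mk_Th, mk_Om,
    aleph2_eq]
  have h1 : Order.succ (Cardinal.aleph 1) ≤ 2 ^ Cardinal.aleph 1 :=
    Order.succ_le_of_lt (Cardinal.cantor _)
  have h2 : Cardinal.aleph0 ≤ (2 : Cardinal) ^ Cardinal.aleph 1 :=
    (aleph0_le_aleph1.trans (Order.le_succ _)).trans h1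
  calc Order.succ (Cardinal.aleph 1) * Cardinal.aleph 1
      ≤ 2 ^ Cardinal.aleph 1 * 2 ^ Cardinal.aleph 1 :=
        mul_le_mul' h1 ((Order.le_succ _).trans h1)
    _ = 2 ^ Cardinal.aleph 1 := Cardinal.mul_eq_self h2

/-- independent family over `Om`, all combinations unbounded -/
lemma exists_dd : ∃ dd : Co → Om → Bool, ∀ (v : Finset Co) (s : Co → Bool) (b : Om),
    ∃ i, b < i ∧ ∀ p ∈ v, dd p i = s p := by
  obtain ⟨E, hE⟩ : ∃ E : Co → Set Om, Function.Injective E := by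
    obtain ⟨φ⟩ := mk_Co
    exact ⟨φ, φ.injective⟩
  have hcard : Cardinal.mk Om = Cardinal.mk ((Finset Om × Finset (Finset Om)) × Om) := by
    apply le_antisymm
    · refine Cardinal.mk_le_of_injective (f := fun i => ((∅, ∅), i)) ?_
      intro i j h
      exact (Prod.mk.inj h).2
    · rw [mk_Om]
      exact mk_prod_le _ _ (mk_prod_le _ _ mk_Finset_Om (mk_finset_le _ mk_Finset_Om))
        (le_of_eq mk_Om)
  obtain ⟨e⟩ := Cardinal.eq.1 hcard
  refine ⟨fun p i => ind (E p) (e i).1, fun v s b => ?_⟩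
  obtain ⟨k, hk⟩ := ind_spec E hE v s
  have hinj : Function.Injective fun j : Om => e.symm (k, j) := by
    intro i j h
    exact (Prod.mk.inj (e.symm.injective h)).2
  have hunc : ¬ (range fun j : Om => e.symm (k, j)).Countable := by
    intro h
    rw [← Set.image_univ] at h
    exact not_countable_univ (Set.countable_of_injective_of_countable_image hinj.injOn h)
  obtain ⟨i, ⟨j, rfl⟩, hi⟩ : ∃ i ∈ range (fun j : Om => e.symm (k, j)), b < i := by
    by_contra hcon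
    push Not at hcon
    exact hunc ((countable_Iic_Om b).mono hcon)
  refine ⟨_, hi, fun p hp => ?_⟩
  show ind (E p) (e (e.symm (k, j))).1 = s p
  rw [Equiv.apply_symm_apply]
  exact hk p hp

/-- countable dense subsets of `2 ^ (Iic β × Om)` -/
lemma exists_yy : ∃ yy : Th → ℕ → Co → Bool, ∀ (β : Th) (v : Finset Co) (s : Co → Bool),
    (∀ p ∈ v, p.1 ≤ β) → ∃ n, ∀ p ∈ v, yy β n p = s p := by
  have key : ∀ β : Th, ∃ y : ℕ → Co → Bool, ∀ (v : Finset Co) (s : Co → Bool),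
      (∀ p ∈ v, p.1 ≤ β) → ∃ n, ∀ p ∈ v, y n p = s p := by
    intro β
    classical
    have hcard : Cardinal.mk {p : Co // p.1 ≤ β} ≤ Cardinal.mk (Set ℕ) := by
      have h1 : StrongColor.Small (Iic β ×ˢ (univ : Set Om)) := by
        unfold StrongColor.Small
        rw [Cardinal.mk_setProd, Cardinal.mk_univ, mk_Om]
        calc Cardinal.mk (Iic β) * Cardinal.aleph 1 ≤ Cardinal.aleph 1 * Cardinal.aleph 1 :=
              mul_le_mul' (small_Iic β) le_rfl
          _ = Cardinal.aleph 1 := Cardinal.mul_eq_self aleph0_le_aleph1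
      have h2 : StrongColor.Small {p : Co | p.1 ≤ β} := by
        refine StrongColor.Small.mono ?_ h1
        intro p hp
        exact Set.mk_mem_prod hp (mem_univ _)
      refine (show Cardinal.mk {p : Co // p.1 ≤ β} ≤ Cardinal.aleph 1 from h2).trans ?_
      rw [Cardinal.mk_set, Cardinal.mk_nat]
      have : Cardinal.aleph 1 = Order.succ Cardinal.aleph0 := Cardinal.succ_aleph0.symm
      rw [this]
      exact Order.succ_le_of_lt (Cardinal.cantor _)
    obtain ⟨φ⟩ := hcard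
    obtain ⟨g, hg⟩ := exists_surjective_nat (Finset ℕ × Finset (Finset ℕ))
    refine ⟨fun n p => if h : p.1 ≤ β then ind (φ ⟨p, h⟩) (g n) else false, fun v s hv => ?_⟩
    obtain ⟨k, hk⟩ := ind_spec (fun p => φ p) φ.injective
      (v.subtype fun p => p.1 ≤ β) (fun p => s p.1)
    obtain ⟨n, rfl⟩ := hg k
    refine ⟨n, fun p hp => ?_⟩
    have h := hv p hp
    show (if h : p.1 ≤ β then ind (φ ⟨p, h⟩) (g n) else false) = s p
    rw [dif_pos h]
    exact hk ⟨p, h⟩ (Finset.mem_subtype.2 hp)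
  choose yy hyy using key
  exact ⟨yy, hyy⟩

/-- reindexing a family of finite sets -/
lemma reindex (A : Th → Finset Th) (hA : ∀ ξ, ξ ∈ A ξ) : ∃ (n : ℕ) (θ : Th → Th)
    (a : Th → Fin n → Th), (∀ γ, γ < θ γ) ∧ (∀ γ, StrictMono (a γ)) ∧
    (∀ γ x, x ∈ A (θ γ) ↔ ∃ k, a γ k = x) ∧ (∀ γ γ', θ γ = θ γ' → a γ = a γ') := by
  obtain ⟨n, hn⟩ := pigeon (ι := ℕ) (mk_le_of_countable ℕ) not_small_univ_Th
    (fun ξ => (A ξ).card)
  have h6 : ∀ γ : Th, ∃ ξ, γ < ξ ∧ (A ξ).card = n := by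
    intro γ
    obtain ⟨ξ, ⟨-, h7⟩, h8⟩ := exists_above hn γ
    exact ⟨ξ, h8, h7⟩
  choose θ hθ1 hθ2 using h6
  refine ⟨n, θ, fun γ => (A (θ γ)).orderEmbOfFin (hθ2 γ), hθ1,
    fun γ => ((A (θ γ)).orderEmbOfFin (hθ2 γ)).strictMono, fun γ x => ?_, fun γ γ' h => ?_⟩
  · have : x ∈ range ((A (θ γ)).orderEmbOfFin (hθ2 γ)) ↔ x ∈ A (θ γ) := by
      rw [Finset.range_orderEmbOfFin]
      rfl
    exact this.symm
  · show (fun k => (A (θ γ)).orderEmbOfFin (hθ2 γ) k) = fun k => (A (θ γ')).orderEmbOfFin (hθ2 γ') k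
    funext k
    congr 1
    all_goals simp only [h]

section space

/-- colours: finite partial functions -/
abbrev Qc : Type := Finset (ℕ × Om × Om × Bool)

lemma mk_Qc : Cardinal.mk Qc ≤ Cardinal.aleph 1 := by
  apply mk_finset_le
  exact mk_prod_le _ _ (mk_le_of_countable ℕ) (mk_prod_le _ _ (le_of_eq mk_Om)
    (mk_prod_le _ _ (le_of_eq mk_Om) (mk_le_of_countable Bool)))

open Classical in
/-- evaluation of a colour -/
noncomputable def ev (q : Qc) (n : ℕ) (i c : Om) (d : Bool) : Bool :=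
  if (n, i, c, true) ∈ q then true else if (n, i, c, false) ∈ q then false else d

/-- indices of points -/
abbrev Pt : Type := Th × ℕ × Om

variable (c : Th → Th → Qc) (f : Th → Th → Om) (dd : Co → Om → Bool)
  (yy : Th → ℕ → Co → Bool)

open Classical in
/-- the points -/
noncomputable def xx (p : Pt) : Co → Bool := fun q =>
  if p.1 < q.1 then
    (if f q.1 p.1 < q.2 ∧ p.2.2 < q.2 then false else ev (c p.1 q.1) p.2.1 p.2.2 q.2 (dd q p.2.2))
  else yy p.1 p.2.1 q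

/-- the space -/
def SX : Set (Co → Bool) := range (xx c f dd yy)

variable {c f dd yy}

lemma xx_low {p : Pt} {q : Co} (h : ¬ p.1 < q.1) : xx c f dd yy p q = yy p.1 p.2.1 q := if_neg h

lemma xx_same {γ : Th} {n : ℕ} {i j : Om} {q : Co} (h : q.1 ≤ γ) :
    xx c f dd yy (γ, n, i) q = xx c f dd yy (γ, n, j) q := by
  rw [xx_low (p := (γ, n, i)) (not_lt.2 h), xx_low (p := (γ, n, j)) (not_lt.2 h)]

variable (hdd : ∀ (v : Finset Co) (s : Co → Bool) (b : Om), ∃ i, b < i ∧ ∀ p ∈ v, dd p i = s p)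
  (hyy : ∀ (β : Th) (v : Finset Co) (s : Co → Bool), (∀ p ∈ v, p.1 ≤ β) →
    ∃ n, ∀ p ∈ v, yy β n p = s p)

include hdd hyy

lemma xx_dense (v : Finset Co) (s : Co → Bool) (γ : Th) :
    ∃ n i, ∀ q ∈ v, xx c f dd yy (γ, n, i) q = s q := by
  classical
  obtain ⟨n, hn⟩ := hyy γ (v.filter fun q => q.1 ≤ γ) s (fun p hp => (Finset.mem_filter.1 hp).2)
  obtain ⟨b, hb⟩ := bdd_Om (A := (v.image fun q => q.2 : Set Om) ∪
    ⋃ q ∈ v, ((c γ q.1).image fun r => r.2.1 : Set Om)) (by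
      refine Countable.union ?_ ?_
      · exact Finset.countable_toSet _
      · exact (Finset.countable_toSet v).biUnion fun q _ => Finset.countable_toSet _)
  obtain ⟨i, hi, his⟩ := hdd v s b
  refine ⟨n, i, fun q hq => ?_⟩
  by_cases h : q.1 ≤ γ
  · rw [xx_low (p := (γ, n, i)) (not_lt.2 h)]
    exact hn q (Finset.mem_filter.2 ⟨hq, h⟩)
  · have hγ : γ < q.1 := not_le.1 h
    have h1 : q.2 < i := (hb q.2 (Or.inl (Finset.mem_coe.2 (Finset.mem_image_of_mem _ hq)))).trans hi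
    have h2 : ∀ r ∈ c γ q.1, r.2.1 < i := fun r hr =>
      (hb r.2.1 (Or.inr (mem_biUnion (x := q) hq
        (Finset.mem_coe.2 (Finset.mem_image.2 ⟨r, hr, rfl⟩))))).trans hi
    unfold xx
    rw [if_pos hγ, if_neg (fun h => absurd h.2 (not_lt.2 h1.le))]
    unfold ev
    rw [if_neg (fun h => absurd (h2 _ h) (lt_irrefl _)),
      if_neg (fun h => absurd (h2 _ h) (lt_irrefl _))]
    exact his q hq

/-- density in the space -/
lemma dense_level (γ : Th) : Dense {x : SX c f dd yy | ∃ n i, x.1 = xx c f dd yy (γ, n, i)} := by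
  classical
  intro x
  rw [mem_closure_iff]
  intro U hU hx
  obtain ⟨V, hV, rfl⟩ := isOpen_induced_iff.1 hU
  obtain ⟨v, u, hvu, hsub⟩ := isOpen_pi_iff.1 hV x.1 hx
  obtain ⟨n, i, hni⟩ := xx_dense (c := c) (f := f) hdd hyy v x.1 γ
  refine ⟨⟨xx c f dd yy (γ, n, i), (γ, n, i), rfl⟩, ?_, n, i, rfl⟩
  apply hsub
  intro q hq
  show xx c f dd yy (γ, n, i) q ∈ u q
  rw [hni q hq]
  exact (hvu q hq).2

/-- the space is not separable -/
lemma not_separable : ¬ TopologicalSpace.SeparableSpace (SX c f dd yy) := by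
  classical
  rintro ⟨s, hs, hd⟩
  have h5 : ∀ x : SX c f dd yy, ∃ p : Pt, xx c f dd yy p = x.1 := fun x => x.2
  choose ix hix using h5
  obtain ⟨α, hα⟩ := (StrongColor.Small.of_countable (hs.image fun x => (ix x).1)).bdd
  obtain ⟨cc, hcc⟩ := bdd_Om (A := ((fun x => (ix x).2.2) '' s) ∪ ((fun x => f α (ix x).1) '' s))
    ((hs.image _).union (hs.image _))
  let U : Set (SX c f dd yy) := {x | x.1 (α, cc) = true}
  have hU : IsOpen U := by
    have h1 : Continuous fun x : SX c f dd yy => x.1 (α, cc) :=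
      (continuous_apply _).comp continuous_subtype_val
    exact (isOpen_discrete {true}).preimage h1
  obtain ⟨n, i, hni⟩ := xx_dense (c := c) (f := f) hdd hyy {(α, cc)} (fun _ => true) α
  have hne : U.Nonempty := ⟨⟨xx c f dd yy (α, n, i), _, rfl⟩, hni _ (Finset.mem_singleton_self _)⟩
  obtain ⟨x, hxU, hxs⟩ := hd.inter_open_nonempty U hU hne
  have h2 : xx c f dd yy (ix x) (α, cc) = false := by
    have h3 : (ix x).1 < α := hα _ ⟨x, hxs, rfl⟩
    have h4 : f α (ix x).1 < cc := hcc _ (Or.inr ⟨x, hxs, rfl⟩)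
    have h6 : (ix x).2.2 < cc := hcc _ (Or.inl ⟨x, hxs, rfl⟩)
    unfold xx
    rw [if_pos h3, if_pos ⟨h4, h6⟩]
  have h3 : x.1 (α, cc) = true := hxU
  rw [← hix x, h2] at h3
  exact Bool.false_ne_true h3

end space

section main577

lemma root_match {n n0 : ℕ} {a : Th → Fin n → Th} (ha : ∀ γ, StrictMono (a γ))
    {R : Fin n → Th} {ξ η : Th} (hR : ∀ k : Fin n, k.1 < n0 → a ξ k = R k ∧ a η k = R k)
    (hlt : ∀ k l : Fin n, n0 ≤ k.1 → n0 ≤ l.1 → a ξ l < a η k) {k k' : Fin n}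
    (h : a ξ k = a η k') : k = k' ∧ k.1 < n0 := by
  by_cases hk : k.1 < n0
  · refine ⟨?_, hk⟩
    rw [(hR k hk).1, ← (hR k hk).2] at h
    exact (ha η).injective h
  · by_cases hk' : k'.1 < n0
    · rw [(hR k' hk').2, ← (hR k' hk').1] at h
      have := (ha ξ).injective h
      rw [this] at hk
      exact absurd hk' hk
    · have := hlt k' k (not_lt.1 hk') (not_lt.1 hk)
      rw [h] at this
      exact absurd this (lt_irrefl _)

variable {c : Th → Th → Qc} {f : Th → Th → Om} {dd : Co → Om → Bool}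
  {yy : Th → ℕ → Co → Bool}

lemma open_nbhd {U : Set (SX c f dd yy)} (hU : IsOpen U) {x : SX c f dd yy} (hx : x ∈ U) :
    ∃ v : Finset Co, ∀ z : SX c f dd yy, (∀ q ∈ v, z.1 q = x.1 q) → z ∈ U := by
  obtain ⟨V, hV, rfl⟩ := isOpen_induced_iff.1 hU
  obtain ⟨v, u, hvu, hsub⟩ := isOpen_pi_iff.1 hV x.1 hx
  refine ⟨v, fun z hz => hsub fun q hq => ?_⟩
  show z.1 q ∈ u q
  rw [hz q hq]
  exact (hvu q hq).2

lemma exists_inv
    (hdd : ∀ (v : Finset Co) (s : Co → Bool) (b : Om), ∃ i, b < i ∧ ∀ p ∈ v, dd p i = s p)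
    (hyy : ∀ (β : Th) (v : Finset Co) (s : Co → Bool), (∀ p ∈ v, p.1 ≤ β) →
      ∃ n, ∀ p ∈ v, yy β n p = s p)
    (g : SX c f dd yy → ℝ) (hg : Continuous g) :
    ∃ γ : Th, ∀ x y : SX c f dd yy, (∀ q : Co, q.1 ≤ γ → x.1 q = y.1 q) → g x = g y := by
  classical
  by_contra hcon
  push Not at hcon
  have h1 : ∀ γ : Th, ∃ (x y : SX c f dd yy) (r : ℚ) (v : Finset Co),
      (∀ q : Co, q.1 ≤ γ → x.1 q = y.1 q) ∧
      (∀ z : SX c f dd yy, (∀ q ∈ v, z.1 q = x.1 q) → g z < r) ∧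
      (∀ z : SX c f dd yy, (∀ q ∈ v, z.1 q = y.1 q) → (r : ℝ) < g z) := by
    intro γ
    obtain ⟨x, y, hxy, hne⟩ := hcon γ
    have key : ∀ x y : SX c f dd yy, (∀ q : Co, q.1 ≤ γ → x.1 q = y.1 q) → g x < g y →
        ∃ (x y : SX c f dd yy) (r : ℚ) (v : Finset Co),
        (∀ q : Co, q.1 ≤ γ → x.1 q = y.1 q) ∧
        (∀ z : SX c f dd yy, (∀ q ∈ v, z.1 q = x.1 q) → g z < r) ∧
        (∀ z : SX c f dd yy, (∀ q ∈ v, z.1 q = y.1 q) → (r : ℝ) < g z) := by
      intro x y hxy hlt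
      obtain ⟨r, hr1, hr2⟩ := exists_rat_btwn hlt
      obtain ⟨v1, hv1⟩ := open_nbhd (isOpen_lt hg continuous_const) (x := x)
        (show g x < (r : ℝ) from hr1)
      obtain ⟨v2, hv2⟩ := open_nbhd (isOpen_lt continuous_const hg) (x := y)
        (show (r : ℝ) < g y from hr2)
      exact ⟨x, y, r, v1 ∪ v2, hxy,
        fun z hz => hv1 z fun q hq => hz q (Finset.mem_union_left _ hq),
        fun z hz => hv2 z fun q hq => hz q (Finset.mem_union_right _ hq)⟩
    rcases lt_or_gt_of_ne hne with h | h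
    · exact key x y hxy h
    · exact key y x (fun q hq => (hxy q hq).symm) h
  choose x y r u hxy hx hy using h1
  let A : Th → Finset Th := fun γ => insert γ ((u γ).image Prod.fst)
  obtain ⟨n, θ, a, hθ, ha, hA, -⟩ := reindex A fun ξ => Finset.mem_insert_self _ _
  let W : Th → Finset (Fin n × Om × Bool × Bool) := fun γ => Finset.univ.biUnion fun k : Fin n =>
    ((u (θ γ)).filter fun q => q.1 = a γ k).image
      fun q => (k, q.2, (x (θ γ)).1 q, (y (θ γ)).1 q)
  have hW : ∀ γ k cc b1 b2, (k, cc, b1, b2) ∈ W γ ↔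
      (a γ k, cc) ∈ u (θ γ) ∧ (x (θ γ)).1 (a γ k, cc) = b1 ∧ (y (θ γ)).1 (a γ k, cc) = b2 := by
    intro γ k cc b1 b2
    simp only [W, Finset.mem_biUnion, Finset.mem_univ, true_and, Finset.mem_image,
      Finset.mem_filter, Prod.mk.injEq]
    constructor
    · rintro ⟨k', ⟨q1, q2⟩, ⟨h1, h2⟩, rfl, rfl, rfl, rfl⟩
      dsimp only at h2
      subst h2
      exact ⟨h1, rfl, rfl⟩
    · rintro ⟨h1, rfl, rfl⟩
      exact ⟨k, (a γ k, cc), ⟨h1, rfl⟩, rfl, rfl, rfl, rfl⟩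
  obtain ⟨c0, hc0⟩ := exists_pr0J Bool (mk_le_of_countable Bool)
  obtain ⟨n0, t, R, hn0, hpair⟩ := hc0 (ℚ × Finset (Fin n × Om × Bool × Bool))
    (mk_prod_le _ _ (mk_le_of_countable ℚ) (mk_finset_le _ (mk_prod_le _ _
      (mk_le_of_countable _) (mk_prod_le _ _ (le_of_eq mk_Om) (mk_le_of_countable _)))))
    n a (fun γ => (r (θ γ), W γ)) ha (fun γ => by
      obtain ⟨k, hk⟩ := (hA γ (θ γ)).1 (Finset.mem_insert_self _ _)
      exact ⟨k, by rw [hk]; exact (hθ γ).le⟩)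
  obtain ⟨bd, hbd⟩ := (StrongColor.Small.of_countable (countable_range R)).bdd
  obtain ⟨ξ, η, hξ, hη, hτξ, hτη, hroot, hcol⟩ := hpair bd (fun _ => ∅)
    (fun _ => countable_empty) (fun _ _ => true)
  have hτ : (r (θ ξ), W ξ) = (r (θ η), W η) := hτξ.trans hτη.symm
  have hr : r (θ ξ) = r (θ η) := congrArg Prod.fst hτ
  have hWW : W ξ = W η := congrArg Prod.snd hτ
  have hlt : ∀ k l : Fin n, n0 ≤ k.1 → n0 ≤ l.1 → a ξ l < a η k := fun k l hk hl =>
    (hcol k l hk hl).1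
  obtain ⟨m, i, hz⟩ := xx_dense (c := c) (f := f) hdd hyy (u (θ ξ) ∪ u (θ η))
    (fun q => if q ∈ u (θ ξ) then (x (θ ξ)).1 q else (y (θ η)).1 q) (Classical.arbitrary Th)
  let z : SX c f dd yy := ⟨xx c f dd yy (Classical.arbitrary Th, m, i), _, rfl⟩
  have hz1 : g z < r (θ ξ) := by
    apply hx (θ ξ)
    intro q hq
    have := hz q (Finset.mem_union_left _ hq)
    rw [if_pos hq] at this
    exact this
  have hz2 : (r (θ η) : ℝ) < g z := by
    apply hy (θ η)
    intro q hq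
    have h2 := hz q (Finset.mem_union_right _ hq)
    by_cases hq' : q ∈ u (θ ξ)
    · rw [if_pos hq'] at h2
      have h3 : z.1 q = (x (θ ξ)).1 q := h2
      rw [h3]
      obtain ⟨q1, cc⟩ := q
      obtain ⟨k, hk⟩ := (hA ξ q1).1 (Finset.mem_insert_of_mem
        (Finset.mem_image_of_mem Prod.fst hq'))
      obtain ⟨k', hk'⟩ := (hA η q1).1 (Finset.mem_insert_of_mem
        (Finset.mem_image_of_mem Prod.fst hq))
      obtain ⟨rfl, hkn⟩ := root_match ha hroot hlt (hk.trans hk'.symm)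
      have h4 : (k, cc, (x (θ ξ)).1 (a ξ k, cc), (y (θ ξ)).1 (a ξ k, cc)) ∈ W ξ := by
        rw [hW]
        exact ⟨by rw [hk]; exact hq', rfl, rfl⟩
      rw [hWW, hW] at h4
      have h5 : (x (θ ξ)).1 (q1, cc) = (y (θ ξ)).1 (q1, cc) := by
        apply hxy
        show q1 ≤ θ ξ
        rw [← hk, (hroot k hkn).1]
        exact ((hbd _ (mem_range_self k)).trans (hξ.trans (hθ ξ))).le
      rw [h5]
      have h6 := h4.2.2
      rw [hk, hk'] at h6
      exact h6.symm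
    · rw [if_neg hq'] at h2
      exact h2
  rw [hr] at hz1
  exact absurd hz1 (not_lt.2 hz2.le)

theorem spread_le
    (hf : ∀ δ, InjOn (f δ) (Iio δ))
    (hc : ∀ (T : Type), Cardinal.mk T ≤ Cardinal.aleph 1 →
      ∀ (n : ℕ) (a : Th → Fin n → Th) (τ : Th → T),
      (∀ ξ, StrictMono (a ξ)) → (∀ ξ, ∃ k, ξ ≤ a ξ k) →
      ∃ (n0 : ℕ) (t : T) (R : Fin n → Th), n0 < n ∧
      ∀ (bd : Th) (J : Th → Set Th), (∀ α, (J α).Countable) →
      ∀ M : Fin n → Fin n → Qc, ∃ ξ η, bd < ξ ∧ bd < η ∧ τ ξ = t ∧ τ η = t ∧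
        (∀ k : Fin n, k.1 < n0 → a ξ k = R k ∧ a η k = R k) ∧
        ∀ k l : Fin n, n0 ≤ k.1 → n0 ≤ l.1 →
          a ξ l < a η k ∧ c (a ξ l) (a η k) = M k l ∧ a ξ l ∉ J (a η k))
    (D : Set (SX c f dd yy → ℝ)) (hD : ∀ d ∈ D, Continuous d)
    (hdisc : ∀ d ∈ D, ∃ U : Set (SX c f dd yy → ℝ), IsOpen U ∧ U ∩ D = {d}) :
    Cardinal.mk D ≤ Cardinal.aleph 1 := by
  classical
  by_contra hcon
  rw [not_le] at hcon
  have hcard : Cardinal.mk Th ≤ Cardinal.mk D := by
    rw [mk_Th, aleph2_eq]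
    exact Order.succ_le_of_lt hcon
  obtain ⟨φ⟩ := hcard
  -- neighbourhoods
  have h2 : ∀ ξ, ∃ (s : Finset (SX c f dd yy)) (m : ℕ), ∀ g ∈ D,
      (∀ y ∈ s, |g y - (φ ξ).1 y| < 1 / ((m : ℝ) + 1)) → g = (φ ξ).1 := by
    intro ξ
    obtain ⟨U, hU, hUD⟩ := hdisc (φ ξ).1 (φ ξ).2
    have hmem : (φ ξ).1 ∈ U := by
      have : (φ ξ).1 ∈ U ∩ D := by rw [hUD]; rfl
      exact this.1
    obtain ⟨s, u, hsu, hsub⟩ := isOpen_pi_iff.1 hU _ hmem
    have h3 : ∀ y : SX c f dd yy, ∃ m : ℕ, y ∈ s →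
        Metric.ball ((φ ξ).1 y) (1 / ((m : ℝ) + 1)) ⊆ u y := by
      intro y
      by_cases hy : y ∈ s
      · obtain ⟨δ, hδ, hball⟩ := Metric.isOpen_iff.1 (hsu y hy).1 _ (hsu y hy).2
        obtain ⟨m, hm⟩ := exists_nat_one_div_lt hδ
        exact ⟨m, fun _ => (Metric.ball_subset_ball hm.le).trans hball⟩
      · exact ⟨0, fun h => absurd h hy⟩
    choose m hm using h3
    refine ⟨s, s.sup m, fun g hg hclose => ?_⟩
    have : g ∈ U ∩ D := by
      refine ⟨hsub fun y hy => hm y hy ?_, hg⟩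
      rw [Metric.mem_ball, Real.dist_eq]
      refine (hclose y hy).trans_le ?_
      apply one_div_le_one_div_of_le (by positivity)
      have : m y ≤ s.sup m := Finset.le_sup (f := m) hy
      have : (m y : ℝ) ≤ ((s.sup m : ℕ) : ℝ) := by exact_mod_cast this
      linarith
    rw [hUD] at this
    exact this
  choose E m hE using h2
  -- finite supports
  have h4 : ∀ ξ, ∃ u : Finset Co, ∀ x ∈ E ξ, ∀ z : SX c f dd yy,
      (∀ q ∈ u, z.1 q = x.1 q) → |(φ ξ).1 z - (φ ξ).1 x| < 1 / ((m ξ : ℝ) + 1) / 4 := by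
    intro ξ
    have h5 : ∀ x : SX c f dd yy, ∃ u : Finset Co, ∀ z : SX c f dd yy,
        (∀ q ∈ u, z.1 q = x.1 q) → |(φ ξ).1 z - (φ ξ).1 x| < 1 / ((m ξ : ℝ) + 1) / 4 := by
      intro x
      have hcont := hD _ (φ ξ).2
      have hopen : IsOpen {z | |(φ ξ).1 z - (φ ξ).1 x| < 1 / ((m ξ : ℝ) + 1) / 4} :=
        isOpen_lt ((hcont.sub continuous_const).abs) continuous_const
      exact open_nbhd hopen (x := x) (by
        show |(φ ξ).1 x - (φ ξ).1 x| < 1 / ((m ξ : ℝ) + 1) / 4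
        rw [sub_self, abs_zero]
        positivity)
    choose u hu using h5
    exact ⟨(E ξ).biUnion u, fun x hx z hz =>
      hu x z fun q hq => hz q (Finset.mem_biUnion.2 ⟨x, hx, hq⟩)⟩
  choose u hu using h4
  have h5 : ∀ ξ (x : SX c f dd yy), ∃ r : ℚ, |(φ ξ).1 x - r| < 1 / ((m ξ : ℝ) + 1) / 4 := by
    intro ξ x
    obtain ⟨r, hr⟩ := exists_rat_near ((φ ξ).1 x)
      (show (0 : ℝ) < 1 / ((m ξ : ℝ) + 1) / 4 by positivity)
    exact ⟨r, hr⟩
  choose rq hrq using h5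
  have h6 : ∀ x : SX c f dd yy, ∃ p : Pt, xx c f dd yy p = x.1 := fun x => x.2
  choose ix hix using h6
  let pp : Pt → SX c f dd yy := fun p => ⟨xx c f dd yy p, p, rfl⟩
  have hpp : ∀ x, pp (ix x) = x := fun x => Subtype.ext (hix x)
  let F : Th → Finset Pt := fun ξ => (E ξ).image ix
  have hF : ∀ ξ p, p ∈ F ξ → pp p ∈ E ξ := by
    intro ξ p hp
    obtain ⟨x, hx, rfl⟩ := Finset.mem_image.1 hp
    rw [hpp]
    exact hx
  let A : Th → Finset Th := fun γ => insert γ ((u γ).image Prod.fst ∪ (F γ).image Prod.fst)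
  obtain ⟨n, θ, a, hθ, ha, hA, hθa⟩ := reindex A fun ξ => Finset.mem_insert_self _ _
  -- data
  let PP : Th → Finset (Fin n × ℕ × Om × ℚ) := fun γ => Finset.univ.biUnion fun l : Fin n =>
    ((F (θ γ)).filter fun p => p.1 = a γ l).image
      fun p => (l, p.2.1, p.2.2, rq (θ γ) (pp p))
  have hPP : ∀ γ l nn i r, (l, nn, i, r) ∈ PP γ ↔
      (a γ l, nn, i) ∈ F (θ γ) ∧ rq (θ γ) (pp (a γ l, nn, i)) = r := by
    intro γ l nn i r
    simp only [PP, Finset.mem_biUnion, Finset.mem_univ, true_and, Finset.mem_image,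
      Finset.mem_filter, Prod.mk.injEq]
    constructor
    · rintro ⟨l', ⟨p1, p2, p3⟩, ⟨h1, h2⟩, rfl, rfl, rfl, rfl⟩
      dsimp only at h2
      subst h2
      exact ⟨h1, rfl⟩
    · rintro ⟨h1, rfl⟩
      exact ⟨l, (a γ l, nn, i), ⟨h1, rfl⟩, rfl, rfl, rfl, rfl⟩
  let CC : Th → Finset (Fin n × Om) := fun γ => Finset.univ.biUnion fun k : Fin n =>
    ((u (θ γ)).filter fun q => q.1 = a γ k).image fun q => (k, q.2)
  have hCC : ∀ γ k cc, (k, cc) ∈ CC γ ↔ (a γ k, cc) ∈ u (θ γ) := by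
    intro γ k cc
    simp only [CC, Finset.mem_biUnion, Finset.mem_univ, true_and, Finset.mem_image,
      Finset.mem_filter, Prod.mk.injEq]
    constructor
    · rintro ⟨k', ⟨q1, q2⟩, ⟨h1, h2⟩, rfl, rfl⟩
      dsimp only at h2
      subst h2
      exact h1
    · intro h1
      exact ⟨k, (a γ k, cc), ⟨h1, rfl⟩, rfl, rfl⟩
  let BB : Th → Finset ((Fin n × ℕ × Om) × (Fin n × Om) × Bool) := fun γ =>
    Finset.univ.biUnion fun l : Fin n => Finset.univ.biUnion fun k : Fin n =>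
      (((F (θ γ)).filter fun p => p.1 = a γ l) ×ˢ
        ((u (θ γ)).filter fun q => q.1 = a γ k)).image
        fun pq => ((l, pq.1.2), (k, pq.2.2), xx c f dd yy pq.1 pq.2)
  have hBB : ∀ γ l nn i k cc b, ((l, nn, i), (k, cc), b) ∈ BB γ ↔
      (a γ l, nn, i) ∈ F (θ γ) ∧ (a γ k, cc) ∈ u (θ γ) ∧
        xx c f dd yy (a γ l, nn, i) (a γ k, cc) = b := by
    intro γ l nn i k cc b
    simp only [BB, Finset.mem_biUnion, Finset.mem_univ, true_and, Finset.mem_image,
      Finset.mem_filter, Finset.mem_product, Prod.mk.injEq]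
    constructor
    · rintro ⟨l', k', ⟨⟨p1, p2, p3⟩, ⟨q1, q2⟩⟩, ⟨⟨h1, h2⟩, h3, h4⟩, ⟨rfl, h5⟩, ⟨rfl, h6⟩, rfl⟩
      dsimp only at h2 h4 h5 h6
      obtain ⟨rfl, rfl⟩ := Prod.mk.inj h5
      subst h2 h4 h6
      exact ⟨h1, h3, rfl⟩
    · rintro ⟨h1, h2, rfl⟩
      exact ⟨l, k, ((a γ l, nn, i), (a γ k, cc)), ⟨⟨h1, rfl⟩, h2, rfl⟩, ⟨rfl, rfl⟩, ⟨rfl, rfl⟩, rfl⟩
  obtain ⟨n0, t, R, hn0, hpair⟩ := hc (ℕ × Finset (Fin n × ℕ × Om × ℚ) × Finset (Fin n × Om) ×
      Finset ((Fin n × ℕ × Om) × (Fin n × Om) × Bool))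
    (by
      have o := le_of_eq mk_Om
      have fn := mk_le_of_countable (Fin n)
      have nat := mk_le_of_countable ℕ
      exact mk_prod_le _ _ nat (mk_prod_le _ _
        (mk_finset_le _ (mk_prod_le _ _ fn (mk_prod_le _ _ nat
          (mk_prod_le _ _ o (mk_le_of_countable ℚ)))))
        (mk_prod_le _ _ (mk_finset_le _ (mk_prod_le _ _ fn o))
          (mk_finset_le _ (mk_prod_le _ _ (mk_prod_le _ _ fn (mk_prod_le _ _ nat o))
            (mk_prod_le _ _ (mk_prod_le _ _ fn o) (mk_le_of_countable Bool)))))))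
    n a (fun γ => (m (θ γ), PP γ, CC γ, BB γ)) ha (fun γ => by
      obtain ⟨k, hk⟩ := (hA γ (θ γ)).1 (Finset.mem_insert_self _ _)
      exact ⟨k, by rw [hk]; exact (hθ γ).le⟩)
  obtain ⟨cs, hcs⟩ := bdd_Om (A := (t.2.2.1.image Prod.snd : Set Om))
    (Finset.countable_toSet _)
  have hJ : ∀ α, {β | β < α ∧ f α β < cs}.Countable := by
    intro α
    have h1 : InjOn (f α) {β | β < α ∧ f α β < cs} := (hf α).mono fun β hβ => hβ.1
    refine Set.countable_of_injective_of_countable_image h1 ((mk_Iio_Om cs).mono ?_)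
    rintro _ ⟨β, hβ, rfl⟩
    exact hβ.2
  obtain ⟨ξ, η, hξ, hη, hτξ, hτη, hroot, hcol⟩ := hpair (Classical.arbitrary Th)
    (fun α => {β | β < α ∧ f α β < cs}) hJ
    (fun k l => (t.2.2.2.filter fun x => x.1.1 = l ∧ x.2.1.1 = k).image
      fun x => (x.1.2.1, x.1.2.2, x.2.1.2, x.2.2))
  have hMmem : ∀ (k l : Fin n) (nn : ℕ) (i cc : Om) (b : Bool),
      (nn, i, cc, b) ∈ (t.2.2.2.filter fun x => x.1.1 = l ∧ x.2.1.1 = k).image
        (fun x => (x.1.2.1, x.1.2.2, x.2.1.2, x.2.2)) ↔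
      ((l, nn, i), (k, cc), b) ∈ t.2.2.2 := by
    intro k l nn i cc b
    simp only [Finset.mem_image, Finset.mem_filter, Prod.mk.injEq]
    constructor
    · rintro ⟨⟨⟨l', nn', i'⟩, ⟨k', cc'⟩, b'⟩, ⟨h1, rfl, rfl⟩, rfl, rfl, rfl, rfl⟩
      exact h1
    · intro h1
      exact ⟨((l, nn, i), (k, cc), b), ⟨h1, rfl, rfl⟩, rfl, rfl, rfl, rfl⟩
  simp only [Prod.ext_iff] at hτξ hτη
  obtain ⟨hmξ, hPξ, hCξ, hBξ⟩ := hτξ
  obtain ⟨hmη, hPη, hCη, hBη⟩ := hτη
  set ε : ℝ := 1 / ((m (θ ξ) : ℝ) + 1) with hε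
  have hε0 : 0 < ε := by positivity
  have hεη : 1 / ((m (θ η) : ℝ) + 1) = ε := by rw [hε, hmξ, hmη]
  have heq : (φ (θ η)).1 = (φ (θ ξ)).1 := by
    apply hE (θ ξ) _ (φ (θ η)).2
    intro x hx
    -- the point
    have hxF : ix x ∈ F (θ ξ) := Finset.mem_image_of_mem _ hx
    obtain ⟨l, hl⟩ := (hA ξ (ix x).1).1 (Finset.mem_insert_of_mem (Finset.mem_union_right _
      (Finset.mem_image_of_mem _ hxF)))
    obtain ⟨p1, nn, i, hp⟩ : ∃ p1 nn i, ix x = (p1, nn, i) := ⟨_, _, _, rfl⟩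
    rw [hp] at hl hxF
    dsimp only at hl
    subst hl
    have hxp : x = pp (a ξ l, nn, i) := by rw [← hp, hpp]
    have h7 : (l, nn, i, rq (θ ξ) x) ∈ PP ξ := by
      rw [hPP]
      exact ⟨hxF, by rw [← hxp]⟩
    rw [hPξ, ← hPη, hPP] at h7
    obtain ⟨h8, h9⟩ := h7
    set x' := pp (a η l, nn, i) with hx'
    have hx'E : x' ∈ E (θ η) := hF _ _ h8
    -- agreement on coordinates
    have hag : ∀ q ∈ u (θ η), x.1 q = x'.1 q := by
      rintro ⟨q1, cc⟩ hq
      obtain ⟨k, hk⟩ := (hA η q1).1 (Finset.mem_insert_of_mem (Finset.mem_union_left _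
        (Finset.mem_image_of_mem Prod.fst hq)))
      subst hk
      have hbit : ((l, nn, i), (k, cc), x'.1 (a η k, cc)) ∈ BB η := by
        rw [hBB]
        exact ⟨h8, hq, rfl⟩
      have hbit2 : ∀ b, ((l, nn, i), (k, cc), b) ∈ BB η → b = x'.1 (a η k, cc) := by
        intro b hb
        rw [hBB] at hb
        exact hb.2.2.symm
      by_cases hk : k.1 < n0
      · have h10 := hbit
        rw [hBη, ← hBξ, hBB] at h10
        have h11 : a η k = a ξ k := by rw [(hroot k hk).1, (hroot k hk).2]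
        rw [hxp, h11]
        rw [h11] at h10
        exact h10.2.2
      · by_cases hl : l.1 < n0
        · have h11 : a η l = a ξ l := by rw [(hroot l hl).1, (hroot l hl).2]
          rw [hxp, hx', h11]
        · obtain ⟨hlt, hcl, hJl⟩ := hcol k l (not_lt.1 hk) (not_lt.1 hl)
          rw [hBη] at hbit
          rw [hBη] at hbit2
          have hccs : cc < cs := by
            apply hcs
            have : (k, cc) ∈ CC η := (hCC η k cc).2 hq
            rw [hCη] at this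
            exact Finset.mem_coe.2 (Finset.mem_image_of_mem Prod.snd this)
          have hnf : ¬ f (a η k) (a ξ l) < cc := fun h => hJl ⟨hlt, h.trans hccs⟩
          rw [hxp]
          show xx c f dd yy (a ξ l, nn, i) (a η k, cc) = x'.1 (a η k, cc)
          unfold xx
          rw [if_pos hlt, if_neg (fun h => hnf h.1), hcl]
          unfold ev
          dsimp only
          rw [if_congr (hMmem k l nn i cc true) rfl rfl,
            if_congr (hMmem k l nn i cc false) rfl rfl]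
          by_cases ht : ((l, nn, i), (k, cc), true) ∈ t.2.2.2
          · rw [if_pos ht]
            exact hbit2 _ ht
          · rw [if_neg ht]
            by_cases hf' : ((l, nn, i), (k, cc), false) ∈ t.2.2.2
            · rw [if_pos hf']
              exact hbit2 _ hf'
            · exfalso
              rcases Bool.eq_false_or_eq_true (x'.1 (a η k, cc)) with h12 | h12
              · rw [h12] at hbit
                exact ht hbit
              · rw [h12] at hbit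
                exact hf' hbit
    have e1 := hu (θ η) x' hx'E x hag
    have e2 := hrq (θ η) x'
    have e3 := hrq (θ ξ) x
    rw [h9] at e2
    rw [hεη] at e1 e2
    rw [← hε] at e3
    rw [abs_lt] at e1 e2 e3 ⊢
    constructor <;> linarith
  have hθ' : θ η = θ ξ := φ.injective (Subtype.ext heq)
  have hlt := (hcol ⟨n0, hn0⟩ ⟨n0, hn0⟩ le_rfl le_rfl).1
  rw [hθa η ξ hθ'] at hlt
  exact lt_irrefl _ hlt

theorem main577 : ¬ (∀ (X : Type) [TopologicalSpace X] [T35Space X],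
      (∀ D : Set (X → ℝ), (∀ d ∈ D, Continuous d) →
        (∀ d ∈ D, ∃ U : Set (X → ℝ), IsOpen U ∧ U ∩ D = {d}) →
        ∀ f ∈ closure D, Continuous f →
          ∃ 𝒰 : Set (Set (X → ℝ)), 𝒰.Countable ∧ (∀ U ∈ 𝒰, IsOpen U ∧ f ∈ U) ∧
            ⋂₀ 𝒰 ∩ {g | g ∈ closure D ∧ Continuous g} = {f}) →
      TopologicalSpace.SeparableSpace X) := by
  intro hall
  obtain ⟨c, hc⟩ := exists_pr0J Qc mk_Qc
  obtain ⟨f, hf⟩ := exists_inj_Om
  obtain ⟨dd, hdd⟩ := exists_dd
  obtain ⟨yy, hyy⟩ := exists_yy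
  refine not_separable (c := c) (f := f) hdd hyy (hall (SX c f dd yy) ?_)
  intro D hD hdisc h hh hcont
  have hsm := spread_le (dd := dd) (yy := yy) hf hc D hD hdisc
  -- a common level
  have hlev : ∃ γ : Th, ∀ d ∈ D, ∀ x y : SX c f dd yy, (∀ q : Co, q.1 ≤ γ → x.1 q = y.1 q) →
      d x = d y := by
    have h1 : ∀ d : D, ∃ γ : Th, ∀ x y : SX c f dd yy, (∀ q : Co, q.1 ≤ γ → x.1 q = y.1 q) →
        d.1 x = d.1 y := fun d => exists_inv hdd hyy d.1 (hD d.1 d.2)
    choose γ hγ using h1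
    have hs : StrongColor.Small (range γ) := Cardinal.mk_range_le.trans hsm
    obtain ⟨b, hb⟩ := hs.bdd
    refine ⟨b, fun d hd x y hxy => hγ ⟨d, hd⟩ x y fun q hq => hxy q (hq.trans ?_)⟩
    exact (hb _ ⟨⟨d, hd⟩, rfl⟩).le
  obtain ⟨γ, hγ⟩ := hlev
  have hcl : ∀ g ∈ closure D, ∀ x y : SX c f dd yy, (∀ q : Co, q.1 ≤ γ → x.1 q = y.1 q) →
      g x = g y := by
    intro g hg x y hxy
    have hclosed : IsClosed {g : SX c f dd yy → ℝ | g x = g y} :=
      isClosed_eq (continuous_apply x) (continuous_apply y)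
    exact closure_minimal (fun d hd => hγ d hd x y hxy) hclosed hg
  let i0 : Om := Classical.arbitrary Om
  let z : ℕ → SX c f dd yy := fun n => ⟨xx c f dd yy (γ, n, i0), _, rfl⟩
  refine ⟨range fun nm : ℕ × ℕ => {g | |g (z nm.1) - h (z nm.1)| < 1 / ((nm.2 : ℝ) + 1)},
    countable_range _, ?_, ?_⟩
  · rintro _ ⟨nm, rfl⟩
    refine ⟨isOpen_lt (((continuous_apply _).sub continuous_const).abs) continuous_const, ?_⟩
    show |h (z nm.1) - h (z nm.1)| < _
    rw [sub_self, abs_zero]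
    positivity
  · ext g
    constructor
    · rintro ⟨hg1, hg2, hg3⟩
      have hz : ∀ n, g (z n) = h (z n) := by
        intro n
        have h1 : ∀ m : ℕ, |g (z n) - h (z n)| < 1 / ((m : ℝ) + 1) := fun m =>
          hg1 _ ⟨(n, m), rfl⟩
        by_contra hne
        have hpos : 0 < |g (z n) - h (z n)| := abs_pos.2 (sub_ne_zero.2 hne)
        obtain ⟨m, hm⟩ := exists_nat_one_div_lt hpos
        exact absurd (h1 m) (not_lt.2 hm.le)
      have hdense := dense_level (c := c) (f := f) hdd hyy γ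
      refine Continuous.ext_on hdense hg3 hcont ?_
      rintro x ⟨n, i, hx⟩
      have hxz : ∀ q : Co, q.1 ≤ γ → x.1 q = (z n).1 q := by
        intro q hq
        rw [hx]
        exact xx_same hq
      rw [hcl g hg2 x (z n) hxz, hcl h hh x (z n) hxz]
      exact hz n
    · intro hg
      have hg : g = h := hg
      subst hg
      refine ⟨?_, hh, hcont⟩
      rintro _ ⟨nm, rfl⟩
      show |g (z nm.1) - g (z nm.1)| < _
      rw [sub_self, abs_zero]
      positivity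

end main577

end Pool.Agent.Helper220.ClosureDisc
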