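import Mathlib
import Pool.Agent.Helper220.StrongColor
import Pool.Agent.Helper220.StrongColorB
import Pool.Agent.Helper220.ClosureDisc

set_option autoImplicit false
set_option linter.all false

open Set

namespace Pool.Agent.Helper220.RealCp

open Pool.Agent.Helper220.StrongColor
open Pool.Agent.Helper220.StrongColorB
open Pool.Agent.Helper220.ClosureDisc

universe u


section rc

variable {c : Th → Th → Qc} {f : Th → Th → Om} {dd : Co → Om → Bool}
  {yy : Th → ℕ → Co → Bool} {X : Type u} [TopologicalSpace X] {val : X → Co → Bool}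

lemma open_nbhd (hval : Topology.IsInducing val) {U : Set X} (hU : IsOpen U) {x : X}
    (hx : x ∈ U) : ∃ v : Finset Co, ∀ z : X, (∀ q ∈ v, val z q = val x q) → z ∈ U := by
  obtain ⟨V, hV, rfl⟩ := hval.isOpen_iff.1 hU
  obtain ⟨v, u, hvu, hsub⟩ := isOpen_pi_iff.1 hV (val x) hx
  refine ⟨v, fun z hz => hsub fun q hq => ?_⟩
  show val z q ∈ u q
  rw [hz q hq]
  exact (hvu q hq).2

lemma exists_inv
    (hval : Topology.IsInducing val)
    (hdense : ∀ (v : Finset Co) (s : Co → Bool), ∃ z : X, ∀ q ∈ v, val z q = s q)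
    (g : X → ℝ) (hg : Continuous g) :
    ∃ γ : Th, ∀ x y : X, (∀ q : Co, q.1 ≤ γ → val x q = val y q) → g x = g y := by
  classical
  by_contra hcon
  push Not at hcon
  have h1 : ∀ γ : Th, ∃ (x y : X) (r : ℚ) (v : Finset Co),
      (∀ q : Co, q.1 ≤ γ → val x q = val y q) ∧
      (∀ z : X, (∀ q ∈ v, val z q = val x q) → g z < r) ∧
      (∀ z : X, (∀ q ∈ v, val z q = val y q) → (r : ℝ) < g z) := by
    intro γ
    obtain ⟨x, y, hxy, hne⟩ := hcon γ
    have key : ∀ x y : X, (∀ q : Co, q.1 ≤ γ → val x q = val y q) → g x < g y →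
        ∃ (x y : X) (r : ℚ) (v : Finset Co),
        (∀ q : Co, q.1 ≤ γ → val x q = val y q) ∧
        (∀ z : X, (∀ q ∈ v, val z q = val x q) → g z < r) ∧
        (∀ z : X, (∀ q ∈ v, val z q = val y q) → (r : ℝ) < g z) := by
      intro x y hxy hlt
      obtain ⟨r, hr1, hr2⟩ := exists_rat_btwn hlt
      obtain ⟨v1, hv1⟩ := open_nbhd hval (isOpen_lt hg continuous_const) (x := x)
        (show g x < (r : ℝ) from hr1)
      obtain ⟨v2, hv2⟩ := open_nbhd hval (isOpen_lt continuous_const hg) (x := y)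
        (show (r : ℝ) < g y from hr2)
      exact ⟨x, y, r, v1 ∪ v2, hxy,
        fun z hz => hv1 z fun q hq => hz q (Finset.mem_union_left _ hq),
        fun z hz => hv2 z fun q hq => hz q (Finset.mem_union_right _ hq)⟩
    rcases lt_or_gt_of_ne hne with h | h
    · exact key x y hxy h
    · exact key y x (fun q hq => (hxy q hq).symm) h
  choose x y r u hxy hx hy using h1
  let A : Th → Finset Th := fun γ => insert γ ((u γ).image Prod.fst)
  obtain ⟨n, θ, a, hθ, ha, hA, -⟩ := reindex A fun ξ => Finset.mem_insert_self _ _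
  let W : Th → Finset (Fin n × Om × Bool × Bool) := fun γ => Finset.univ.biUnion fun k : Fin n =>
    ((u (θ γ)).filter fun q => q.1 = a γ k).image
      fun q => (k, q.2, val (x (θ γ)) q, val (y (θ γ)) q)
  have hW : ∀ γ k cc b1 b2, (k, cc, b1, b2) ∈ W γ ↔
      (a γ k, cc) ∈ u (θ γ) ∧ val (x (θ γ)) (a γ k, cc) = b1 ∧ val (y (θ γ)) (a γ k, cc) = b2 := by
    intro γ k cc b1 b2
    simp only [W, Finset.mem_biUnion, Finset.mem_univ, true_and, Finset.mem_image,
      Finset.mem_filter, Prod.mk.injEq]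
    constructor
    · rintro ⟨k', ⟨q1, q2⟩, ⟨h1, h2⟩, rfl, rfl, rfl, rfl⟩
      dsimp only at h2
      subst h2
      exact ⟨h1, rfl, rfl⟩
    · rintro ⟨h1, rfl, rfl⟩
      exact ⟨k, (a γ k, cc), ⟨h1, rfl⟩, rfl, rfl, rfl, rfl⟩
  obtain ⟨c0, hc0⟩ := exists_pr0J Bool (mk_le_of_countable Bool)
  obtain ⟨n0, t, R, hn0, hpair⟩ := hc0 (ℚ × Finset (Fin n × Om × Bool × Bool))
    (mk_prod_le _ _ (mk_le_of_countable ℚ) (mk_finset_le _ (mk_prod_le _ _
      (mk_le_of_countable _) (mk_prod_le _ _ (le_of_eq mk_Om) (mk_le_of_countable _)))))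
    n a (fun γ => (r (θ γ), W γ)) ha (fun γ => by
      obtain ⟨k, hk⟩ := (hA γ (θ γ)).1 (Finset.mem_insert_self _ _)
      exact ⟨k, by rw [hk]; exact (hθ γ).le⟩)
  obtain ⟨bd, hbd⟩ := (StrongColor.Small.of_countable (countable_range R)).bdd
  obtain ⟨ξ, η, hξ, hη, hτξ, hτη, hroot, hcol⟩ := hpair bd (fun _ => ∅)
    (fun _ => countable_empty) (fun _ _ => true)
  have hτ : (r (θ ξ), W ξ) = (r (θ η), W η) := hτξ.trans hτη.symm
  have hr : r (θ ξ) = r (θ η) := congrArg Prod.fst hτ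
  have hWW : W ξ = W η := congrArg Prod.snd hτ
  have hlt : ∀ k l : Fin n, n0 ≤ k.1 → n0 ≤ l.1 → a ξ l < a η k := fun k l hk hl =>
    (hcol k l hk hl).1
  obtain ⟨z, hz⟩ := hdense (u (θ ξ) ∪ u (θ η))
    (fun q => if q ∈ u (θ ξ) then val (x (θ ξ)) q else val (y (θ η)) q)
  have hz1 : g z < r (θ ξ) := by
    apply hx (θ ξ)
    intro q hq
    have := hz q (Finset.mem_union_left _ hq)
    rw [if_pos hq] at this
    exact this
  have hz2 : (r (θ η) : ℝ) < g z := by
    apply hy (θ η)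
    intro q hq
    have h2 := hz q (Finset.mem_union_right _ hq)
    by_cases hq' : q ∈ u (θ ξ)
    · rw [if_pos hq'] at h2
      have h3 : val z q = val (x (θ ξ)) q := h2
      rw [h3]
      obtain ⟨q1, cc⟩ := q
      obtain ⟨k, hk⟩ := (hA ξ q1).1 (Finset.mem_insert_of_mem
        (Finset.mem_image_of_mem Prod.fst hq'))
      obtain ⟨k', hk'⟩ := (hA η q1).1 (Finset.mem_insert_of_mem
        (Finset.mem_image_of_mem Prod.fst hq))
      obtain ⟨rfl, hkn⟩ := root_match ha hroot hlt (hk.trans hk'.symm)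
      have h4 : (k, cc, val (x (θ ξ)) (a ξ k, cc), val (y (θ ξ)) (a ξ k, cc)) ∈ W ξ := by
        rw [hW]
        exact ⟨by rw [hk]; exact hq', rfl, rfl⟩
      rw [hWW, hW] at h4
      have h5 : val (x (θ ξ)) (q1, cc) = val (y (θ ξ)) (q1, cc) := by
        apply hxy
        show q1 ≤ θ ξ
        rw [← hk, (hroot k hkn).1]
        exact ((hbd _ (mem_range_self k)).trans (hξ.trans (hθ ξ))).le
      rw [h5]
      have h6 := h4.2.2
      rw [hk, hk'] at h6
      exact h6.symm
    · rw [if_neg hq'] at h2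
      exact h2
  rw [hr] at hz1
  exact absurd hz1 (not_lt.2 hz2.le)

theorem spread_le (hval : Topology.IsInducing val) (pp : Pt → X) (p0 : X)
    (hpp : ∀ p, val (pp p) = xx c f dd yy p) (hcov : ∀ x, x = p0 ∨ ∃ p, pp p = x)
    (hf : ∀ δ, InjOn (f δ) (Iio δ))
    (hc : ∀ (T : Type), Cardinal.mk T ≤ Cardinal.aleph 1 →
      ∀ (n : ℕ) (a : Th → Fin n → Th) (τ : Th → T),
      (∀ ξ, StrictMono (a ξ)) → (∀ ξ, ∃ k, ξ ≤ a ξ k) →
      ∃ (n0 : ℕ) (t : T) (R : Fin n → Th), n0 < n ∧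
      ∀ (bd : Th) (J : Th → Set Th), (∀ α, (J α).Countable) →
      ∀ M : Fin n → Fin n → Qc, ∃ ξ η, bd < ξ ∧ bd < η ∧ τ ξ = t ∧ τ η = t ∧
        (∀ k : Fin n, k.1 < n0 → a ξ k = R k ∧ a η k = R k) ∧
        ∀ k l : Fin n, n0 ≤ k.1 → n0 ≤ l.1 →
          a ξ l < a η k ∧ c (a ξ l) (a η k) = M k l ∧ a ξ l ∉ J (a η k))
    (D : Set (X → ℝ)) (hD : ∀ d ∈ D, Continuous d)
    (hdisc : ∀ d ∈ D, ∃ U : Set (X → ℝ), IsOpen U ∧ U ∩ D = {d}) :
    ¬ ∃ φ : Th → D, Function.Injective φ := by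
  classical
  rintro ⟨φ, hφinj⟩
  -- neighbourhoods
  have h2 : ∀ ξ, ∃ (s : Finset (X)) (m : ℕ), ∀ g ∈ D,
      (∀ y ∈ s, |g y - (φ ξ).1 y| < 1 / ((m : ℝ) + 1)) → g = (φ ξ).1 := by
    intro ξ
    obtain ⟨U, hU, hUD⟩ := hdisc (φ ξ).1 (φ ξ).2
    have hmem : (φ ξ).1 ∈ U := by
      have : (φ ξ).1 ∈ U ∩ D := by rw [hUD]; rfl
      exact this.1
    obtain ⟨s, u, hsu, hsub⟩ := isOpen_pi_iff.1 hU _ hmem
    have h3 : ∀ y : X, ∃ m : ℕ, y ∈ s →
        Metric.ball ((φ ξ).1 y) (1 / ((m : ℝ) + 1)) ⊆ u y := by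
      intro y
      by_cases hy : y ∈ s
      · obtain ⟨δ, hδ, hball⟩ := Metric.isOpen_iff.1 (hsu y hy).1 _ (hsu y hy).2
        obtain ⟨m, hm⟩ := exists_nat_one_div_lt hδ
        exact ⟨m, fun _ => (Metric.ball_subset_ball hm.le).trans hball⟩
      · exact ⟨0, fun h => absurd h hy⟩
    choose m hm using h3
    refine ⟨s, s.sup m, fun g hg hclose => ?_⟩
    have : g ∈ U ∩ D := by
      refine ⟨hsub fun y hy => hm y hy ?_, hg⟩
      rw [Metric.mem_ball, Real.dist_eq]
      refine (hclose y hy).trans_le ?_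
      apply one_div_le_one_div_of_le (by positivity)
      have : m y ≤ s.sup m := Finset.le_sup (f := m) hy
      have : (m y : ℝ) ≤ ((s.sup m : ℕ) : ℝ) := by exact_mod_cast this
      linarith
    rw [hUD] at this
    exact this
  choose E m hE using h2
  -- finite supports
  have h4 : ∀ ξ, ∃ u : Finset Co, ∀ x ∈ E ξ, ∀ z : X,
      (∀ q ∈ u, val z q = val x q) → |(φ ξ).1 z - (φ ξ).1 x| < 1 / ((m ξ : ℝ) + 1) / 4 := by
    intro ξ
    have h5 : ∀ x : X, ∃ u : Finset Co, ∀ z : X,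
        (∀ q ∈ u, val z q = val x q) → |(φ ξ).1 z - (φ ξ).1 x| < 1 / ((m ξ : ℝ) + 1) / 4 := by
      intro x
      have hcont := hD _ (φ ξ).2
      have hopen : IsOpen {z | |(φ ξ).1 z - (φ ξ).1 x| < 1 / ((m ξ : ℝ) + 1) / 4} :=
        isOpen_lt ((hcont.sub continuous_const).abs) continuous_const
      exact open_nbhd hval hopen (x := x) (by
        show |(φ ξ).1 x - (φ ξ).1 x| < 1 / ((m ξ : ℝ) + 1) / 4
        rw [sub_self, abs_zero]
        positivity)
    choose u hu using h5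
    exact ⟨(E ξ).biUnion u, fun x hx z hz =>
      hu x z fun q hq => hz q (Finset.mem_biUnion.2 ⟨x, hx, hq⟩)⟩
  choose u hu using h4
  have h5 : ∀ ξ (x : X), ∃ r : ℚ, |(φ ξ).1 x - r| < 1 / ((m ξ : ℝ) + 1) / 4 := by
    intro ξ x
    obtain ⟨r, hr⟩ := exists_rat_near ((φ ξ).1 x)
      (show (0 : ℝ) < 1 / ((m ξ : ℝ) + 1) / 4 by positivity)
    exact ⟨r, hr⟩
  choose rq hrq using h5
  have h6 : ∀ x : X, ∃ p : Pt, x = p0 ∨ pp p = x := by
    intro x
    rcases hcov x with h | ⟨p, h⟩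
    · exact ⟨Classical.arbitrary Pt, Or.inl h⟩
    · exact ⟨p, Or.inr h⟩
  choose ix hix using h6
  let F : Th → Finset Pt := fun ξ => ((E ξ).filter fun x => pp (ix x) = x).image ix
  have hF : ∀ ξ p, p ∈ F ξ → pp p ∈ E ξ := by
    intro ξ p hp
    obtain ⟨x, hx, rfl⟩ := Finset.mem_image.1 hp
    rw [(Finset.mem_filter.1 hx).2]
    exact (Finset.mem_filter.1 hx).1
  let A : Th → Finset Th := fun γ => insert γ ((u γ).image Prod.fst ∪ (F γ).image Prod.fst)
  obtain ⟨n, θ, a, hθ, ha, hA, hθa⟩ := reindex A fun ξ => Finset.mem_insert_self _ _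
  -- data
  let PP : Th → Finset (Fin n × ℕ × Om × ℚ) := fun γ => Finset.univ.biUnion fun l : Fin n =>
    ((F (θ γ)).filter fun p => p.1 = a γ l).image
      fun p => (l, p.2.1, p.2.2, rq (θ γ) (pp p))
  have hPP : ∀ γ l nn i r, (l, nn, i, r) ∈ PP γ ↔
      (a γ l, nn, i) ∈ F (θ γ) ∧ rq (θ γ) (pp (a γ l, nn, i)) = r := by
    intro γ l nn i r
    simp only [PP, Finset.mem_biUnion, Finset.mem_univ, true_and, Finset.mem_image,
      Finset.mem_filter, Prod.mk.injEq]
    constructor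
    · rintro ⟨l', ⟨p1, p2, p3⟩, ⟨h1, h2⟩, rfl, rfl, rfl, rfl⟩
      dsimp only at h2
      subst h2
      exact ⟨h1, rfl⟩
    · rintro ⟨h1, rfl⟩
      exact ⟨l, (a γ l, nn, i), ⟨h1, rfl⟩, rfl, rfl, rfl, rfl⟩
  let CC : Th → Finset (Fin n × Om) := fun γ => Finset.univ.biUnion fun k : Fin n =>
    ((u (θ γ)).filter fun q => q.1 = a γ k).image fun q => (k, q.2)
  have hCC : ∀ γ k cc, (k, cc) ∈ CC γ ↔ (a γ k, cc) ∈ u (θ γ) := by
    intro γ k cc
    simp only [CC, Finset.mem_biUnion, Finset.mem_univ, true_and, Finset.mem_image,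
      Finset.mem_filter, Prod.mk.injEq]
    constructor
    · rintro ⟨k', ⟨q1, q2⟩, ⟨h1, h2⟩, rfl, rfl⟩
      dsimp only at h2
      subst h2
      exact h1
    · intro h1
      exact ⟨k, (a γ k, cc), ⟨h1, rfl⟩, rfl, rfl⟩
  let BB : Th → Finset ((Fin n × ℕ × Om) × (Fin n × Om) × Bool) := fun γ =>
    Finset.univ.biUnion fun l : Fin n => Finset.univ.biUnion fun k : Fin n =>
      (((F (θ γ)).filter fun p => p.1 = a γ l) ×ˢ
        ((u (θ γ)).filter fun q => q.1 = a γ k)).image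
        fun pq => ((l, pq.1.2), (k, pq.2.2), xx c f dd yy pq.1 pq.2)
  have hBB : ∀ γ l nn i k cc b, ((l, nn, i), (k, cc), b) ∈ BB γ ↔
      (a γ l, nn, i) ∈ F (θ γ) ∧ (a γ k, cc) ∈ u (θ γ) ∧
        xx c f dd yy (a γ l, nn, i) (a γ k, cc) = b := by
    intro γ l nn i k cc b
    simp only [BB, Finset.mem_biUnion, Finset.mem_univ, true_and, Finset.mem_image,
      Finset.mem_filter, Finset.mem_product, Prod.mk.injEq]
    constructor
    · rintro ⟨l', k', ⟨⟨p1, p2, p3⟩, ⟨q1, q2⟩⟩, ⟨⟨h1, h2⟩, h3, h4⟩, ⟨rfl, h5⟩, ⟨rfl, h6⟩, rfl⟩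
      dsimp only at h2 h4 h5 h6
      obtain ⟨rfl, rfl⟩ := Prod.mk.inj h5
      subst h2 h4 h6
      exact ⟨h1, h3, rfl⟩
    · rintro ⟨h1, h2, rfl⟩
      exact ⟨l, k, ((a γ l, nn, i), (a γ k, cc)), ⟨⟨h1, rfl⟩, h2, rfl⟩, ⟨rfl, rfl⟩, ⟨rfl, rfl⟩, rfl⟩
  obtain ⟨n0, t, R, hn0, hpair⟩ := hc ((ℕ × ℚ) × Finset (Fin n × ℕ × Om × ℚ) × Finset (Fin n × Om) ×
      Finset ((Fin n × ℕ × Om) × (Fin n × Om) × Bool))
    (by
      have o := le_of_eq mk_Om
      have fn := mk_le_of_countable (Fin n)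
      have nat := mk_le_of_countable ℕ
      exact mk_prod_le _ _ (mk_prod_le _ _ nat (mk_le_of_countable ℚ)) (mk_prod_le _ _
        (mk_finset_le _ (mk_prod_le _ _ fn (mk_prod_le _ _ nat
          (mk_prod_le _ _ o (mk_le_of_countable ℚ)))))
        (mk_prod_le _ _ (mk_finset_le _ (mk_prod_le _ _ fn o))
          (mk_finset_le _ (mk_prod_le _ _ (mk_prod_le _ _ fn (mk_prod_le _ _ nat o))
            (mk_prod_le _ _ (mk_prod_le _ _ fn o) (mk_le_of_countable Bool)))))))
    n a (fun γ => ((m (θ γ), rq (θ γ) p0), PP γ, CC γ, BB γ)) ha (fun γ => by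
      obtain ⟨k, hk⟩ := (hA γ (θ γ)).1 (Finset.mem_insert_self _ _)
      exact ⟨k, by rw [hk]; exact (hθ γ).le⟩)
  obtain ⟨cs, hcs⟩ := bdd_Om (A := (t.2.2.1.image Prod.snd : Set Om))
    (Finset.countable_toSet _)
  have hJ : ∀ α, {β | β < α ∧ f α β < cs}.Countable := by
    intro α
    have h1 : InjOn (f α) {β | β < α ∧ f α β < cs} := (hf α).mono fun β hβ => hβ.1
    refine Set.countable_of_injective_of_countable_image h1 ((mk_Iio_Om cs).mono ?_)
    rintro _ ⟨β, hβ, rfl⟩
    exact hβ.2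
  obtain ⟨ξ, η, hξ, hη, hτξ, hτη, hroot, hcol⟩ := hpair (Classical.arbitrary Th)
    (fun α => {β | β < α ∧ f α β < cs}) hJ
    (fun k l => (t.2.2.2.filter fun x => x.1.1 = l ∧ x.2.1.1 = k).image
      fun x => (x.1.2.1, x.1.2.2, x.2.1.2, x.2.2))
  have hMmem : ∀ (k l : Fin n) (nn : ℕ) (i cc : Om) (b : Bool),
      (nn, i, cc, b) ∈ (t.2.2.2.filter fun x => x.1.1 = l ∧ x.2.1.1 = k).image
        (fun x => (x.1.2.1, x.1.2.2, x.2.1.2, x.2.2)) ↔
      ((l, nn, i), (k, cc), b) ∈ t.2.2.2 := by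
    intro k l nn i cc b
    simp only [Finset.mem_image, Finset.mem_filter, Prod.mk.injEq]
    constructor
    · rintro ⟨⟨⟨l', nn', i'⟩, ⟨k', cc'⟩, b'⟩, ⟨h1, rfl, rfl⟩, rfl, rfl, rfl, rfl⟩
      exact h1
    · intro h1
      exact ⟨((l, nn, i), (k, cc), b), ⟨h1, rfl, rfl⟩, rfl, rfl, rfl, rfl⟩
  simp only [Prod.ext_iff] at hτξ hτη
  obtain ⟨⟨hmξ, hrξ⟩, hPξ, hCξ, hBξ⟩ := hτξ
  obtain ⟨⟨hmη, hrη⟩, hPη, hCη, hBη⟩ := hτη
  set ε : ℝ := 1 / ((m (θ ξ) : ℝ) + 1) with hε
  have hε0 : 0 < ε := by positivity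
  have hεη : 1 / ((m (θ η) : ℝ) + 1) = ε := by rw [hε, hmξ, hmη]
  have heq : (φ (θ η)).1 = (φ (θ ξ)).1 := by
    apply hE (θ ξ) _ (φ (θ η)).2
    intro x hx
    by_cases hx0 : x = p0
    · subst hx0
      have e2 := hrq (θ η) x
      have e3 := hrq (θ ξ) x
      rw [hrη] at e2
      rw [hrξ] at e3
      rw [hεη] at e2
      rw [← hε] at e3
      rw [abs_lt] at e2 e3 ⊢
      constructor <;> linarith
    have hxx : pp (ix x) = x := (hix x).resolve_left hx0
    -- the point
    have hxF : ix x ∈ F (θ ξ) := Finset.mem_image_of_mem _ (Finset.mem_filter.2 ⟨hx, hxx⟩)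
    obtain ⟨l, hl⟩ := (hA ξ (ix x).1).1 (Finset.mem_insert_of_mem (Finset.mem_union_right _
      (Finset.mem_image_of_mem _ hxF)))
    obtain ⟨p1, nn, i, hp⟩ : ∃ p1 nn i, ix x = (p1, nn, i) := ⟨_, _, _, rfl⟩
    rw [hp] at hl hxF
    dsimp only at hl
    subst hl
    have hxp : x = pp (a ξ l, nn, i) := by rw [← hp, hxx]
    have h7 : (l, nn, i, rq (θ ξ) x) ∈ PP ξ := by
      rw [hPP]
      exact ⟨hxF, by rw [← hxp]⟩
    rw [hPξ, ← hPη, hPP] at h7
    obtain ⟨h8, h9⟩ := h7
    set x' := pp (a η l, nn, i) with hx'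
    have hx'E : x' ∈ E (θ η) := hF _ _ h8
    -- agreement on coordinates
    have hag : ∀ q ∈ u (θ η), val x q = val x' q := by
      rintro ⟨q1, cc⟩ hq
      obtain ⟨k, hk⟩ := (hA η q1).1 (Finset.mem_insert_of_mem (Finset.mem_union_left _
        (Finset.mem_image_of_mem Prod.fst hq)))
      subst hk
      have hbit : ((l, nn, i), (k, cc), val x' (a η k, cc)) ∈ BB η := by
        rw [hBB]
        exact ⟨h8, hq, by rw [hx', hpp]⟩
      have hbit2 : ∀ b, ((l, nn, i), (k, cc), b) ∈ BB η → b = val x' (a η k, cc) := by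
        intro b hb
        rw [hBB] at hb
        rw [hx', hpp]
        exact hb.2.2.symm
      by_cases hk : k.1 < n0
      · have h10 := hbit
        rw [hBη, ← hBξ, hBB] at h10
        have h11 : a η k = a ξ k := by rw [(hroot k hk).1, (hroot k hk).2]
        rw [hxp, hpp, h11]
        rw [h11] at h10
        exact h10.2.2
      · by_cases hl : l.1 < n0
        · have h11 : a η l = a ξ l := by rw [(hroot l hl).1, (hroot l hl).2]
          rw [hxp, hx', h11]
        · obtain ⟨hlt, hcl, hJl⟩ := hcol k l (not_lt.1 hk) (not_lt.1 hl)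
          rw [hBη] at hbit
          rw [hBη] at hbit2
          have hccs : cc < cs := by
            apply hcs
            have : (k, cc) ∈ CC η := (hCC η k cc).2 hq
            rw [hCη] at this
            exact Finset.mem_coe.2 (Finset.mem_image_of_mem Prod.snd this)
          have hnf : ¬ f (a η k) (a ξ l) < cc := fun h => hJl ⟨hlt, h.trans hccs⟩
          rw [hxp, hpp]
          unfold xx
          rw [if_pos hlt, if_neg (fun h => hnf h.1), hcl]
          unfold ev
          dsimp only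
          rw [if_congr (hMmem k l nn i cc true) rfl rfl,
            if_congr (hMmem k l nn i cc false) rfl rfl]
          by_cases ht : ((l, nn, i), (k, cc), true) ∈ t.2.2.2
          · rw [if_pos ht]
            exact hbit2 _ ht
          · rw [if_neg ht]
            by_cases hf' : ((l, nn, i), (k, cc), false) ∈ t.2.2.2
            · rw [if_pos hf']
              exact hbit2 _ hf'
            · exfalso
              rcases Bool.eq_false_or_eq_true (val x' (a η k, cc)) with h12 | h12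
              · rw [h12] at hbit
                exact ht hbit
              · rw [h12] at hbit
                exact hf' hbit
    have e1 := hu (θ η) x' hx'E x hag
    have e2 := hrq (θ η) x'
    have e3 := hrq (θ ξ) x
    rw [h9] at e2
    rw [hεη] at e1 e2
    rw [← hε] at e3
    rw [abs_lt] at e1 e2 e3 ⊢
    constructor <;> linarith
  have hθ' : θ η = θ ξ := hφinj (Subtype.ext heq)
  have hlt := (hcol ⟨n0, hn0⟩ ⟨n0, hn0⟩ le_rfl le_rfl).1
  rw [hθa η ξ hθ'] at hlt
  exact lt_irrefl _ hlt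


end rc

section generalities

variable {X : Type u} [TopologicalSpace X]

lemma exists_closed_countable (Φ : Finset X → Set X) (hΦ : ∀ R, (Φ R).Countable) :
    ∃ S : Set X, S.Countable ∧ ∀ R : Finset X, (R : Set X) ⊆ S → Φ R ⊆ S := by
  classical
  let step : Set X → Set X := fun S => S ∪ ⋃ R : Finset S, Φ (R.image Subtype.val)
  let T : ℕ → Set X := fun n => step^[n] ∅
  have hT : ∀ n, T (n + 1) = T n ∪ ⋃ R : Finset (T n), Φ (R.image Subtype.val) := by
    intro n
    exact Function.iterate_succ_apply' step n ∅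
  have hc : ∀ n, (T n).Countable := by
    intro n
    induction n with
    | zero => exact countable_empty
    | succ n ih =>
      rw [hT]
      have : Countable (T n) := ih.to_subtype
      exact ih.union (countable_iUnion fun R => hΦ _)
  have hmono : Monotone T := monotone_nat_of_le_succ fun n => by
    rw [hT]
    exact subset_union_left
  refine ⟨⋃ n, T n, countable_iUnion hc, fun R hR => ?_⟩
  have h1 : ∃ n, (R : Set X) ⊆ T n := by
    induction R using Finset.induction_on with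
    | empty => exact ⟨0, by simp⟩
    | insert a R ha ih =>
      rw [Finset.coe_insert, insert_subset_iff] at hR
      obtain ⟨n, hn⟩ := ih hR.2
      obtain ⟨m, hm⟩ := mem_iUnion.1 hR.1
      refine ⟨max n m, ?_⟩
      rw [Finset.coe_insert, insert_subset_iff]
      exact ⟨hmono (le_max_right _ _) hm, hn.trans (hmono (le_max_left _ _))⟩
  obtain ⟨n, hn⟩ := h1
  intro x hx
  refine mem_iUnion.2 ⟨n + 1, ?_⟩
  rw [hT]
  refine Or.inr (mem_iUnion.2 ⟨R.subtype (· ∈ T n), ?_⟩)
  have : (R.subtype (· ∈ T n)).image Subtype.val = R := by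
    ext y
    simp only [Finset.mem_image, Finset.mem_subtype, Subtype.exists, exists_and_right,
      exists_eq_right]
    exact ⟨fun ⟨_, h⟩ => h, fun h => ⟨hn h, h⟩⟩
  rw [this]
  exact hx

/-- functions with prescribed values on a finite set -/
lemma exists_vals [T35Space X] (F : Finset X) (v : X → ℝ) :
    ∃ h : X → ℝ, Continuous h ∧ ∀ x ∈ F, h x = v x := by
  classical
  have h1 : ∀ x : X, ∃ h : X → ℝ, Continuous h ∧ h x = 1 ∧ ∀ y ∈ F, y ≠ x → h y = 0 := by
    intro x
    obtain ⟨f, hf, h0, h1⟩ := CompletelyRegularSpace.completely_regular x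
      ((F.erase x : Finset X) : Set X) (Finset.finite_toSet _).isClosed
      (fun h => (Finset.mem_erase.1 (Finset.mem_coe.1 h)).1 rfl)
    refine ⟨fun y => 1 - (f y : ℝ), continuous_const.sub (continuous_subtype_val.comp hf), ?_, ?_⟩
    · show (1 : ℝ) - (f x : ℝ) = 1
      rw [h0]
      simp
    · intro y hy hne
      have := h1 (Finset.mem_coe.2 (Finset.mem_erase.2 ⟨hne, hy⟩))
      show (1 : ℝ) - (f y : ℝ) = 0
      rw [this]
      simp
  choose g hg hg1 hg0 using h1
  refine ⟨fun y => ∑ x ∈ F, v x * g x y, continuous_finset_sum _ fun x _ =>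
    continuous_const.mul (hg x), fun y hy => ?_⟩
  show ∑ x ∈ F, v x * g x y = v y
  rw [Finset.sum_eq_single y]
  · rw [hg1, mul_one]
  · intro x hx hne
    rw [hg0 x y hy (Ne.symm hne), mul_zero]
  · intro h
    exact absurd hy h

/-- constraints -/
def sat (w : Finset (X × ℚ × ℚ)) (h : X → ℝ) : Prop :=
  ∀ t ∈ w, (t.2.1 : ℝ) < h t.1 ∧ h t.1 < (t.2.2 : ℝ)

lemma exists_sat {U : Set {f : X → ℝ | Continuous f}} (hU : IsOpen U)
    {h : {f : X → ℝ | Continuous f}} (hh : h ∈ U) :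
    ∃ w : Finset (X × ℚ × ℚ), sat w h.1 ∧ ∀ k : {f : X → ℝ | Continuous f}, sat w k.1 → k ∈ U := by
  classical
  obtain ⟨V, hV, rfl⟩ := isOpen_induced_iff.1 hU
  obtain ⟨E, u, hu, hsub⟩ := isOpen_pi_iff.1 hV h.1 hh
  have h1 : ∀ x : X, ∃ ab : ℚ × ℚ, (ab.1 : ℝ) < h.1 x ∧ h.1 x < (ab.2 : ℝ) ∧
      (x ∈ E → Ioo (ab.1 : ℝ) ab.2 ⊆ u x) := by
    intro x
    by_cases hx : x ∈ E
    · obtain ⟨ε, hε, hb⟩ := Metric.isOpen_iff.1 (hu x hx).1 _ (hu x hx).2
      obtain ⟨a, ha1, ha2⟩ := exists_rat_btwn (show h.1 x - ε < h.1 x by linarith)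
      obtain ⟨b, hb1, hb2⟩ := exists_rat_btwn (show h.1 x < h.1 x + ε by linarith)
      refine ⟨(a, b), ha2, hb1, fun _ y hy => hb ?_⟩
      rw [Metric.mem_ball, Real.dist_eq, abs_lt]
      have := hy.1
      have := hy.2
      constructor <;> linarith
    · obtain ⟨a, ha⟩ := exists_rat_lt (h.1 x)
      obtain ⟨b, hb⟩ := exists_rat_gt (h.1 x)
      exact ⟨(a, b), ha, hb, fun h => absurd h hx⟩
  choose ab hab1 hab2 hab3 using h1
  refine ⟨E.image fun x => (x, ab x), ?_, ?_⟩
  · intro t ht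
    obtain ⟨x, hx, rfl⟩ := Finset.mem_image.1 ht
    exact ⟨hab1 x, hab2 x⟩
  · intro k hk
    apply hsub
    intro x hx
    have := hk (x, ab x) (Finset.mem_image_of_mem _ hx)
    exact hab3 x hx ⟨this.1, this.2⟩

/-- continuous functions on `C_p(X)` depend on countably many coordinates -/
lemma count_dep [T35Space X] (φ : {f : X → ℝ | Continuous f} → ℝ) (hφ : Continuous φ) :
    ∃ S : Set X, S.Countable ∧ ∀ h h' : {f : X → ℝ | Continuous f},
      (∀ x ∈ S, h.1 x = h'.1 x) → φ h = φ h' := by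
  classical
  let P : Finset (X × ℚ × ℚ) → ℚ → Prop := fun w r =>
    (∃ k : {f : X → ℝ | Continuous f}, sat w k.1) ∧
      ∀ k : {f : X → ℝ | Continuous f}, sat w k.1 → φ k < r
  have h1 : ∀ (R : Finset X) (u : Finset (X × ℚ × ℚ)) (r : ℚ),
      ∃ w : Finset (X × ℚ × ℚ), (∃ w', P w' r ∧ w'.filter (fun t => t.1 ∈ R) = u) →
        P w r ∧ w.filter (fun t => t.1 ∈ R) = u := by
    intro R u r
    by_cases h : ∃ w', P w' r ∧ w'.filter (fun t => t.1 ∈ R) = u
    · obtain ⟨w, hw⟩ := h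
      exact ⟨w, fun _ => hw⟩
    · exact ⟨∅, fun h' => absurd h' h⟩
  choose pick hpick using h1
  obtain ⟨S, hS, hcl⟩ := exists_closed_countable
    (fun R : Finset X => ⋃ (u : Finset (R × ℚ × ℚ)) (r : ℚ),
      ((pick R (u.image fun t => (t.1.1, t.2)) r).image Prod.fst : Set X))
    (fun R => countable_iUnion fun u => countable_iUnion fun r => Finset.countable_toSet _)
  refine ⟨S, hS, ?_⟩
  have key : ∀ h h' : {f : X → ℝ | Continuous f}, (∀ x ∈ S, h.1 x = h'.1 x) → ¬ φ h < φ h' := by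
    intro h h' hhh hlt
    obtain ⟨r, hr1, hr2⟩ := exists_rat_btwn hlt
    obtain ⟨w, hw1, hw2⟩ := exists_sat (isOpen_lt hφ continuous_const) (h := h)
      (show φ h < (r : ℝ) from hr1)
    obtain ⟨w', hw1', hw2'⟩ := exists_sat (isOpen_lt continuous_const hφ) (h := h')
      (show (r : ℝ) < φ h' from hr2)
    let E : Finset X := (w ∪ w').image Prod.fst
    let R : Finset X := E.filter (· ∈ S)
    have hRS : (R : Set X) ⊆ S := fun x hx => (Finset.mem_filter.1 (Finset.mem_coe.1 hx)).2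
    have hex : ∃ w', P w' r ∧ w'.filter (fun t => t.1 ∈ R) = w.filter (fun t => t.1 ∈ R) :=
      ⟨w, ⟨⟨h, hw1⟩, hw2⟩, rfl⟩
    obtain ⟨⟨⟨k, hk⟩, hP⟩, hfil⟩ := hpick R (w.filter (fun t => t.1 ∈ R)) r hex
    set w0 := pick R (w.filter (fun t => t.1 ∈ R)) r with hw0
    have hsupp : ∀ t ∈ w0, t.1 ∈ S := by
      intro t ht
      apply hcl R hRS
      refine mem_iUnion.2 ⟨(w.filter (fun t => t.1 ∈ R)).subtype (fun t => t.1 ∈ R) |>.image
        fun t => (⟨t.1.1, t.2⟩, t.1.2), mem_iUnion.2 ⟨r, ?_⟩⟩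
      have heq : (((w.filter (fun t => t.1 ∈ R)).subtype (fun t => t.1 ∈ R) |>.image
        fun t => ((⟨t.1.1, t.2⟩ : R), t.1.2)).image fun t => (t.1.1, t.2)) =
          w.filter (fun t => t.1 ∈ R) := by
        ext t
        constructor
        · intro h
          obtain ⟨s, hs, rfl⟩ := Finset.mem_image.1 h
          obtain ⟨q, hq, rfl⟩ := Finset.mem_image.1 hs
          exact Finset.mem_subtype.1 hq
        · intro h
          exact Finset.mem_image.2 ⟨(⟨t.1, (Finset.mem_filter.1 h).2⟩, t.2),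
            Finset.mem_image.2 ⟨⟨t, (Finset.mem_filter.1 h).2⟩, Finset.mem_subtype.2 h, rfl⟩, rfl⟩
      rw [heq]
      exact Finset.mem_coe.2 (Finset.mem_image_of_mem _ ht)
    obtain ⟨g, hg, hgv⟩ := exists_vals (E ∪ w0.image Prod.fst)
      (fun x => if x ∈ E then h'.1 x else k.1 x)
    have hg1 : sat w0 g := by
      intro t ht
      have e := hgv t.1 (Finset.mem_union_right _ (Finset.mem_image_of_mem _ ht))
      by_cases hE : t.1 ∈ E
      · rw [if_pos hE] at e
        rw [e, ← hhh t.1 (hsupp t ht)]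
        have hR : t.1 ∈ R := Finset.mem_filter.2 ⟨hE, hsupp t ht⟩
        have : t ∈ w0.filter (fun t => t.1 ∈ R) := Finset.mem_filter.2 ⟨ht, hR⟩
        rw [hfil] at this
        exact hw1 t (Finset.mem_filter.1 this).1
      · rw [if_neg hE] at e
        rw [e]
        exact hk t ht
    have hg2 : sat w' g := by
      intro t ht
      have hE : t.1 ∈ E := Finset.mem_image_of_mem _ (Finset.mem_union_right _ ht)
      have e := hgv t.1 (Finset.mem_union_left _ hE)
      rw [if_pos hE] at e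
      rw [e]
      exact hw1' t ht
    have e1 := hP ⟨g, hg⟩ hg1
    have e2 : (r : ℝ) < φ ⟨g, hg⟩ := hw2' ⟨g, hg⟩ hg2
    exact absurd e1 (not_lt.2 e2.le)
  intro h h' hhh
  exact le_antisymm (not_lt.1 (key h' h fun x hx => (hhh x hx).symm)) (not_lt.1 (key h h' hhh))

/-- spaces condensing onto separable metrizable spaces are realcompact -/
lemma closedEmb_of_inj {Z : Type u} [TopologicalSpace Z] [T35Space Z] (ρ : ℕ → Z → ℝ)
    (hρ : ∀ n, Continuous (ρ n)) (hinj : ∀ z w, (∀ n, ρ n z = ρ n w) → z = w) :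
    Topology.IsClosedEmbedding (fun (z : Z) (h : C(Z, ℝ)) => h z) := by
  classical
  have hcont : Continuous (fun (z : Z) (h : C(Z, ℝ)) => h z) :=
    continuous_pi fun h => h.continuous
  have hemb : Topology.IsEmbedding (fun (z : Z) (h : C(Z, ℝ)) => h z) := by
    refine ⟨Topology.isInducing_iff_nhds.2 fun z => le_antisymm (hcont.tendsto z).le_comap ?_, ?_⟩
    · intro U hU
      obtain ⟨V, hVU, hV, hzV⟩ := mem_nhds_iff.1 hU
      obtain ⟨f, hf, h0, h1⟩ := CompletelyRegularSpace.completely_regular z Vᶜ hV.isClosed_compl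
        (fun h => h hzV)
      let g : C(Z, ℝ) := ⟨fun z => (f z : ℝ), continuous_subtype_val.comp hf⟩
      refine Filter.mem_comap.2 ⟨{K | K g < 1},
        (isOpen_lt (continuous_apply g) continuous_const).mem_nhds ?_, ?_⟩
      · show (f z : ℝ) < 1
        rw [h0]
        simp
      · intro y hy
        apply hVU
        by_contra hyV
        have h2 := h1 hyV
        have h3 : (f y : ℝ) < 1 := hy
        rw [h2] at h3
        simp at h3
    · intro z w hzw
      exact hinj z w fun n => congrFun hzw ⟨ρ n, hρ n⟩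
  refine ⟨hemb, ?_⟩
  rw [← closure_subset_iff_isClosed]
  intro G hG
  have claim : ∀ σ : ℕ → C(Z, ℝ), ∃ z, ∀ n, σ n z = G (σ n) := by
    intro σ
    by_contra hcon
    push Not at hcon
    letI : MetricSpace (ℕ → ℝ) := TopologicalSpace.metrizableSpaceMetric (ℕ → ℝ)
    let s : Z → (ℕ → ℝ) := fun z n => σ n z
    have hs : Continuous s := continuous_pi fun n => (σ n).continuous
    let A : ℕ → ℝ := fun n => G (σ n)
    have hpos : ∀ z, dist (s z) A ≠ 0 := by
      intro z h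
      obtain ⟨n, hn⟩ := hcon z
      exact hn (congrFun (dist_eq_zero.1 h) n)
    let k' : C(Z, ℝ) := ⟨fun z => (dist (s z) A)⁻¹, (hs.dist continuous_const).inv₀ hpos⟩
    let V : Set (C(Z, ℝ) → ℝ) := {K | dist (fun n => K (σ n)) A < (|G k'| + 1)⁻¹ ∧
      |K k' - G k'| < 1}
    have hV : IsOpen V := by
      refine (isOpen_lt (Continuous.dist ?_ continuous_const) continuous_const).inter
        (isOpen_lt (((continuous_apply k').sub continuous_const).abs) continuous_const)
      exact continuous_pi fun n => continuous_apply _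
    obtain ⟨_, hK, ⟨z, rfl⟩⟩ := mem_closure_iff.1 hG V hV (by
      refine ⟨?_, ?_⟩
      · show dist A A < _
        rw [dist_self]
        positivity
      · rw [sub_self, abs_zero]
        exact one_pos)
    have h1 : dist (s z) A < (|G k'| + 1)⁻¹ := hK.1
    have h2 : |(dist (s z) A)⁻¹ - G k'| < 1 := hK.2
    have h3 : 0 < dist (s z) A := lt_of_le_of_ne dist_nonneg (Ne.symm (hpos z))
    have h4 : |G k'| + 1 < (dist (s z) A)⁻¹ := by
      rw [lt_inv_comm₀ (by positivity) h3]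
      exact h1
    have h5 := (abs_lt.1 h2).2
    have h6 := le_abs_self (G k')
    linarith
  obtain ⟨z0, hz0⟩ := claim (fun n => ⟨ρ n, hρ n⟩)
  refine ⟨z0, ?_⟩
  funext f
  obtain ⟨z, hz⟩ := claim (fun n => Nat.casesOn n f (fun m => ⟨ρ m, hρ m⟩))
  have h1 : z = z0 := by
    apply hinj
    intro n
    have h2 := hz (n + 1)
    have h3 := hz0 n
    exact h2.trans h3.symm
  have h2 := hz 0
  rw [h1] at h2
  exact h2

end generalities

section mainc5

lemma small_range_of {ι : Type u} (h : ¬ ∃ φ : Th → ι, Function.Injective φ) (γ : ι → Th) :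
    StrongColor.Small (range γ) := by
  by_contra hcon
  apply h
  have hcard : Cardinal.mk Th ≤ Cardinal.mk (range γ) := by
    rw [mk_Th, aleph2_eq]
    exact Order.succ_le_of_lt (not_le.1 hcon)
  obtain ⟨φ⟩ := hcard
  have h1 : ∀ t : Th, ∃ i, γ i = (φ t).1 := fun t => (φ t).2
  choose ψ hψ using h1
  refine ⟨ψ, fun s t hst => φ.injective (Subtype.ext ?_)⟩
  rw [← hψ s, ← hψ t, hst]

lemma inf_Om : Infinite Om := by
  rw [Cardinal.infinite_iff, mk_Om]
  exact Cardinal.aleph0_le_aleph 1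

theorem mainc5 :
    ¬ (∀ (X : Type u) [TopologicalSpace X] [T35Space X],
      (∀ D : Set (X → ℝ), D ⊆ {f : X → ℝ | Continuous f} → DiscreteTopology D →
        ∃ (ι : Type u) (g : ↥(closure D ∩ {f : X → ℝ | Continuous f}) → (ι → ℝ)),
          Topology.IsClosedEmbedding g) →
      ∃ (ι : Type u) (g : ↥{f : X → ℝ | Continuous f} → (ι → ℝ)),
        Topology.IsClosedEmbedding g) := by
  classical
  intro hall
  obtain ⟨c, hc⟩ := exists_pr0J Qc mk_Qc
  obtain ⟨f, hf⟩ := exists_inj_Om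
  obtain ⟨dd, hdd⟩ := exists_dd
  obtain ⟨yy, hyy⟩ := exists_yy
  let X0 : Set (Co → Bool) := insert (fun _ => true) (range (xx c f dd yy))
  let X : Type u := ULift.{u} X0
  let val : X → Co → Bool := fun x => x.down.1
  have hval : Topology.IsInducing val :=
    Topology.IsInducing.subtypeVal.comp Homeomorph.ulift.isInducing
  have hinj : Function.Injective val := Subtype.val_injective.comp ULift.down_injective
  have hT : T35Space X :=
    Topology.IsEmbedding.t35Space (Y := Co → Bool) (f := val) ⟨hval, hinj⟩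
  let p0 : X := ⟨⟨fun _ => true, mem_insert _ _⟩⟩
  let pp : Pt → X := fun p => ⟨⟨xx c f dd yy p, mem_insert_of_mem _ ⟨p, rfl⟩⟩⟩
  have hpp : ∀ p, val (pp p) = xx c f dd yy p := fun p => rfl
  have hcov : ∀ x, x = p0 ∨ ∃ p, pp p = x := by
    rintro ⟨⟨x, hx⟩⟩
    rcases hx with rfl | ⟨p, rfl⟩
    · exact Or.inl rfl
    · exact Or.inr ⟨p, rfl⟩
  have hdense : ∀ (v : Finset Co) (s : Co → Bool), ∃ z : X, ∀ q ∈ v, val z q = s q := by
    intro v s
    obtain ⟨n, i, h⟩ := xx_dense (c := c) (f := f) hdd hyy v s (Classical.arbitrary Th)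
    exact ⟨pp (_, n, i), h⟩
  obtain ⟨ι, g, hg⟩ := hall X (by
    intro D hD hdisc
    have hdisc' : ∀ d ∈ D, ∃ U : Set (X → ℝ), IsOpen U ∧ U ∩ D = {d} := by
      intro d hd
      obtain ⟨U, hU, hUd⟩ := isOpen_induced_iff.1 (isOpen_discrete {(⟨d, hd⟩ : D)})
      refine ⟨U, hU, ?_⟩
      ext e
      constructor
      · rintro ⟨h1, h2⟩
        have : (⟨e, h2⟩ : D) ∈ Subtype.val ⁻¹' U := h1
        rw [hUd] at this
        exact congrArg Subtype.val this
      · rintro rfl
        have : (⟨e, hd⟩ : D) ∈ Subtype.val ⁻¹' U := by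
          rw [hUd]
          rfl
        exact ⟨this, hd⟩
    have hsm := spread_le (dd := dd) (yy := yy) hval pp p0 hpp hcov hf hc D
      (fun d hd => hD hd) hdisc'
    have hlev : ∃ γ : Th, ∀ d ∈ D, ∀ x y : X, (∀ q : Co, q.1 ≤ γ → val x q = val y q) →
        d x = d y := by
      have h1 : ∀ d : D, ∃ γ : Th, ∀ x y : X, (∀ q : Co, q.1 ≤ γ → val x q = val y q) →
          d.1 x = d.1 y := fun d => exists_inv hval hdense d.1 (hD d.2)
      choose γ hγ using h1
      obtain ⟨b, hb⟩ := (small_range_of hsm γ).bdd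
      refine ⟨b, fun d hd x y hxy => hγ ⟨d, hd⟩ x y fun q hq => hxy q (hq.trans ?_)⟩
      exact (hb _ ⟨⟨d, hd⟩, rfl⟩).le
    obtain ⟨γ, hγ⟩ := hlev
    have hcl : ∀ g ∈ closure D, ∀ x y : X, (∀ q : Co, q.1 ≤ γ → val x q = val y q) →
        g x = g y := by
      intro g hg x y hxy
      have hclosed : IsClosed {g : X → ℝ | g x = g y} :=
        isClosed_eq (continuous_apply x) (continuous_apply y)
      exact closure_minimal (fun d hd => hγ d hd x y hxy) hclosed hg
    let i0 : Om := Classical.arbitrary Om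
    let z : ℕ → X := fun n => pp (γ, n, i0)
    refine ⟨_, _, closedEmb_of_inj
      (Z := ↥(closure D ∩ {f : X → ℝ | Continuous f})) (fun n h => h.1 (z n))
      (fun n => (continuous_apply (z n)).comp continuous_subtype_val) ?_⟩
    intro h1 h2 h12
    apply Subtype.ext
    have hd : Dense {x : X | ∃ n i, val x = xx c f dd yy (γ, n, i)} := by
      intro x
      rw [mem_closure_iff]
      intro U hU hx
      obtain ⟨v, hv⟩ := open_nbhd hval hU hx
      obtain ⟨n, i, hni⟩ := xx_dense (c := c) (f := f) hdd hyy v (val x) γ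
      exact ⟨pp (γ, n, i), hv _ hni, n, i, rfl⟩
    refine Continuous.ext_on hd h1.2.2 h2.2.2 ?_
    rintro x ⟨n, i, hx⟩
    have hxz : ∀ q : Co, q.1 ≤ γ → val x q = val (z n) q := by
      intro q hq
      rw [hx]
      exact xx_same hq
    rw [hcl _ h1.2.1 x (z n) hxz, hcl _ h2.2.1 x (z n) hxz]
    exact h12 n)
  -- the bad function
  let F : X → ℝ := fun x => if x = p0 then 1 else 0
  have hF : ∀ S : Set X, S.Countable → ∃ h : {f : X → ℝ | Continuous f},
      ∀ x ∈ S, h.1 x = F x := by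
    intro S hS
    have h5 : ∀ x : X, ∃ p : Pt, x = p0 ∨ pp p = x := by
      intro x
      rcases hcov x with h | ⟨p, h⟩
      · exact ⟨Classical.arbitrary Pt, Or.inl h⟩
      · exact ⟨p, Or.inr h⟩
    choose ix hix using h5
    obtain ⟨α, hα⟩ := (StrongColor.Small.of_countable (hS.image fun x => (ix x).1)).bdd
    obtain ⟨cc, hcc⟩ := bdd_Om (A := ((fun x => (ix x).2.2) '' S) ∪ ((fun x => f α (ix x).1) '' S))
      ((hS.image _).union (hS.image _))
    refine ⟨⟨fun x => if val x (α, cc) = true then 1 else 0, ?_⟩, ?_⟩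
    · have h1 : Continuous fun x : X => val x (α, cc) :=
        (continuous_apply _).comp hval.continuous
      exact (continuous_of_discreteTopology (f := fun b : Bool => if b = true then (1 : ℝ) else 0)).comp h1
    · intro x hxS
      show (if val x (α, cc) = true then (1 : ℝ) else 0) = if x = p0 then 1 else 0
      by_cases hx0 : x = p0
      · rw [if_pos hx0, hx0]
        exact if_pos rfl
      · have hx : pp (ix x) = x := (hix x).resolve_left hx0
        have h2 : val x (α, cc) = false := by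
          rw [← hx, hpp]
          have h3 : (ix x).1 < α := hα _ ⟨x, hxS, rfl⟩
          have h4 : f α (ix x).1 < cc := hcc _ (Or.inr ⟨x, hxS, rfl⟩)
          have h6 : (ix x).2.2 < cc := hcc _ (Or.inl ⟨x, hxS, rfl⟩)
          unfold xx
          rw [if_pos h3, if_pos ⟨h4, h6⟩]
        rw [if_neg hx0, h2]
        simp
  have hFnc : ¬ Continuous F := by
    intro hc
    obtain ⟨v, hv⟩ := open_nbhd hval (isOpen_lt continuous_const hc) (x := p0)
      (show (1 / 2 : ℝ) < F p0 by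
        show (1 / 2 : ℝ) < if p0 = p0 then 1 else 0
        rw [if_pos rfl]
        norm_num)
    haveI := inf_Om
    haveI : Infinite Co := inferInstanceAs (Infinite (Th × Om))
    obtain ⟨q0, hq0⟩ := Infinite.exists_notMem_finset v
    obtain ⟨z, hz⟩ := hdense (insert q0 v) (fun q => if q = q0 then false else true)
    have h1 := hv z (fun q hq => by
      rw [hz q (Finset.mem_insert_of_mem hq)]
      exact if_neg (fun h => hq0 (by rw [← h]; exact hq)))
    have h2 : z ≠ p0 := by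
      intro h
      have h3 := hz q0 (Finset.mem_insert_self _ _)
      rw [if_pos rfl, h] at h3
      exact Bool.false_ne_true h3.symm
    have h3 : (1 / 2 : ℝ) < if z = p0 then 1 else 0 := h1
    rw [if_neg h2] at h3
    norm_num at h3
  -- factorization of coordinates
  have hdep : ∀ i : ι, ∃ S : Set X, S.Countable ∧ ∀ h h' : {f : X → ℝ | Continuous f},
      (∀ x ∈ S, h.1 x = h'.1 x) → g h i = g h' i := fun i =>
    count_dep (fun h => g h i) ((continuous_apply i).comp hg.continuous)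
  choose S hS hSdep using hdep
  have hrep : ∀ i : ι, ∃ h : {f : X → ℝ | Continuous f}, ∀ x ∈ S i, h.1 x = F x :=
    fun i => hF _ (hS i)
  choose hi hhi using hrep
  let G : ι → ℝ := fun i => g (hi i) i
  have happ : ∀ (I : Finset ι) (x : X), ∃ h : {f : X → ℝ | Continuous f}, h.1 x = F x ∧
      ∀ i ∈ I, g h i = G i := by
    intro I x
    obtain ⟨h, hh⟩ := hF (insert x (⋃ i ∈ I, S i))
      (((Finset.countable_toSet I).biUnion fun i _ => hS i).insert x)
    refine ⟨h, hh x (mem_insert _ _), fun i hiI => hSdep i h (hi i) fun y hy => ?_⟩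
    rw [hhi i y hy, hh y (mem_insert_of_mem _ (mem_biUnion (Finset.mem_coe.2 hiI) hy))]
  have hGcl : G ∈ closure (range g) := by
    rw [mem_closure_iff]
    intro U hU hGU
    obtain ⟨I, u, hu, hsub⟩ := isOpen_pi_iff.1 hU G hGU
    obtain ⟨h, -, hh⟩ := happ I p0
    refine ⟨g h, hsub fun i hi => ?_, h, rfl⟩
    rw [hh i hi]
    exact (hu i hi).2
  rw [hg.isClosed_range.closure_eq] at hGcl
  obtain ⟨h0, hh0⟩ := hGcl
  apply hFnc
  have hF0 : F = h0.1 := by
    funext x
    by_contra hne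
    have hop : IsOpen {h : {f : X → ℝ | Continuous f} | h.1 x ≠ F x} :=
      isOpen_ne_fun ((continuous_apply x).comp continuous_subtype_val) continuous_const
    obtain ⟨V, hV, hVeq⟩ := hg.isInducing.isOpen_iff.1 hop
    have h0V : g h0 ∈ V := by
      have : h0 ∈ g ⁻¹' V := by
        rw [hVeq]
        exact fun h => hne h.symm
      exact this
    obtain ⟨I, u, hu, hsub⟩ := isOpen_pi_iff.1 hV _ h0V
    obtain ⟨h, hx, hh⟩ := happ I x
    have : h ∈ g ⁻¹' V := by
      apply hsub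
      intro i hi
      rw [hh i hi, ← hh0]
      exact (hu i hi).2
    rw [hVeq] at this
    exact this hx
  rw [hF0]
  exact h0.2

end mainc5

end Pool.Agent.Helper220.RealCp
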