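import Mathlib
import Pool.Agent.Helper220.StrongColor

set_option autoImplicit false
set_option linter.all false

open Set

namespace Pool.Agent.Helper220.Spread

open Pool.Agent.Helper220.StrongColor


/-! ## The space -/

/-- rationals in the unit interval -/
def QI : Type := {q : ℚ // 0 ≤ q ∧ q ≤ 1}

instance : Countable QI := inferInstanceAs (Countable {q : ℚ // 0 ≤ q ∧ q ≤ 1})

def QI.zero : QI := ⟨0, le_rfl, zero_le_one⟩

def QI.one : QI := ⟨1, zero_le_one, le_rfl⟩

instance : Nonempty QI := ⟨QI.zero⟩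

lemma mix_mem {r a b : ℚ} (hr : 0 ≤ r ∧ r ≤ 1) (ha : 0 ≤ a ∧ a ≤ 1) (hb : 0 ≤ b ∧ b ≤ 1) :
    0 ≤ (1 - r) * a + r * b ∧ (1 - r) * a + r * b ≤ 1 := by
  constructor
  · have h1 := mul_nonneg (sub_nonneg.2 hr.2) ha.1
    have h2 := mul_nonneg hr.1 hb.1
    linarith
  · have h1 := mul_le_mul_of_nonneg_left ha.2 (sub_nonneg.2 hr.2)
    have h2 := mul_le_mul_of_nonneg_left hb.2 hr.1
    linarith

lemma mix_memR {r a b : ℝ} (hr : 0 ≤ r ∧ r ≤ 1) (ha : 0 ≤ a ∧ a ≤ 1) (hb : 0 ≤ b ∧ b ≤ 1) :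
    0 ≤ (1 - r) * a + r * b ∧ (1 - r) * a + r * b ≤ 1 := by
  constructor
  · have h1 := mul_nonneg (sub_nonneg.2 hr.2) ha.1
    have h2 := mul_nonneg hr.1 hb.1
    linarith
  · have h1 := mul_le_mul_of_nonneg_left ha.2 (sub_nonneg.2 hr.2)
    have h2 := mul_le_mul_of_nonneg_left hb.2 hr.1
    linarith

/-- rational convex combination -/
def mixQ (r a b : QI) : QI := ⟨(1 - r.1) * a.1 + r.1 * b.1, mix_mem r.2 a.2 b.2⟩

/-- convex combination -/
def mixI (r a b : unitInterval) : unitInterval :=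
  ⟨(1 - r.1) * a.1 + r.1 * b.1, mix_memR r.2 a.2 b.2⟩

/-- embedding -/
noncomputable def toI (q : QI) : unitInterval :=
  ⟨(q.1 : ℝ), by exact_mod_cast q.2.1, by exact_mod_cast q.2.2⟩

lemma toI_mix (r a b : QI) : toI (mixQ r a b) = mixI (toI r) (toI a) (toI b) := by
  apply Subtype.ext
  show (((1 - r.1) * a.1 + r.1 * b.1 : ℚ) : ℝ) = (1 - (r.1 : ℝ)) * (a.1 : ℝ) + (r.1 : ℝ) * (b.1 : ℝ)
  push_cast
  ring

lemma continuous_mixI {Z : Type} [TopologicalSpace Z] {r a b : Z → unitInterval}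
    (hr : Continuous r) (ha : Continuous a) (hb : Continuous b) :
    Continuous fun z => mixI (r z) (a z) (b z) := by
  unfold mixI
  apply Continuous.subtype_mk
  fun_prop

lemma denseRange_toI : DenseRange toI := by
  have h1 : DenseRange (fun q : ℚ => Set.projIcc (0 : ℝ) 1 zero_le_one (q : ℝ)) := by
    have h2 : DenseRange (Set.projIcc (0 : ℝ) 1 zero_le_one) :=
      (Set.projIcc_surjective zero_le_one).denseRange
    exact h2.comp Rat.denseRange_cast continuous_projIcc
  refine h1.mono ?_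
  rintro _ ⟨q, rfl⟩
  refine ⟨⟨max 0 (min 1 q), le_max_left _ _, max_le zero_le_one (min_le_left _ _)⟩, ?_⟩
  apply Subtype.ext
  rw [Set.coe_projIcc]
  show ((max 0 (min 1 q) : ℚ) : ℝ) = _
  push_cast
  rfl

/-- colours: a triple of points of the unit cube, an index and a ratio -/
abbrev Col : Type := (Fin 3 → Fin 3 → QI) × Fin 3 × QI

/-- the triple described by a colour: one of the three points is on the segment between the
other two -/
def val (c : Col) (j : Fin 3) : Fin 3 → QI :=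
  if j = c.2.1 then fun i => mixQ c.2.2 (c.1 (c.2.1 + 1) i) (c.1 (c.2.1 + 2) i) else c.1 j

open Classical in
/-- coordinates of the points -/
noncomputable def pt (c : Th → Th → Col) (β : Th) (j : Fin 3) (α : Th) (i : Fin 3) : QI :=
  if α = β then (if i = j then QI.one else QI.zero)
  else if β < α then val (c β α) j i else QI.zero

/-- the cube -/
abbrev XX : Type := Th → Fin 3 → unitInterval

/-- the points -/
noncomputable def px (c : Th → Th → Col) (β : Th) (j : Fin 3) : XX := fun α i => toI (pt c β j α i)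

/-- the subspace -/
def YY (c : Th → Th → Col) : Set XX := range fun p : Th × Fin 3 => px c p.1 p.2

section partA

variable (c : Th → Th → Col)

/-- the point as an element of the subspace -/
noncomputable def py (β : Th) (j : Fin 3) : YY c := ⟨px c β j, (β, j), rfl⟩

/-- the threshold -/
noncomputable def thr : ℝ := √2 / 2

lemma thr_irrational : Irrational thr := by
  have h := irrational_sqrt_two.div_natCast (m := 2) two_ne_zero
  unfold thr
  exact_mod_cast h

lemma thr_pos : 0 < thr := by unfold thr; positivity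

lemma thr_lt_one : thr < 1 := by
  unfold thr
  have : √2 < 2 := by
    rw [Real.sqrt_lt' (by norm_num)]
    norm_num
  linarith

open Classical in
/-- bit function -/
noncomputable def bit (α : Th) (i : Fin 3) (y : YY c) : ℝ := if thr < (y.1 α i : ℝ) then 1 else 0

lemma ne_thr (y : YY c) (α : Th) (i : Fin 3) : (y.1 α i : ℝ) ≠ thr := by
  obtain ⟨_, ⟨β, j⟩, rfl⟩ := y
  intro h
  exact thr_irrational ⟨(pt c β j α i).1, h⟩

lemma continuous_bit (α : Th) (i : Fin 3) : Continuous (bit c α i) := by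
  rw [continuous_iff_continuousAt]
  intro y
  have hcont : Continuous fun y : YY c => (y.1 α i : ℝ) :=
    continuous_subtype_val.comp ((continuous_apply i).comp ((continuous_apply α).comp
      continuous_subtype_val))
  rcases lt_or_gt_of_ne (ne_thr c y α i) with h | h
  · have h1 : ∀ᶠ z in nhds y, bit c α i z = 0 := by
      filter_upwards [hcont.continuousAt.eventually (gt_mem_nhds h)] with z hz
      exact if_neg (not_lt.2 hz.le)
    have h2 : bit c α i y = 0 := if_neg (not_lt.2 h.le)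
    show Filter.Tendsto _ _ _
    rw [h2]
    exact tendsto_const_nhds.congr' (h1.mono fun z hz => hz.symm)
  · have h1 : ∀ᶠ z in nhds y, bit c α i z = 1 := by
      filter_upwards [hcont.continuousAt.eventually (lt_mem_nhds h)] with z hz
      exact if_pos hz
    have h2 : bit c α i y = 1 := if_pos h
    show Filter.Tendsto _ _ _
    rw [h2]
    exact tendsto_const_nhds.congr' (h1.mono fun z hz => hz.symm)

/-- the functions forming a discrete set -/
noncomputable def ff (α : Th) (y : YY c) : ℝ := bit c α 0 y + 2 * bit c α 1 y + 4 * bit c α 2 y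

lemma continuous_ff (α : Th) : Continuous (ff c α) := by
  unfold ff
  exact ((continuous_bit c α 0).add ((continuous_bit c α 1).const_mul 2)).add
    ((continuous_bit c α 2).const_mul 4)

lemma bit_self (α : Th) (i j : Fin 3) : bit c α i (py c α j) = if i = j then 1 else 0 := by
  unfold bit py px pt
  simp only [if_true]
  by_cases h : i = j
  · rw [if_pos h, if_pos h, if_pos]
    show thr < ((1 : ℚ) : ℝ)
    push_cast
    exact thr_lt_one
  · rw [if_neg h, if_neg h, if_neg]
    show ¬ thr < ((0 : ℚ) : ℝ)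
    push_cast
    exact not_lt.2 thr_pos.le

lemma ff_self (α : Th) : ff c α (py c α 0) = 1 ∧ ff c α (py c α 1) = 2 ∧
    ff c α (py c α 2) = 4 := by
  unfold ff
  simp [bit_self]

lemma bit_01 (α : Th) (i : Fin 3) (y : YY c) : bit c α i y = 0 ∨ bit c α i y = 1 := by
  unfold bit
  split_ifs
  · exact Or.inr rfl
  · exact Or.inl rfl

lemma bits_of {β : Th} {y : YY c} :
    (|ff c β y - 1| < 1 / 2 → bit c β 0 y = 1 ∧ bit c β 1 y = 0 ∧ bit c β 2 y = 0) ∧
    (|ff c β y - 2| < 1 / 2 → bit c β 0 y = 0 ∧ bit c β 1 y = 1 ∧ bit c β 2 y = 0) ∧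
    (|ff c β y - 4| < 1 / 2 → bit c β 0 y = 0 ∧ bit c β 1 y = 0 ∧ bit c β 2 y = 1) := by
  unfold ff
  rcases bit_01 c β 0 y with h0 | h0 <;> rcases bit_01 c β 1 y with h1 | h1 <;>
    rcases bit_01 c β 2 y with h2 | h2 <;> rw [h0, h1, h2] <;> norm_num [abs_lt]

lemma bit_eq_one {α : Th} {i : Fin 3} {y : YY c} (h : bit c α i y = 1) : thr < (y.1 α i : ℝ) := by
  unfold bit at h
  by_contra hcon
  rw [if_neg hcon] at h
  exact zero_ne_one h

lemma bit_eq_zero {α : Th} {i : Fin 3} {y : YY c} (h : bit c α i y = 0) :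
    (y.1 α i : ℝ) ≤ thr := by
  unfold bit at h
  by_contra hcon
  rw [if_pos (not_le.1 hcon)] at h
  exact one_ne_zero h

/-- separation -/
lemma ff_sep {α β : Th} (h0 : |ff c β (py c α 0) - 1| < 1 / 2)
    (h1 : |ff c β (py c α 1) - 2| < 1 / 2) (h2 : |ff c β (py c α 2) - 4| < 1 / 2) : β = α := by
  have b0 := bits_of c |>.1 h0
  have b1 := bits_of c |>.2.1 h1
  have b2 := bits_of c |>.2.2 h2
  have hbit : ∀ j i : Fin 3, bit c β i (py c α j) = if i = j then 1 else 0 := by
    intro j i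
    fin_cases j <;> fin_cases i <;> simp_all
  by_contra hne
  by_cases hlt : α < β
  · -- the colour
    set col := c α β with hcol
    set i0 := col.2.1 with hi0
    have hpt : ∀ j i, pt c α j β i = val col j i := by
      intro j i
      unfold pt
      rw [if_neg hne, if_pos hlt]
    have hv : ∀ j i : Fin 3, ((px c α j) β i : ℝ) = ((val col j i).1 : ℝ) := by
      intro j i
      show (((pt c α j β i).1 : ℚ) : ℝ) = _
      rw [hpt]
    have n1 : i0 + 1 ≠ i0 := by
      intro h; revert h; generalize i0 = x; revert x; decide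
    have n2 : i0 + 2 ≠ i0 := by
      intro h; revert h; generalize i0 = x; revert x; decide
    have e0 := bit_eq_one c (i := i0) (by rw [hbit i0 i0, if_pos rfl])
    have e1 := bit_eq_zero c (i := i0) (by rw [hbit (i0 + 1) i0, if_neg (Ne.symm n1)])
    have e2 := bit_eq_zero c (i := i0) (by rw [hbit (i0 + 2) i0, if_neg (Ne.symm n2)])
    have e0 : thr < ((px c α i0) β i0 : ℝ) := e0
    have e1 : ((px c α (i0 + 1)) β i0 : ℝ) ≤ thr := e1
    have e2 : ((px c α (i0 + 2)) β i0 : ℝ) ≤ thr := e2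
    rw [hv] at e0 e1 e2
    have v0 : val col i0 i0 = mixQ col.2.2 (col.1 (i0 + 1) i0) (col.1 (i0 + 2) i0) := by
      unfold val; rw [if_pos hi0]
    have v1 : val col (i0 + 1) i0 = col.1 (i0 + 1) i0 := by
      unfold val; rw [if_neg n1]
    have v2 : val col (i0 + 2) i0 = col.1 (i0 + 2) i0 := by
      unfold val; rw [if_neg n2]
    rw [v0] at e0
    rw [v1] at e1
    rw [v2] at e2
    have e0' : thr < (1 - (col.2.2.1 : ℝ)) * ((col.1 (i0 + 1) i0).1 : ℝ) +
        (col.2.2.1 : ℝ) * ((col.1 (i0 + 2) i0).1 : ℝ) := by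
      have : (((mixQ col.2.2 (col.1 (i0 + 1) i0) (col.1 (i0 + 2) i0)).1 : ℚ) : ℝ) =
          (1 - (col.2.2.1 : ℝ)) * ((col.1 (i0 + 1) i0).1 : ℝ) +
          (col.2.2.1 : ℝ) * ((col.1 (i0 + 2) i0).1 : ℝ) := by
        unfold mixQ; push_cast; ring
      rwa [this] at e0
    have r0 : (0 : ℝ) ≤ (col.2.2.1 : ℝ) := by exact_mod_cast col.2.2.2.1
    have r1 : (col.2.2.1 : ℝ) ≤ 1 := by exact_mod_cast col.2.2.2.2
    have := mul_le_mul_of_nonneg_left e1 (sub_nonneg.2 r1)
    have := mul_le_mul_of_nonneg_left e2 r0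
    linarith
  · have e0 := bit_eq_one c (i := 0) (by rw [hbit 0 0, if_pos rfl])
    have : ((px c α 0) β 0 : ℝ) = 0 := by
      show (((pt c α 0 β 0).1 : ℚ) : ℝ) = 0
      unfold pt
      rw [if_neg hne, if_neg hlt]
      simp [QI.zero]
    have e0 : thr < ((px c α 0) β 0 : ℝ) := e0
    rw [this] at e0
    exact absurd e0 (not_lt.2 thr_pos.le)

lemma ff_injective : Function.Injective (ff c) := by
  intro β α h
  have h3 := ff_self c α
  apply ff_sep c
  · rw [h, h3.1]; norm_num
  · rw [h, h3.2.1]; norm_num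
  · rw [h, h3.2.2]; norm_num

theorem partA : ∃ D : Set (YY c → ℝ), D ⊆ range (fun f : C(YY c, ℝ) => (f : YY c → ℝ)) ∧
    DiscreteTopology D ∧ Cardinal.mk D = Cardinal.aleph 2 := by
  refine ⟨range (ff c), ?_, ?_, ?_⟩
  · rintro _ ⟨α, rfl⟩
    exact ⟨⟨ff c α, continuous_ff c α⟩, rfl⟩
  · rw [discreteTopology_subtype_iff']
    rintro _ ⟨α, rfl⟩
    have h3 := ff_self c α
    refine ⟨{g | |g (py c α 0) - 1| < 1 / 2} ∩ ({g | |g (py c α 1) - 2| < 1 / 2} ∩
      {g | |g (py c α 2) - 4| < 1 / 2}), ?_, ?_⟩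
    · have key : ∀ (y : YY c) (r : ℝ), IsOpen {g : YY c → ℝ | |g y - r| < 1 / 2} := by
        intro y r
        exact isOpen_lt (((continuous_apply y).sub continuous_const).abs) continuous_const
      exact (key _ _).inter ((key _ _).inter (key _ _))
    · ext g
      constructor
      · rintro ⟨⟨h0, h1, h2⟩, ⟨β, rfl⟩⟩
        rw [ff_sep c h0 h1 h2]
        rfl
      · intro hg
        have hg : g = ff c α := hg
        subst hg
        refine ⟨⟨?_, ?_, ?_⟩, ⟨α, rfl⟩⟩
        · show |ff c α (py c α 0) - 1| < 1 / 2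
          rw [h3.1]; norm_num
        · show |ff c α (py c α 1) - 2| < 1 / 2
          rw [h3.2.1]; norm_num
        · show |ff c α (py c α 2) - 4| < 1 / 2
          rw [h3.2.2]; norm_num
  · rw [Cardinal.mk_range_eq _ (ff_injective c), mk_Th]

end partA

section partB

/-- finite-dimensional cube -/
abbrev ZZ (n : ℕ) : Type := Fin n → Fin 3 → unitInterval

/-- rational points of it -/
noncomputable def toZ {n : ℕ} (v : Fin n → Fin 3 → QI) : ZZ n := fun k i => toI (v k i)

/-- one of three values is between the two others -/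
lemma middle (a : Fin 3 → ℝ) : ∃ i : Fin 3,
    (a (i + 1) ≤ a i ∧ a i ≤ a (i + 2)) ∨ (a (i + 2) ≤ a i ∧ a i ≤ a (i + 1)) := by
  rcases le_total (a 0) (a 1) with h01 | h01 <;> rcases le_total (a 1) (a 2) with h12 | h12 <;>
    rcases le_total (a 0) (a 2) with h02 | h02
  · exact ⟨1, Or.inr ⟨h01, h12⟩⟩
  · exact ⟨1, Or.inr ⟨h01, h12⟩⟩
  · exact ⟨2, Or.inl ⟨h02, h12⟩⟩
  · exact ⟨0, Or.inr ⟨h02, h01⟩⟩
  · exact ⟨0, Or.inl ⟨h01, h02⟩⟩
  · exact ⟨2, Or.inr ⟨h12, h02⟩⟩
  · exact ⟨1, Or.inl ⟨h12, h01⟩⟩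
  · exact ⟨1, Or.inl ⟨h12, h01⟩⟩

lemma exists_ratio {n : ℕ} (q : C(ZZ n, ℝ)) (V : Fin 3 → Fin n → Fin 3 → QI) {ε : ℝ}
    (hε : 0 < ε) : ∃ (i : Fin 3) (r : QI),
    |q (toZ fun k x => mixQ r (V (i + 1) k x) (V (i + 2) k x)) - q (toZ (V i))| < ε := by
  obtain ⟨i, hi⟩ := middle fun j => q (toZ (V j))
  let path : unitInterval → ZZ n := fun t k x =>
    mixI t (toI (V (i + 1) k x)) (toI (V (i + 2) k x))
  have hpath : Continuous path := by
    refine continuous_pi fun k => continuous_pi fun x => ?_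
    exact continuous_mixI continuous_id continuous_const continuous_const
  have hp0 : path ⟨0, le_rfl, zero_le_one⟩ = toZ (V (i + 1)) := by
    funext k x
    apply Subtype.ext
    show (1 - (0 : ℝ)) * _ + 0 * _ = _
    ring_nf
    rfl
  have hp1 : path ⟨1, zero_le_one, le_rfl⟩ = toZ (V (i + 2)) := by
    funext k x
    apply Subtype.ext
    show (1 - (1 : ℝ)) * _ + 1 * _ = _
    ring_nf
    rfl
  have hcont : Continuous fun t => q (path t) := q.continuous.comp hpath
  have hval : q (toZ (V i)) ∈ range fun t => q (path t) := by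
    apply mem_range_of_exists_le_of_exists_ge hcont
    · rcases hi with h | h
      · exact ⟨_, by rw [hp0]; exact h.1⟩
      · exact ⟨_, by rw [hp1]; exact h.1⟩
    · rcases hi with h | h
      · exact ⟨_, by rw [hp1]; exact h.2⟩
      · exact ⟨_, by rw [hp0]; exact h.2⟩
  obtain ⟨t, ht⟩ := hval
  have hopen : IsOpen {t' | |q (path t') - q (toZ (V i))| < ε} :=
    isOpen_lt ((hcont.sub continuous_const).abs) continuous_const
  have ht : q (path t) = q (toZ (V i)) := ht
  obtain ⟨r, hr⟩ := denseRange_toI.exists_mem_open hopen ⟨t, by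
    show |q (path t) - q (toZ (V i))| < ε
    rw [ht, sub_self, abs_zero]
    exact hε⟩
  refine ⟨i, r, ?_⟩
  have h1 : (toZ fun k x => mixQ r (V (i + 1) k x) (V (i + 2) k x)) = path (toI r) := by
    funext k x
    exact toI_mix _ _ _
  rw [h1]
  exact hr

/-- continuous functions on the cube almost depend on finitely many coordinates -/
lemma exists_finite (F : C(XX, ℝ)) {ε : ℝ} (hε : 0 < ε) : ∃ s : Finset Th,
    ∀ x y : XX, (∀ α ∈ s, x α = y α) → |F x - F y| < ε := by
  classical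
  have h1 : ∀ x : XX, ∃ (s : Finset Th) (u : Th → Set (Fin 3 → unitInterval)),
      (∀ α ∈ s, IsOpen (u α) ∧ x α ∈ u α) ∧ (s : Set Th).pi u ⊆ {y | |F y - F x| < ε / 2} := by
    intro x
    have hopen : IsOpen {y | |F y - F x| < ε / 2} :=
      isOpen_lt ((F.continuous.sub continuous_const).abs) continuous_const
    exact isOpen_pi_iff.1 hopen x (by
      show |F x - F x| < ε / 2
      rw [sub_self, abs_zero]
      linarith)
  choose s u hsu hsub using h1
  have hcomp : IsCompact (univ : Set XX) := isCompact_univ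
  obtain ⟨t, ht⟩ := hcomp.elim_finite_subcover (fun x => (s x : Set Th).pi (u x))
    (fun x => isOpen_set_pi (s x).finite_toSet fun α hα => (hsu x α hα).1)
    (fun x _ => mem_iUnion.2 ⟨x, fun α hα => (hsu x α hα).2⟩)
  refine ⟨t.biUnion s, fun x y hxy => ?_⟩
  obtain ⟨z, hz, hxz⟩ := mem_iUnion₂.1 (ht (mem_univ x))
  have hyz : y ∈ (s z : Set Th).pi (u z) := by
    intro α hα
    rw [← hxy α (Finset.mem_biUnion.2 ⟨z, hz, hα⟩)]
    exact hxz α hα
  have h2 : |F x - F z| < ε / 2 := hsub z hxz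
  have h3 : |F y - F z| < ε / 2 := hsub z hyz
  rw [abs_lt] at h2 h3 ⊢
  constructor <;> linarith

open Classical in
/-- extension of a finite-dimensional point -/
noncomputable def emb {n : ℕ} (a : Fin n → Th) (z : ZZ n) : XX := fun α =>
  if h : ∃ k, a k = α then z h.choose else fun _ => toI QI.zero

lemma continuous_emb {n : ℕ} (a : Fin n → Th) : Continuous (emb a) := by
  refine continuous_pi fun α => ?_
  by_cases h : ∃ k, a k = α
  · have : (fun z : ZZ n => emb a z α) = fun z => z h.choose := by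
      funext z
      exact dif_pos h
    rw [this]
    exact continuous_apply _
  · have : (fun z : ZZ n => emb a z α) = fun _ => fun _ => toI QI.zero := by
      funext z
      exact dif_neg h
    rw [this]
    exact continuous_const

lemma emb_apply {n : ℕ} (a : Fin n → Th) (ha : Function.Injective a) (z : ZZ n) (k : Fin n) :
    emb a z (a k) = z k := by
  have h : ∃ k', a k' = a k := ⟨k, rfl⟩
  have h1 : emb a z (a k) = z h.choose := dif_pos h
  rw [h1, ha h.choose_spec]

/-- data type -/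
abbrev Dat (n : ℕ) : Type := ℕ × ℕ × (Fin n → Fin n → Fin 3 → Fin 3 → QI)

theorem partB (c : Th → Th → Col)
    (hc : ∀ (n : ℕ) (a : Th → Fin n → Th) (τ : Th → ℕ),
      (∀ ξ, StrictMono (a ξ)) → (∀ ξ, ∃ k, ξ ≤ a ξ k) →
      ∃ n0 t : ℕ, n0 < n ∧ ∀ M : Fin n → Fin n → Col, ∃ ξ η, τ ξ = t ∧ τ η = t ∧
        (∀ k : Fin n, k.1 < n0 → a ξ k = a η k) ∧
        ∀ k l : Fin n, n0 ≤ k.1 → n0 ≤ l.1 → a ξ l < a η k ∧ c (a ξ l) (a η k) = M k l)
    (D : Set (YY c → ℝ)) (hD : D ⊆ range (fun f : C(XX, ℝ) => fun y : YY c => f y.1))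
    (hdisc : DiscreteTopology D) : Cardinal.mk D ≤ Cardinal.aleph 1 := by
  classical
  by_contra hcon
  rw [not_le] at hcon
  have hcard : Cardinal.mk Th ≤ Cardinal.mk D := by
    rw [mk_Th, aleph2_eq]
    exact Order.succ_le_of_lt hcon
  obtain ⟨φ⟩ := hcard
  -- continuous extensions
  have h1 : ∀ ξ, ∃ F : C(XX, ℝ), (fun y : YY c => F y.1) = (φ ξ).1 := fun ξ => hD (φ ξ).2
  choose F hF using h1
  -- neighbourhoods
  have h2 : ∀ ξ, ∃ (s : Finset (YY c)) (m : ℕ), ∀ g ∈ D,
      (∀ y ∈ s, |g y - (φ ξ).1 y| < 1 / ((m : ℝ) + 1)) → g = (φ ξ).1 := by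
    intro ξ
    obtain ⟨U, hU, hUD⟩ := discreteTopology_subtype_iff'.1 hdisc (φ ξ).1 (φ ξ).2
    have hmem : (φ ξ).1 ∈ U := by
      have : (φ ξ).1 ∈ U ∩ D := by rw [hUD]; rfl
      exact this.1
    obtain ⟨s, u, hsu, hsub⟩ := isOpen_pi_iff.1 hU _ hmem
    have h3 : ∀ y : YY c, ∃ m : ℕ, y ∈ s → Metric.ball ((φ ξ).1 y) (1 / ((m : ℝ) + 1)) ⊆ u y := by
      intro y
      by_cases hy : y ∈ s
      · obtain ⟨δ, hδ, hball⟩ := Metric.isOpen_iff.1 (hsu y hy).1 _ (hsu y hy).2
        obtain ⟨m, hm⟩ := exists_nat_one_div_lt hδ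
        exact ⟨m, fun _ => (Metric.ball_subset_ball hm.le).trans hball⟩
      · exact ⟨0, fun h => absurd h hy⟩
    choose m hm using h3
    refine ⟨s, s.sup m, fun g hg hclose => ?_⟩
    have : g ∈ U ∩ D := by
      refine ⟨hsub fun y hy => hm y hy ?_, hg⟩
      rw [Metric.mem_ball, Real.dist_eq]
      refine (hclose y hy).trans_le ?_
      apply one_div_le_one_div_of_le (by positivity)
      have : m y ≤ s.sup m := Finset.le_sup (f := m) hy
      have : (m y : ℝ) ≤ ((s.sup m : ℕ) : ℝ) := by exact_mod_cast this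
      linarith
    rw [hUD] at this
    exact this
  choose s m hs using h2
  -- finite supports
  have h4 : ∀ ξ, ∃ b : Finset Th, ∀ x y : XX, (∀ α ∈ b, x α = y α) →
      |F ξ x - F ξ y| < 1 / ((m ξ : ℝ) + 1) / 8 := fun ξ =>
    exists_finite (F ξ) (by positivity)
  choose b hb using h4
  have h5 : ∀ y : YY c, ∃ p : Th × Fin 3, px c p.1 p.2 = y.1 := fun y => y.2
  choose ix hix using h5
  let A : Th → Finset Th := fun ξ => insert ξ (b ξ ∪ (s ξ).image fun y => (ix y).1)
  -- fix the size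
  obtain ⟨n, hn⟩ := pigeon (ι := ℕ) (by simpa using aleph0_le_aleph1) not_small_univ_Th
    (fun ξ => (A ξ).card)
  have h6 : ∀ γ : Th, ∃ ξ, γ < ξ ∧ (A ξ).card = n := by
    intro γ
    obtain ⟨ξ, ⟨-, h7⟩, h8⟩ := exists_above hn γ
    exact ⟨ξ, h8, h7⟩
  choose θ hθ1 hθ2 using h6
  let a : Th → Fin n → Th := fun γ => (A (θ γ)).orderEmbOfFin (hθ2 γ)
  have ha : ∀ γ, StrictMono (a γ) := fun γ => ((A (θ γ)).orderEmbOfFin (hθ2 γ)).strictMono
  have harange : ∀ γ, ∀ x ∈ A (θ γ), ∃ k, a γ k = x := by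
    intro γ x hx
    have : x ∈ range ((A (θ γ)).orderEmbOfFin (hθ2 γ)) := by
      rw [Finset.range_orderEmbOfFin]
      exact hx
    exact this
  have haunb : ∀ γ, ∃ k, γ ≤ a γ k := by
    intro γ
    obtain ⟨k, hk⟩ := harange γ (θ γ) (Finset.mem_insert_self _ _)
    exact ⟨k, by rw [hk]; exact (hθ1 γ).le⟩
  -- data
  obtain ⟨qs, hqs⟩ := TopologicalSpace.exists_dense_seq C(ZZ n, ℝ)
  let G : Th → C(ZZ n, ℝ) := fun γ => (F (θ γ)).comp ⟨emb (a γ), continuous_emb (a γ)⟩
  have h9 : ∀ γ, ∃ j : ℕ, dist (G γ) (qs j) < 1 / ((m (θ γ) : ℝ) + 1) / 8 := by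
    intro γ
    have hopen : IsOpen (Metric.ball (G γ) (1 / ((m (θ γ) : ℝ) + 1) / 8)) := Metric.isOpen_ball
    obtain ⟨j, hj⟩ := hqs.exists_mem_open hopen ⟨_, Metric.mem_ball_self (by positivity)⟩
    refine ⟨j, ?_⟩
    rw [Metric.mem_ball, dist_comm] at hj
    exact hj
  choose jj hjj using h9
  let V : Th → Fin n → Fin n → Fin 3 → Fin 3 → QI := fun γ k l j i =>
    pt c (a γ l) j (a γ k) i
  obtain ⟨inj, hinj⟩ := exists_injective_nat (Dat n)
  obtain ⟨n0, t, hn0, hM⟩ := hc n a (fun γ => inj (m (θ γ), jj γ, V γ)) ha haunb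
  -- a representative of the type
  by_cases hrep : ∃ γ, inj (m (θ γ), jj γ, V γ) = t
  swap
  · obtain ⟨ξ, η, h10, -⟩ := hM fun _ _ => (fun _ _ => QI.zero, 0, QI.zero)
    exact hrep ⟨ξ, h10⟩
  obtain ⟨γ0, hγ0⟩ := hrep
  set ε : ℝ := 1 / ((m (θ γ0) : ℝ) + 1) with hεdef
  have hε : 0 < ε := by positivity
  set q := qs (jj γ0) with hq
  have hratio : ∀ l : Fin n, ∃ (i : Fin 3) (r : QI),
      |q (toZ fun k x => mixQ r (V γ0 k l (i + 1) x) (V γ0 k l (i + 2) x)) -
        q (toZ fun k => V γ0 k l i)| < ε / 8 := fun l =>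
    exists_ratio q (fun j k => V γ0 k l j) (by positivity)
  choose i0 r hir using hratio
  obtain ⟨ξ, η, hξt, hηt, hroot, hcol⟩ := hM fun k l => (V γ0 k l, i0 l, r l)
  have hξ := hinj (hξt.trans hγ0.symm)
  have hη := hinj (hηt.trans hγ0.symm)
  simp only [Prod.mk.injEq] at hξ hη
  obtain ⟨hξm, hξj, hξV⟩ := hξ
  obtain ⟨hηm, hηj, hηV⟩ := hη
  have hεξ : 1 / ((m (θ ξ) : ℝ) + 1) = ε := by rw [hεdef, hξm]
  have hεη : 1 / ((m (θ η) : ℝ) + 1) = ε := by rw [hεdef, hηm]
  -- approximation by `q`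
  have happrox : ∀ γ : Th, 1 / ((m (θ γ) : ℝ) + 1) = ε → jj γ = jj γ0 → ∀ x : XX,
      |F (θ γ) x - q (fun k => x (a γ k))| < ε / 4 := by
    intro γ hγε hγj x
    have e1 : |F (θ γ) x - G γ (fun k => x (a γ k))| < ε / 8 := by
      rw [← hγε]
      apply hb (θ γ)
      intro α hα
      obtain ⟨k, hk⟩ := harange γ α
        (Finset.mem_insert_of_mem (Finset.mem_union_left _ hα))
      rw [← hk]
      show x (a γ k) = emb (a γ) (fun k => x (a γ k)) (a γ k)
      exact (emb_apply (a γ) (ha γ).injective (fun k => x (a γ k)) k).symm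
    have e2 : dist (G γ (fun k => x (a γ k))) (q (fun k => x (a γ k))) < ε / 8 := by
      refine (ContinuousMap.dist_apply_le_dist _).trans_lt ?_
      have := hjj γ
      rw [hγj, hγε] at this
      exact this
    rw [Real.dist_eq] at e2
    rw [abs_lt] at e1 e2 ⊢
    constructor <;> linarith
  -- evaluation
  have hval : ∀ (l : Fin n) (j : Fin 3),
      |q (fun k => px c (a ξ l) j (a η k)) - q (toZ fun k => V γ0 k l j)| < ε / 4 := by
    intro l j
    by_cases hl : n0 ≤ l.1
    · by_cases hj : j = i0 l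
      · have : (fun k => px c (a ξ l) j (a η k)) =
            toZ fun k x => mixQ (r l) (V γ0 k l (i0 l + 1) x) (V γ0 k l (i0 l + 2) x) := by
          funext k x
          show toI (pt c (a ξ l) j (a η k) x) = toI _
          congr 1
          by_cases hk : n0 ≤ k.1
          · obtain ⟨h10, h11⟩ := hcol k l hk hl
            unfold pt
            rw [if_neg h10.ne', if_pos h10, h11]
            unfold val
            rw [if_pos hj]
          · have hkl : a ξ k < a ξ l := ha ξ (show k.1 < l.1 by omega)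
            have h12 : ∀ j', V γ0 k l j' x = QI.zero := by
              intro j'
              rw [← hξV]
              show pt c (a ξ l) j' (a ξ k) x = QI.zero
              unfold pt
              rw [if_neg hkl.ne, if_neg (not_lt.2 hkl.le)]
            show pt c (a ξ l) j (a η k) x =
              mixQ (r l) (V γ0 k l (i0 l + 1) x) (V γ0 k l (i0 l + 2) x)
            rw [h12, h12, ← hroot k (not_le.1 hk)]
            unfold pt
            rw [if_neg hkl.ne, if_neg (not_lt.2 hkl.le)]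
            apply Subtype.ext
            show (0 : ℚ) = (1 - (r l).1) * 0 + (r l).1 * 0
            ring
        rw [this, hj]
        exact (hir l).trans (by linarith)
      · have : (fun k => px c (a ξ l) j (a η k)) = toZ fun k => V γ0 k l j := by
          funext k x
          show toI (pt c (a ξ l) j (a η k) x) = toI _
          congr 1
          by_cases hk : n0 ≤ k.1
          · obtain ⟨h10, h11⟩ := hcol k l hk hl
            unfold pt
            rw [if_neg h10.ne', if_pos h10, h11]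
            unfold val
            rw [if_neg hj]
          · rw [← hroot k (not_le.1 hk), ← hξV]
        rw [this, sub_self, abs_zero]
        positivity
    · have : (fun k => px c (a ξ l) j (a η k)) = toZ fun k => V γ0 k l j := by
        funext k x
        show toI (pt c (a ξ l) j (a η k) x) = toI _
        rw [hroot l (not_le.1 hl), ← hηV]
      rw [this, sub_self, abs_zero]
      positivity
  -- conclusion
  have hclose : ∀ (l : Fin n) (j : Fin 3),
      |F (θ η) (px c (a ξ l) j) - F (θ ξ) (px c (a ξ l) j)| < ε := by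
    intro l j
    have e1 := happrox η hεη hηj (px c (a ξ l) j)
    have e2 := happrox ξ hεξ hξj (px c (a ξ l) j)
    have e3 := hval l j
    have e4 : (fun k => px c (a ξ l) j (a ξ k)) = toZ fun k => V γ0 k l j := by
      funext k x
      rw [← hξV]
      rfl
    rw [e4] at e2
    rw [abs_lt] at e1 e2 e3 ⊢
    constructor <;> linarith
  have heq : (φ (θ η)).1 = (φ (θ ξ)).1 := by
    apply hs (θ ξ) _ (φ (θ η)).2
    intro y hy
    obtain ⟨l, hl⟩ := harange ξ (ix y).1 (Finset.mem_insert_of_mem (Finset.mem_union_right _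
      (Finset.mem_image_of_mem _ hy)))
    rw [hεξ, ← hF (θ η), ← hF (θ ξ)]
    show |F (θ η) y.1 - F (θ ξ) y.1| < ε
    rw [← hix y, ← hl]
    exact hclose l (ix y).2
  have hθ : θ η = θ ξ := φ.injective (Subtype.ext heq)
  have hlt := (hcol ⟨n0, hn0⟩ ⟨n0, hn0⟩ le_rfl le_rfl).1
  have : a ξ = a η := by
    show (fun k => (A (θ ξ)).orderEmbOfFin (hθ2 ξ) k) = fun k => (A (θ η)).orderEmbOfFin (hθ2 η) k
    funext k
    congr 1
    all_goals simp only [hθ]
  rw [this] at hlt
  exact lt_irrefl _ hlt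

end partB

theorem spread_main : ¬ (∀ (X : Type) [TopologicalSpace X] [T35Space X] (Y : Set X),
      (⨆ D : {D : Set (Y → ℝ) //
          D ⊆ Set.range (fun f : C(Y, ℝ) => (f : Y → ℝ)) ∧ DiscreteTopology D},
          Cardinal.mk D.1)
        =
      (⨆ D : {D : Set (Y → ℝ) //
          D ⊆ Set.range (fun f : C(X, ℝ) => fun y : Y => f y.1) ∧ DiscreteTopology D},
          Cardinal.mk D.1)) := by
  intro hall
  haveI : Nonempty Col := ⟨(fun _ _ => QI.zero, 0, QI.zero)⟩
  obtain ⟨c, hc⟩ := exists_pr0 Col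
  have h := hall XX (YY c)
  obtain ⟨D, hD1, hD2, hD3⟩ := partA c
  have h1 : Cardinal.aleph 2 ≤ ⨆ D : {D : Set (YY c → ℝ) //
          D ⊆ Set.range (fun f : C(YY c, ℝ) => (f : YY c → ℝ)) ∧ DiscreteTopology D},
          Cardinal.mk D.1 := by
    rw [← hD3]
    exact le_ciSup (f := fun D : {D : Set (YY c → ℝ) //
          D ⊆ Set.range (fun f : C(YY c, ℝ) => (f : YY c → ℝ)) ∧ DiscreteTopology D} =>
          Cardinal.mk D.1) (Cardinal.bddAbove_range _) ⟨D, hD1, hD2⟩
  have h2 : (⨆ D : {D : Set (YY c → ℝ) //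
          D ⊆ Set.range (fun f : C(XX, ℝ) => fun y : YY c => f y.1) ∧ DiscreteTopology D},
          Cardinal.mk D.1) ≤ Cardinal.aleph 1 := by
    apply ciSup_le'
    rintro ⟨D, hD1, hD2⟩
    exact partB c hc D hD1 hD2
  rw [h] at h1
  have h3 := h1.trans h2
  rw [aleph2_eq] at h3
  exact absurd h3 (not_le.2 (Order.lt_succ _))

end Pool.Agent.Helper220.Spread
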